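import Pool.Agent.Work.MP_d3fa71_gt.Mut.Defs

/-!
# MP_d3fa71_gt, project Mut: the top level statements (interfaces between the modules)

See `PROOF.md`. Every statement is a `Prop`; items prove them (possibly from each other).
-/

open Filter

namespace AJM

/-! ## Paths -/

/-- Multiplication of the frames by diagonal matrices. -/
def scl {R : Type} [CommRing R] (s : List (G R)) (d : List Rˣ) : List (G R) :=
  List.zipWith (fun h u => h * dg u) s d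

/-- Drilled word with `E`-move on the strands `i`, `i + 1`. -/
def twd (i : ℕ) : List DMv := [(.tw, i)]

/-- Paths of a concatenation. -/
def PathAppend : Prop :=
  ∀ (R : Type) [CommRing R] (M : Rˣ) (w₁ w₂ : List Mv) (s s'' : List (G R)) (τ : Rˣ),
    Path M (w₁ ++ w₂) s s'' τ ↔
      ∃ (s' : List (G R)) (τ₁ τ₂ : Rˣ), Path M w₁ s s' τ₁ ∧ Path M w₂ s' s'' τ₂ ∧ τ = τ₁ * τ₂

def DPathAppend : Prop :=
  ∀ (R : Type) [CommRing R] (M : Rˣ) (w₁ w₂ : List DMv) (s s'' : List (G R)) (τ : Rˣ)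
    (Θ : List (Rˣ × Rˣ)),
    DPath M (w₁ ++ w₂) s s'' τ Θ ↔
      ∃ (s' : List (G R)) (τ₁ τ₂ : Rˣ) (Θ₁ Θ₂ : List (Rˣ × Rˣ)), DPath M w₁ s s' τ₁ Θ₁ ∧
        DPath M w₂ s' s'' τ₂ Θ₂ ∧ τ = τ₁ * τ₂ ∧ Θ = Θ₁ ++ Θ₂

/-- Ordinary paths are drilled paths. -/
def PathEmb : Prop :=
  ∀ (R : Type) [CommRing R] (M : Rˣ) (w : List Mv) (s s' : List (G R)) (τ : Rˣ),
    Path M w s s' τ ↔ DPath M (emb w) s s' τ []

/-- Shifted words. -/
def PathShift : Prop :=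
  ∀ (R : Type) [CommRing R] (M : Rˣ) (w : List Mv) (p s s₁ : List (G R)) (τ : Rˣ),
    Path M (sh p.length w) (p ++ s) s₁ τ ↔ ∃ s', s₁ = p ++ s' ∧ Path M w s s' τ

/-- Left translation of all frames. -/
def PathConj : Prop :=
  ∀ (R : Type) [CommRing R] (M : Rˣ) (P : G R) (w : List Mv) (s s' : List (G R)) (τ : Rˣ),
    Path M w s s' τ → Path M w (s.map (P * ·)) (s'.map (P * ·)) τ

/-- Scaling of the frames. -/
def PathScale : Prop :=
  ∀ (R : Type) [CommRing R] (M : Rˣ) (w : List Mv) (s s' : List (G R)) (τ : Rˣ) (d : List Rˣ),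
    Path M w s s' τ → d.length = s.length →
    ∃ (d' : List Rˣ) (τ' : Rˣ), d'.length = s'.length ∧ Path M w (scl s d) (scl s' d') τ' ∧
      τ' * d'.prod = τ * d.prod

/-! ## Isotropy -/

/-- `(Da/a)(D'b/b) - (D'a/a)(Db/b)`. -/
noncomputable def dl {k L : Type} [Field k] [Field L] [Algebra k L] (D D' : Derivation k L L)
    (a b : L) : L := D a / a * (D' b / b) - D' a / a * (D b / b)

def Iso : Prop :=
  ∀ (k L : Type) [Field k] [Field L] [Algebra k L] [CharZero L] (D D' : Derivation k L L)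
    (M : Lˣ) (w : List DMv) (τ : Lˣ) (Θ : List (Lˣ × Lˣ)), DPath M w [] [] τ Θ →
    (Θ.map (fun p => dl D D' (p.1 : L) (p.2 : L))).sum = dl D D' (τ : L) (M : L)

/-! ## Germs -/

/-- The ultrapower of `F`. -/
abbrev Gm (F : Type) : Type := (hyperfilter ℕ : Filter ℕ).Germ F

/-- The ring homomorphism from sequences to germs. -/
noncomputable def gm (F : Type) [Field F] : (ℕ → F) →+* Gm F := Germ.coeRingHom _

/-- Germs of sequences of units. -/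
noncomputable def gu {F : Type} [Field F] (x : ℕ → Fˣ) : (Gm F)ˣ :=
  Units.map (gm F).toMonoidHom ⟨fun i => (x i : F), fun i => ((x i)⁻¹ : Fˣ), by ext i; simp,
    by ext i; simp⟩

/-- Germs of sequences of constants. -/
noncomputable def kst (F : Type) [Field F] [Algebra ℂ F] : Subfield (Gm F) :=
  ((gm F).comp (RingHom.compLeft (algebraMap ℂ F) ℕ)).range.toSubfield
    (by
      rintro _ ⟨c, rfl⟩
      refine ⟨fun i => (c i)⁻¹, ?_⟩
      have : ((gm F).comp (RingHom.compLeft (algebraMap ℂ F) ℕ)) (fun i => (c i)⁻¹) =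
          ((gm F).comp (RingHom.compLeft (algebraMap ℂ F) ℕ) c)⁻¹ := by
        simp only [RingHom.comp_apply, gm, Germ.coe_coeRingHom]
        rw [← Germ.coe_inv]
        congr 1
        ext i
        simp
      exact this)

def GermPath : Prop :=
  ∀ (F : Type) [Field F] (w : List DMv) (M τ : ℕ → Fˣ) (n : ℕ) (Θ : Fin n → ℕ → Fˣ × Fˣ),
    (∀ i, DPath (M i) w [] [] (τ i) (List.ofFn fun j => Θ j i)) →
    DPath (gu M) w [] [] (gu τ)
      (List.ofFn fun j => (gu fun i => (Θ j i).1, gu fun i => (Θ j i).2))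

def DepJac : Prop :=
  ∀ (k L : Type) [Field k] [Field L] [Algebra k L] [CharZero k] (E W : L),
    (∀ D D' : Derivation k L L, D E * D' W = D' E * D W) → ¬ AlgebraicIndependent k ![E, W]

def AlgDer : Prop :=
  ∀ (k L : Type) [Field k] [Field L] [Algebra k L] [CharZero k] (x : L),
    (∀ D : Derivation k L L, D x = 0) → IsAlgebraic k x

/-- The dependence lemma. -/
def DTL : Prop :=
  ∀ (F : Type) [Field F] [Algebra ℂ F] (E W : ℕ → Fˣ) (n : ℕ → ℤ), Function.Injective n →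
    (∀ i, E i * W i ^ n i = 1) →
    (∀ D D' : Derivation (kst F) (Gm F) (Gm F),
      D (gu E : Gm F) * D' (gu W : Gm F) = D' (gu E : Gm F) * D (gu W : Gm F)) →
    ∀ᶠ i in (hyperfilter ℕ : Filter ℕ), ∃ c : ℂ, (W i : F) = algebraMap ℂ F c

/-- One loop of a drilled word: the other loops are constant or have fixed exponent. -/
def Loop : Prop :=
  ∀ (F : Type) [Field F] [Algebra ℂ F] (w : List DMv) (M τ : ℕ → Fˣ) (n : ℕ)
    (Θ : Fin n → ℕ → Fˣ × Fˣ) (j : Fin n) (a : ℕ → ℤ) (N : ℤ), Function.Injective a →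
    (∀ i, DPath (M i) w [] [] (τ i) (List.ofFn fun l => Θ l i)) →
    (∀ i, ∃ c : ℂ, (τ i : F) = algebraMap ℂ F c * ((M i ^ N : Fˣ) : F)) →
    (∀ l, l ≠ j → (∃ e : ℤ, ∀ i, (Θ l i).1 = (Θ l i).2 ^ e) ∨
      (∀ i, (∃ c : ℂ, ((Θ l i).1 : F) = algebraMap ℂ F c) ∧
        ∃ c : ℂ, ((Θ l i).2 : F) = algebraMap ℂ F c)) →
    (∀ i, (Θ j i).1 = (Θ j i).2 ^ a i) →
    ∀ᶠ i in (hyperfilter ℕ : Filter ℕ), ∃ c : ℂ, ((Θ j i).2 : F) = algebraMap ℂ F c

/-! ## The gadget -/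

/-- The negative direction of the V-lemma. -/
def Vneg : Prop :=
  ∀ (F : Type) [Field F] [Algebra ℂ F] [IsAlgClosed F] (w₁ w₂ : List Mv) (i : ℕ) (N : ℤ),
    ¬ SS F (w₁ ++ w₂) N →
    ∃ b₁ : ℕ, ∀ j' ≥ b₁, ∃ b₂ : ℕ, ∀ j ≥ b₂, ∃ b₃ : ℕ, ∀ n ≥ b₃,
      ¬ SS F (w₁ ++ sh i (Vg j' j n) ++ w₂) (N + 2 * j' + 2 * j + 2 * n + 2)

/-- The polynomials `E_n`. -/
def Ep {R : Type} [CommRing R] : ℕ → R → R
  | 0, _ => 1
  | 1, Y => Y - 1
  | (n + 2), Y => Y * Ep (n + 1) Y - Ep n Y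

/-- A word `v` acting trivially (with defect `g`) on all non-commuting pairs. -/
def Vok {F : Type} [Field F] (M : Fˣ) (v : List Mv) (g : Fˣ) : Prop :=
  ∀ (ha hb : G F) (s : List (G F)), mer M ha * mer M hb ≠ mer M hb * mer M ha →
    Path M v (ha :: hb :: s) (ha :: hb :: s) g

def Vpos : Prop :=
  ∀ (F : Type) [Field F] [CharZero F] [IsAlgClosed F] (M : Fˣ) (j' j n : ℕ) (Y' Y'' : F),
    (M : F) ^ 2 ≠ 1 → Ep j' Y' = 0 → Ep j Y'' = 0 → Y' ≠ Y'' →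
    ((M : F) + ((M⁻¹ : Fˣ) : F)) ^ 2 ≠ Y' + Y'' →
    Vok M (Vg j' j n) (M ^ (2 * j' + 2 * j + 2 * n + 2))

/-! ## The coil and the ring -/

/-- The ring word of `K'` without coil. -/
def Tw : List Mv := Bw [] [] [] ++ Pw [] ++ Gw [] ++ Pr [] ++ Gr

/-- Closed ring with a conjugation by `E`. -/
def Ring {F : Type} [Field F] (M : Fˣ) (ha hb E : G F) (τ : Fˣ) : Prop :=
  E * (mer M ha * mer M hb) = mer M ha * mer M hb * E ∧
  ∃ (ha' hb' : G F) (τT α β : Fˣ), Path M Tw [ha, hb] [ha', hb'] τT ∧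
    E * ha' = ha * dg α ∧ E * hb' = hb * dg β ∧ τ = τT * α * β

def Coil : Prop :=
  ∀ (F : Type) [Field F] (M : Fˣ) (k : ℕ) (τ : Fˣ), Path M (Kw' k (fun _ => [])) [] [] τ →
    ∃ (ha hb ρ : G F) (z : Fˣ),
      (mer M ρ * (mer M ha * mer M hb)) ^ (2 * k) * ρ = ρ * dg z ∧
      Ring M ha hb ((mer M ha * mer M hb) ^ k * (mer M ρ * (mer M ha * mer M hb)) ^ (2 * k) *
        ((mer M ha * mer M hb) ^ (2 * k))⁻¹) (τ * M ^ (4 * k) * z⁻¹)

/-- The ring as a closed drilled word. -/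
def RingD : Prop :=
  ∀ (F : Type) [Field F] (M : Fˣ) (ha hb E : G F) (τ ε ω : Fˣ) (v : Fin 2 → F), v ≠ 0 →
    Matrix.mulVec E.1 v = (ε : F) • v →
    Matrix.mulVec (mer M ha * mer M hb).1 v = (ω : F) • v → Ring M ha hb E τ →
    DPath M (emb ([(.cup, 0), (.cup, 1)] ++ Tw) ++ twd 0 ++ emb [(.cap, 1), (.cap, 0)])
      [] [] τ [(ε, ω)]

def RingConj : Prop :=
  ∀ (F : Type) [Field F] (M : Fˣ) (P ha hb E : G F) (τ : Fˣ), Ring M ha hb E τ →
    Ring M (P * ha) (P * hb) (P * E * P⁻¹) τ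

def E1 : Prop :=
  ∀ (F : Type) [Field F] [Algebra ℂ F] [IsAlgClosed F] (M ω ε : Fˣ) (c e : ℂ) (ha hb : G F)
    (τ : Fˣ), Transcendental ℂ (M : F) → c ≠ 0 → c ≠ 1 →
    (ω : F) = algebraMap ℂ F c * (M : F) ^ 2 → (ε : F) = algebraMap ℂ F e →
    mer M ha * mer M hb = dg ω → ¬ Ring M ha hb (dg ε) τ

def E2 : Prop :=
  ∀ (F : Type) [Field F] [Algebra ℂ F] [IsAlgClosed F] (M ω ε : Fˣ) (ha hb : G F) (τ : Fˣ)
    (j : ℤ), Transcendental ℂ (M : F) → (ω = M ^ 2 ∨ ω = (M ^ 2)⁻¹) → ε ^ 2 = M ^ (2 * j) →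
    mer M ha * mer M hb = dg ω → ¬ Ring M ha hb (dg ε) τ

def Alg : Prop :=
  ∀ (F : Type) [Field F] [Algebra ℂ F] (M ω ε : Fˣ) (ha hb : G F) (τ : Fˣ),
    Transcendental ℂ (M : F) → ω ^ 2 ≠ 1 → ω ≠ M ^ 2 → ω ≠ (M ^ 2)⁻¹ →
    mer M ha * mer M hb = dg ω → Ring M ha hb (dg ε) τ →
    IsAlgebraic (IntermediateField.adjoin ℂ {(M : F), (ω : F)}) (ε : F)

/-- The link theorem. -/
def LinkNeg : Prop :=
  ∀ (F : Type) [Field F] [Algebra ℂ F] [IsAlgClosed F] (N : ℤ), ∃ k₀ : ℕ, ∀ k ≥ k₀,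
    ¬ SS F (Kw' k (fun _ => [])) (N - 6 * k)

/-- The negative half for the knots. -/
def KNeg : Prop :=
  ∀ (F : Type) [Field F] [Algebra ℂ F] [IsAlgClosed F],
    ∃ (k : ℕ) (j' j n : Fin 7 → ℕ), (∀ i, 1 ≤ j' i) ∧ (∀ i, j' i < j i) ∧ 1 ≤ k ∧
      ¬ SS F (Kw' k (fun i => Vg (j' i) (j i) (n i)))
        (-12 - 6 * k + ∑ i, (2 * (j' i : ℤ) + 2 * j i + 2 * n i + 2))

/-! ## The special representations -/

/-- The positive half, link level with abstract gadgets: for all but finitely many `M`. -/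
def ZPos : Prop :=
  ∃ B : Finset ℂ, ∀ (M : ℂˣ), (M : ℂ) ∉ B → ∀ (k : ℕ) (v : Fin 7 → List Mv) (g : Fin 7 → ℂˣ),
    (∀ i, Vok M (v i) (g i)) →
    Path M (Kw k v) [] [] (M ^ (-12 - 6 * (k : ℤ)) * ∏ i, g i)

/-- The positive half for the knots. -/
def KPos : Prop :=
  ∀ (k : ℕ) (j' j n : Fin 7 → ℕ), (∀ i, 1 ≤ j' i) → (∀ i, j' i < j i) →
    ∃ B : Finset ℂ, ∀ (M : ℂˣ), (M : ℂ) ∉ B →
      Path M (Kw k (fun i => Vg (j' i) (j i) (n i))) [] []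
        (M ^ (-12 - 6 * (k : ℤ) + ∑ i, (2 * (j' i : ℤ) + 2 * j i + 2 * n i + 2)))

end AJM
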