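import Pool.Agent.Work.MP_d3fa71_gt.Mut.Defs

/-!
# MP_d3fa71_gt, project Mut: the coloured Jones function of a word

The Reshetikhin-Turaev state sum of the quantum group `U_q(sl_2)`, `q = t ^ 4`, `s = t ^ 2`.
`V_n` has the basis `e_0, ..., e_{n-1}` with `F e_j = e_{j+1}`, `E e_j = [j] [n-j] e_{j-1}`,
`K e_j = s ^ (n-1-2j) e_j`. Coproduct `Δ(E) = 1 ⊗ E + E ⊗ K`, `Δ(F) = K⁻¹ ⊗ F + F ⊗ 1`.
-/

open Matrix
open scoped Kronecker

namespace AJM

/-- The variable `t = q^{1/4}`. -/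
noncomputable def tq : RatFunc ℚ := RatFunc.X

/-- The quantum integer `[m] = (t^{2m} - t^{-2m}) / (t² - t^{-2})`. -/
noncomputable def qi (m : ℕ) : RatFunc ℚ :=
  (tq ^ (2 * (m : ℤ)) - tq ^ (-(2 * (m : ℤ)))) / (tq ^ (2 : ℤ) - tq ^ (-2 : ℤ))

/-- The matrix of `E` on `V_n`: `E e_j = [j] [n-j] e_{j-1}`. -/
noncomputable def Em (n : ℕ) : Matrix (Fin n) (Fin n) (RatFunc ℚ) :=
  Matrix.of fun i j => if (i : ℕ) + 1 = j then qi j * qi (n - j) else 0

/-- The matrix of `F` on `V_n`: `F e_j = e_{j+1}`. -/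
noncomputable def Fm (n : ℕ) : Matrix (Fin n) (Fin n) (RatFunc ℚ) :=
  Matrix.of fun i j => if (i : ℕ) = j + 1 then 1 else 0

/-- The weight `n - 1 - 2 j` of `e_j`. -/
def wt (n : ℕ) (j : Fin n) : ℤ := (n : ℤ) - 1 - 2 * (j : ℕ)

/-- The `R`-matrix
`t ^ (H ⊗ H) ∑_k t ^ {k (k-1)} (t² - t⁻²) ^ k / [k]! E ^ k ⊗ F ^ k` on `V_n ⊗ V_n`. -/
noncomputable def Rm (n : ℕ) : Matrix (Fin n × Fin n) (Fin n × Fin n) (RatFunc ℚ) :=
  Matrix.diagonal (fun p => tq ^ (wt n p.1 * wt n p.2)) *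
    ∑ k ∈ Finset.range n,
      (tq ^ (k * (k - 1)) * (tq ^ (2 : ℤ) - tq ^ (-2 : ℤ)) ^ k /
        ∏ i ∈ Finset.range k, qi (i + 1)) • ((Em n ^ k) ⊗ₖ (Fm n ^ k))

/-- The braiding (flip after `R`): `e_a ⊗ e_b ↦ ∑ (Bm n) (c, d) (a, b) e_c ⊗ e_d`. -/
noncomputable def Bm (n : ℕ) : Matrix (Fin n × Fin n) (Fin n × Fin n) (RatFunc ℚ) :=
  (Rm n).submatrix Prod.swap id

/-- The coefficients of the invariant vector `∑ c_i e_i ⊗ e_{n-1-i}` of `V_n ⊗ V_n`. -/
noncomputable def cc (n : ℕ) (i : Fin n) : RatFunc ℚ :=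
  (-1) ^ (i : ℕ) * tq ^ (2 * (i : ℤ) * ((n : ℤ) - 2 - (i : ℤ)))

/-- The sum of all tensor powers of `V_n`; the list `[a, b, ...]` stands for
`e_a ⊗ e_b ⊗ ...`. -/
abbrev TT (n : ℕ) : Type := List (Fin n) →₀ RatFunc ℚ

/-- The action of a move on the basis vectors. -/
noncomputable def act (n : ℕ) : Kd → ℕ → List (Fin n) → TT n
  | .cup, 0, s => ∑ i : Fin n, Finsupp.single (i :: i.rev :: s) (cc n i)
  | .cap, 0, (i :: j :: s) => if j = i.rev then Finsupp.single s (cc n j)⁻¹ else 0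
  | .pos, 0, (a :: b :: s) =>
      ∑ p : Fin n × Fin n, Finsupp.single (p.1 :: p.2 :: s) ((Bm n)⁻¹ p (a, b))
  | .neg, 0, (a :: b :: s) =>
      ∑ p : Fin n × Fin n, Finsupp.single (p.1 :: p.2 :: s) (Bm n p (a, b))
  | k, (i + 1), (x :: s) => Finsupp.mapDomain (x :: ·) (act n k i s)
  | _, _, _ => 0

/-- The action of a move. -/
noncomputable def opm (n : ℕ) (m : Mv) : TT n →ₗ[RatFunc ℚ] TT n :=
  Finsupp.linearCombination (RatFunc ℚ) (act n m.1 m.2)

/-- The action of a word (the first move acts first). -/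
noncomputable def opw (n : ℕ) : List Mv → TT n →ₗ[RatFunc ℚ] TT n
  | [] => LinearMap.id
  | m :: w => opw n w ∘ₗ opm n m

/-- The state sum of a closed word. -/
noncomputable def Zs (n : ℕ) (w : List Mv) : RatFunc ℚ := opw n w (Finsupp.single [] 1) []

/-! ## Orientations, writhe, components -/

/-- Orientations of the strands; the last argument is the sign of the crossing. -/
inductive OStep : Mv → List Bool → List Bool → ℤ → Prop
  | cup (b : Bool) (s : List Bool) : OStep (.cup, 0) s (b :: (!b) :: s) 0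
  | cap (b : Bool) (s : List Bool) : OStep (.cap, 0) (b :: (!b) :: s) s 0
  | pos (a b : Bool) (s : List Bool) :
      OStep (.pos, 0) (a :: b :: s) (b :: a :: s) (if a = b then -1 else 1)
  | neg (a b : Bool) (s : List Bool) :
      OStep (.neg, 0) (a :: b :: s) (b :: a :: s) (if a = b then 1 else -1)
  | sh (x : Bool) {k : Kd} {i : ℕ} {s s' : List Bool} {e : ℤ} :
      OStep (k, i) s s' e → OStep (k, i + 1) (x :: s) (x :: s') e

/-- An orientation of a word between given orientations of its ends; the last argument is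
the writhe. -/
inductive OPath : List Mv → List Bool → List Bool → ℤ → Prop
  | nil (s : List Bool) : OPath [] s s 0
  | cons {m : Mv} {w : List Mv} {s s' s'' : List Bool} {e e' : ℤ} :
      OStep m s s' e → OPath w s' s'' e' → OPath (m :: w) s s'' (e + e')

/-- Labels constant along the strands; the last argument lists the labels of the new arcs. -/
inductive CStep : Mv → List ℕ → List ℕ → List ℕ → Prop
  | cup (a : ℕ) (s : List ℕ) : CStep (.cup, 0) s (a :: a :: s) [a]
  | cap (a : ℕ) (s : List ℕ) : CStep (.cap, 0) (a :: a :: s) s []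
  | pos (a b : ℕ) (s : List ℕ) : CStep (.pos, 0) (a :: b :: s) (b :: a :: s) []
  | neg (a b : ℕ) (s : List ℕ) : CStep (.neg, 0) (a :: b :: s) (b :: a :: s) []
  | sh (x : ℕ) {k : Kd} {i : ℕ} {s s' L : List ℕ} :
      CStep (k, i) s s' L → CStep (k, i + 1) (x :: s) (x :: s') L

/-- A labelling of the strands of a word, constant along the strands. -/
inductive CPath : List Mv → List ℕ → List ℕ → List ℕ → Prop
  | nil (s : List ℕ) : CPath [] s s []
  | cons {m : Mv} {w : List Mv} {s s' s'' L L' : List ℕ} :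
      CStep m s s' L → CPath w s' s'' L' → CPath (m :: w) s s'' (L ++ L')

/-- The writhe of a closed word (for a word with one component it does not depend on the
orientation). -/
def Wr (w : List Mv) (e : ℤ) : Prop := OPath w [] [] e

/-- The closed word `w` has exactly one component. -/
def One (w : List Mv) : Prop :=
  w ≠ [] ∧ ∀ L, CPath w [] [] L → ∃ a, ∀ x ∈ L, x = a

/-- The coloured Jones function of a closed word with writhe `e`, in dimension `n ≥ 1`,
normalised by `1` for the unknot: `θ_n ^ (-e) Z_n / ((-1) ^ (n-1) [n])`,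
`θ_n = (-1) ^ (n-1) t ^ (n² - 1)`. -/
noncomputable def Jc (w : List Mv) (e : ℤ) (n : ℕ) : RatFunc ℚ :=
  ((-1) ^ (n + 1) * tq ^ ((n : ℤ) ^ 2 - 1)) ^ (-e) * Zs n w / ((-1) ^ (n + 1) * qi n)

end AJM
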