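import Pool.Agent.Work.MP_d3fa71_gt.Defs
import Pool.Agent.Work.MP_d3fa71_gt.Mut.DefsJ

/-!
# MP_d3fa71_gt, project Mut: knots as words, the knot group, the AJ statement

A closed word `w` is read as a diagram from left to right: the strands are horizontal lines,
strand `0` is the top one; `(cup, i)` creates the strands `i`, `i + 1`, `(cap, i)` joins them,
`(pos, i)` and `(neg, i)` are crossings of the strands `i`, `i + 1`. In `pos` the strand going
from position `i + 1` to position `i` (upwards) is the over strand, in `neg` the strand going
from `i` to `i + 1` (downwards) is the over strand. Two strands with the same direction cross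
with sign `-1` in `pos` and with sign `+1` in `neg`. Every knot has such a diagram.
-/

open Polynomial

namespace AJM

/-- `w` is a diagram of a knot, with writhe `e`. -/
def IsKnot (w : List Mv) (e : ℤ) : Prop := One w ∧ Wr w e

/-! ## The knot group

Wirtinger presentation, with generators at the cups. Every strand carries a pair `(x, g)`.
`x` is the Wirtinger generator of the strand (the meridian of the strand oriented from left to
right). `g` is the product of the letters `y^{±1}` of the over strands `y`, read while
travelling along the knot from its base point to the strand. The base point of the knot is at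
the first cup, and the knot starts along the upper strand, to the right: there `x = μ`, `g = 1`;
the knot comes back along the lower strand: there `x = μ⁻¹`, and `g` is the longitude with
blackboard framing. -/

/-- The free group on the generators `x = (c, false)` and `g = (c, true)` for the cup which is
the move number `c`. -/
abbrev WF : Type := FreeGroup (ℕ × Bool)

/-- The move number `c`, of kind `k`, at position `i`: the new labels and the relators. -/
def wmv (c : ℕ) : Kd → ℕ → List (WF × WF) → List (WF × WF) × List WF
  | .cup, 0, s => ((.of (c, false), .of (c, true)) :: ((.of (c, false))⁻¹, .of (c, true)) :: s, [])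
  | .cap, 0, (x, g) :: (y, h) :: s => (s, [x * y, g * h⁻¹])
  | .pos, 0, (x, g) :: (y, h) :: s => ((y, h) :: (y⁻¹ * x * y, y⁻¹ * g) :: s, [])
  | .neg, 0, (x, g) :: (y, h) :: s => ((x * y * x⁻¹, x * h) :: (x, g) :: s, [])
  | k, (i + 1), (a :: s) => (a :: (wmv c k i s).1, (wmv c k i s).2)
  | _, _, _ => ([], [])

/-- The relators of a word whose first move has number `c`. -/
def wrel : ℕ → List Mv → List (WF × WF) → List WF
  | _, [], _ => []
  | c, m :: w, s => (wmv c m.1 m.2 s).2 ++ wrel (c + 1) w (wmv c m.1 m.2 s).1

/-- The relators of the knot group of `w` (the last set removes the generators which do not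
belong to a cup). -/
def krel (w : List Mv) : Set WF :=
  {r | r ∈ wrel 1 w.tail [(.of (0, false), 1), ((.of (0, false))⁻¹, .of (0, true))]} ∪
    {r | ∃ (c : ℕ) (b : Bool), (∀ i, w[c]? ≠ some (.cup, i)) ∧ r = .of (c, b)}

/-- The knot group of the diagram `w` with writhe `e`, with the meridian `μ` and the (zero
framed) longitude. -/
def KG (w : List Mv) (e : ℤ) : AJG.PGroup where
  G := PresentedGroup (krel w)
  inst := inferInstance
  mer := PresentedGroup.of (0, false)
  lon := PresentedGroup.of (0, true) * PresentedGroup.of (0, false) ^ (-e)

/-! ## The AJ statement -/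

/-- The statement of the AJ conjecture for the knot with diagram `w` and writhe `e`. -/
def AJ (w : List Mv) (e : ℤ) : Prop :=
  ∀ (A : ℤ[X][X]) (α : Polynomial AJG.R2), AJG.IsAPoly (KG w e) A → AJG.IsNCA (Jc w e) α →
    ∀ F : ℤ[X][X], Irreducible F → 0 < F.natDegree →
      (F.map (Polynomial.toLaurent (R := ℤ)) ∣ α.map AJG.sp ↔ F ∣ A)

/-- The final statement: two knots with the same coloured Jones function, which have
A-polynomials and a non-commutative A-polynomial, but the A-polynomials have different
irreducible factors of positive degree in `L`; hence the AJ conjecture fails for one of the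
two knots. -/
def Final : Prop :=
  ∃ (w w' : List Mv) (e : ℤ), IsKnot w e ∧ IsKnot w' e ∧ (∀ n, Jc w e n = Jc w' e n) ∧
    (∃ A, AJG.IsAPoly (KG w e) A) ∧ (∃ A, AJG.IsAPoly (KG w' e) A) ∧
    (∃ α, AJG.IsNCA (Jc w e) α) ∧
    (∃ F : ℤ[X][X], Irreducible F ∧ 0 < F.natDegree ∧
      (∀ A, AJG.IsAPoly (KG w e) A → F ∣ A) ∧ (∀ A, AJG.IsAPoly (KG w' e) A → ¬ F ∣ A)) ∧
    (¬ AJ w e ∨ ¬ AJ w' e)

end AJM
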