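import Pool.Agent.Work.MP_d3fa71_gt.Mut.Bd.B18
import Pool.Agent.Work.MP_d3fa71_gt.Mut.Bd.B17
import Pool.Agent.Work.MP_d3fa71_gt.Mut.Bd.B08
import Pool.Agent.Work.MP_d3fa71_gt.Bd.B05
import Pool.Agent.Work.MP_d3fa71_gt.Mut.Bd.B06
import Pool.Agent.Work.MP_d3fa71_gt.Mut.Bd.B07
import Pool.Agent.Work.MP_d3fa71_gt.I_NCAEx

/-!
# MP_d3fa71_gt, project Mut: the final theorem
-/

namespace AJM

theorem FwInv_holds : FwInv :=
  prf_FwInv prf_PathAppend prf_PathShift prf_PathDet all_TwsPath all_WindPath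

theorem KNeg_holds : KNeg := KNeg_of FwInv_holds

theorem EigFES_holds : EigFES := prf_EigFES (prf_KGHom prf_WEval prf_WLift)

theorem EStoP_holds : EStoP :=
  prf_EStoP (prf_WtoT prf_XofW prf_XtoC prf_CEven prf_XtoT) (prf_TtoP prf_PathScale) prf_PathScale

theorem NCTail_holds : NCTail := prf_NCTail prf_CMap prf_CZero

theorem PtoES_holds : PtoES :=
  prf_PtoES (prf_PtoW (prf_GenEx NCTail_holds prf_CMap prf_CZero) NCTail_holds prf_WScale
    prf_PathScale) prf_WScale prf_WMap (prf_NCKnot prf_CEven prf_CMap) prf_CZero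

theorem DimKG_holds : DimKG :=
  prf_DimKG EigFC_holds EigFES_holds EStoP_holds prf_GermPath prf_PathEmb prf_Iso

theorem KSide_holds : KSide := prf_KSide PtoES_holds EigFES_holds EigFC_holds

theorem KSide'_holds : KSide' := prf_KSide2 SpreadInf_holds EigFES_holds EStoP_holds

theorem Final_holds : Final :=
  prf_Final KNeg_holds KPos_holds QFinal_holds AJH.all_JKill AJG.NCAEx_proof AEx_holds prf_KGFG
    DimKG_holds KSide_holds KSide'_holds FIrr_holds FDivOf_holds FNDivOf_holds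

end AJM

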