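import Pool.Agent.Work.MP_d3fa71_gt.Mut.Main

/-!
# MP_d3fa71_gt, project Mut: item GermPath
-/

open Filter

namespace AJM

namespace GermPathX

/-! ### Inversion -/

section inv
variable {R : Type} [CommRing R] {M : Rˣ}

theorem cup_inv {s s' : List (G R)} {τ : Rˣ} {Θ : List (Rˣ × Rˣ)}
    (h : DStep M (.mv .cup, 0) s s' τ Θ) : ∃ x : G R, s' = x :: x * J :: s ∧ τ = 1 ∧ Θ = [] := by
  cases h with
  | cup x s => exact ⟨x, rfl, rfl, rfl⟩

theorem cap_inv {s s' : List (G R)} {τ : Rˣ} {Θ : List (Rˣ × Rˣ)}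
    (h : DStep M (.mv .cap, 0) s s' τ Θ) : ∃ x : G R, s = x :: x * J * dg τ :: s' ∧ Θ = [] := by
  cases h with
  | cap x τ s => exact ⟨x, rfl, rfl⟩

theorem pos_inv {s s' : List (G R)} {τ : Rˣ} {Θ : List (Rˣ × Rˣ)}
    (h : DStep M (.mv .pos, 0) s s' τ Θ) : ∃ (x y : G R) (s0 : List (G R)), s = x :: y :: s0 ∧
      s' = y :: (mer M y)⁻¹ * x :: s0 ∧ τ = 1 ∧ Θ = [] := by
  cases h with
  | pos x y s => exact ⟨x, y, s, rfl, rfl, rfl, rfl⟩

theorem neg_inv {s s' : List (G R)} {τ : Rˣ} {Θ : List (Rˣ × Rˣ)}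
    (h : DStep M (.mv .neg, 0) s s' τ Θ) : ∃ (x y : G R) (s0 : List (G R)), s = x :: y :: s0 ∧
      s' = mer M x * y :: x :: s0 ∧ τ = 1 ∧ Θ = [] := by
  cases h with
  | neg x y s => exact ⟨x, y, s, rfl, rfl, rfl, rfl⟩

theorem tw_inv {s s' : List (G R)} {τ : Rˣ} {Θ : List (Rˣ × Rˣ)}
    (h : DStep M (.tw, 0) s s' τ Θ) : ∃ (E x y : G R) (s0 : List (G R)) (ε ω : Rˣ)
      (v u : Fin 2 → R), s = x :: y :: s0 ∧ s' = E * x :: E * y :: s0 ∧ τ = 1 ∧ Θ = [(ε, ω)] ∧
      E * (mer M x * mer M y) = mer M x * mer M y * E ∧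
      Matrix.mulVec E.1 v = (ε : R) • v ∧
      Matrix.mulVec (mer M x * mer M y).1 v = (ω : R) • v ∧
      u 0 * v 0 + u 1 * v 1 = 1 := by
  cases h with
  | tw E x y s ε ω v u hc hE hw hv =>
    exact ⟨E, x, y, s, ε, ω, v, u, rfl, rfl, rfl, rfl, hc, hE, hw, hv⟩

theorem sh_inv {k : DKd} {i : ℕ} {s s' : List (G R)} {τ : Rˣ} {Θ : List (Rˣ × Rˣ)}
    (h : DStep M (k, i + 1) s s' τ Θ) : ∃ (x : G R) (s0 s0' : List (G R)), s = x :: s0 ∧
      s' = x :: s0' ∧ DStep M (k, i) s0 s0' τ Θ := by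
  cases h with
  | sh x h => exact ⟨x, _, _, rfl, rfl, h⟩

theorem nil_inv {s s' : List (G R)} {τ : Rˣ} {Θ : List (Rˣ × Rˣ)}
    (h : DPath M [] s s' τ Θ) : s' = s ∧ τ = 1 ∧ Θ = [] := by
  cases h with
  | nil s => exact ⟨rfl, rfl, rfl⟩

theorem cons_inv {m : DMv} {w : List DMv} {s s' : List (G R)} {τ : Rˣ} {Θ : List (Rˣ × Rˣ)}
    (h : DPath M (m :: w) s s' τ Θ) : ∃ (s1 : List (G R)) (τ1 τ2 : Rˣ) (Θ1 Θ2 : List (Rˣ × Rˣ)),
      DStep M m s s1 τ1 Θ1 ∧ DPath M w s1 s' τ2 Θ2 ∧ τ = τ1 * τ2 ∧ Θ = Θ1 ++ Θ2 := by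
  cases h with
  | cons h1 h2 => exact ⟨_, _, _, _, _, h1, h2, rfl, rfl⟩

end inv

/-! ### Ring homomorphisms -/

section map
variable {R S : Type} [CommRing R] [CommRing S] (f : R →+* S)

/-- units. -/
def um : Rˣ →* Sˣ := Units.map f.toMonoidHom

/-- frames. -/
def fm : G R →* G S := Matrix.SpecialLinearGroup.map f

/-- pairs. -/
def pm (p : Rˣ × Rˣ) : Sˣ × Sˣ := (um f p.1, um f p.2)

theorem um_coe (x : Rˣ) : ((um f x : Sˣ) : S) = f (x : R) := rfl

theorem fm_coe (x : G R) (a b : Fin 2) : (fm f x).1 a b = f (x.1 a b) := rfl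

theorem fm_J : fm f (J : G R) = J := by
  ext a b
  change f ((J : G R).1 a b) = (J : G S).1 a b
  unfold J
  fin_cases a <;> fin_cases b <;> simp

theorem fm_dg (u : Rˣ) : fm f (dg u) = dg (um f u) := by
  ext a b
  change f ((dg u : G R).1 a b) = (dg (um f u) : G S).1 a b
  have h : f ((u⁻¹ : Rˣ) : R) = (((um f u)⁻¹ : Sˣ) : S) := by
    rw [← map_inv]
    rfl
  unfold dg
  fin_cases a <;> fin_cases b
  · rfl
  · simp
  · simp
  · exact h

theorem fm_mer (M : Rˣ) (h : G R) : fm f (mer M h) = mer (um f M) (fm f h) := by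
  unfold mer
  rw [map_mul, map_mul, map_inv, fm_dg]

theorem fm_mulVec (x : G R) (v : Fin 2 → R) :
    Matrix.mulVec (fm f x).1 (fun a => f (v a)) = fun a => f (Matrix.mulVec x.1 v a) := by
  funext a
  simp only [Matrix.mulVec, dotProduct, Fin.sum_univ_two, map_add, map_mul, fm_coe]

theorem step_map {M : Rˣ} {m : DMv} {s s' : List (G R)} {τ : Rˣ} {Θ : List (Rˣ × Rˣ)}
    (h : DStep M m s s' τ Θ) :
    DStep (um f M) m (s.map (fm f)) (s'.map (fm f)) (um f τ) (Θ.map (pm f)) := by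
  induction h with
  | cup x s =>
    simp only [List.map_cons, List.map_nil, map_mul, map_one, fm_J]
    exact DStep.cup _ _
  | cap x τ s =>
    simp only [List.map_cons, List.map_nil, map_mul, fm_J, fm_dg]
    exact DStep.cap _ _ _
  | pos x y s =>
    simp only [List.map_cons, List.map_nil, map_mul, map_one, map_inv, fm_mer]
    exact DStep.pos _ _ _
  | neg x y s =>
    simp only [List.map_cons, List.map_nil, map_mul, map_one, fm_mer]
    exact DStep.neg _ _ _
  | tw E x y s ε ω v u hc hE hw hv =>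
    simp only [List.map_cons, List.map_nil, map_mul, map_one]
    refine DStep.tw (fm f E) (fm f x) (fm f y) (s.map (fm f)) (um f ε) (um f ω)
      (fun a => f (v a)) (fun a => f (u a)) ?_ ?_ ?_ ?_
    · rw [← fm_mer, ← fm_mer, ← map_mul, ← map_mul, ← map_mul, hc]
    · rw [fm_mulVec, hE]
      funext a
      simp only [Pi.smul_apply, smul_eq_mul, map_mul, um_coe]
    · rw [← fm_mer, ← fm_mer, ← map_mul, fm_mulVec, hw]
      funext a
      simp only [Pi.smul_apply, smul_eq_mul, map_mul, um_coe]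
    · rw [← map_mul, ← map_mul, ← map_add, hv, map_one]
  | sh x h ih =>
    simp only [List.map_cons]
    exact DStep.sh _ ih

theorem path_map {M : Rˣ} {w : List DMv} {s s' : List (G R)} {τ : Rˣ} {Θ : List (Rˣ × Rˣ)}
    (h : DPath M w s s' τ Θ) :
    DPath (um f M) w (s.map (fm f)) (s'.map (fm f)) (um f τ) (Θ.map (pm f)) := by
  induction h with
  | nil s =>
    rw [map_one, List.map_nil]
    exact DPath.nil _
  | cons h1 h2 ih =>
    rw [map_mul, List.map_append]
    exact DPath.cons (step_map f h1) ih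

end map

/-! ### The product ring -/

section prod
variable {F : Type} [Field F]

/-- evaluation. -/
def ev (F : Type) [Field F] (i : ℕ) : (ℕ → F) →+* F := Pi.evalRingHom (fun _ => F) i

/-- a sequence of units as a unit. -/
def un (x : ℕ → Fˣ) : (ℕ → F)ˣ :=
  ⟨fun i => (x i : F), fun i => ((x i)⁻¹ : Fˣ), by ext i; simp, by ext i; simp⟩

theorem um_un (x : ℕ → Fˣ) (i : ℕ) : um (ev F i) (un x) = x i := by
  ext
  rfl

theorem unit_ext {x y : (ℕ → F)ˣ} (h : ∀ i, um (ev F i) x = um (ev F i) y) : x = y := by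
  ext i
  exact congrArg Units.val (h i)

theorem G_ext {x y : G (ℕ → F)} (h : ∀ i, fm (ev F i) x = fm (ev F i) y) : x = y := by
  apply Subtype.ext
  funext a b i
  have h1 := congrArg (fun z : G F => z.1 a b) (h i)
  exact h1

/-- the entries. -/
def en (x : G F) (a b : Fin 2) : F := x.1 a b

theorem en_det (x : G F) : en x 0 0 * en x 1 1 - en x 0 1 * en x 1 0 = 1 := by
  have h1 : Matrix.det x.1 = 1 := x.2
  rw [Matrix.det_fin_two] at h1
  exact h1

theorem gl_det (h : ℕ → G F) :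
    Matrix.det (Matrix.of fun a b : Fin 2 => fun i : ℕ => en (h i) a b) = 1 := by
  rw [Matrix.det_fin_two]
  funext i
  exact en_det (h i)

/-- a sequence of matrices as a matrix. -/
def gl (h : ℕ → G F) : G (ℕ → F) :=
  ⟨Matrix.of fun a b : Fin 2 => fun i : ℕ => en (h i) a b, gl_det h⟩

theorem fm_gl (h : ℕ → G F) (i : ℕ) : fm (ev F i) (gl h) = h i := by
  ext a b
  rfl

theorem map_cons_split {S : List (G (ℕ → F))} {x : ℕ → G F} {t : ℕ → List (G F)}
    (h : ∀ i, S.map (fm (ev F i)) = x i :: t i) :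
    ∃ (X : G (ℕ → F)) (S0 : List (G (ℕ → F))), S = X :: S0 ∧ (∀ i, fm (ev F i) X = x i) ∧
      ∀ i, S0.map (fm (ev F i)) = t i := by
  cases S with
  | nil =>
    have h0 := h 0
    rw [List.map_nil] at h0
    exact absurd h0 (by simp)
  | cons X S0 =>
    refine ⟨X, S0, rfl, fun i => ?_, fun i => ?_⟩
    · have := h i
      rw [List.map_cons] at this
      exact (List.cons.inj this).1
    · have := h i
      rw [List.map_cons] at this
      exact (List.cons.inj this).2

theorem fm_mer_ev (M : ℕ → Fˣ) (X : G (ℕ → F)) (i : ℕ) :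
    fm (ev F i) (mer (un M) X) = mer (M i) (fm (ev F i) X) := by
  rw [fm_mer, um_un]

/-- the product of moves. -/
theorem step_prod (M : ℕ → Fˣ) (k : DKd) (p : ℕ) : ∀ (S : List (G (ℕ → F)))
    (s' : ℕ → List (G F)) (τ : ℕ → Fˣ) (Θ : ℕ → List (Fˣ × Fˣ)),
    (∀ i, DStep (M i) (k, p) (S.map (fm (ev F i))) (s' i) (τ i) (Θ i)) →
    ∃ (S' : List (G (ℕ → F))) (T : (ℕ → F)ˣ) (Th : List ((ℕ → F)ˣ × (ℕ → F)ˣ)),
      (∀ i, s' i = S'.map (fm (ev F i))) ∧ (∀ i, τ i = um (ev F i) T) ∧
      (∀ i, Θ i = Th.map (pm (ev F i))) ∧ DStep (un M) (k, p) S S' T Th := by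
  induction p with
  | zero =>
    intro S s' τ Θ h
    cases k with
    | mv k =>
      cases k with
      | cup =>
        choose x h1 h2 h3 using fun i => cup_inv (h i)
        refine ⟨gl x :: gl x * J :: S, 1, [], fun i => ?_, fun i => ?_, fun i => ?_,
          DStep.cup _ _⟩
        · rw [h1, List.map_cons, List.map_cons, map_mul, fm_gl, fm_J]
        · rw [h2, map_one]
        · rw [h3, List.map_nil]
      | cap =>
        choose x h1 h2 using fun i => cap_inv (h i)
        obtain ⟨X, S1, rfl, hX, h3⟩ := map_cons_split h1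
        obtain ⟨Y, S2, rfl, hY, h4⟩ := map_cons_split h3
        have hYX : Y = X * J * dg (un τ) := by
          apply G_ext
          intro i
          rw [hY, map_mul, map_mul, fm_J, fm_dg, um_un, hX]
        refine ⟨S2, un τ, [], fun i => (h4 i).symm, fun i => (um_un τ i).symm, fun i => ?_, ?_⟩
        · rw [h2, List.map_nil]
        · rw [hYX]
          exact DStep.cap _ _ _
      | pos =>
        choose x y s0 h1 h2 h3 h4 using fun i => pos_inv (h i)
        obtain ⟨X, S1, rfl, hX, h5⟩ := map_cons_split h1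
        obtain ⟨Y, S2, rfl, hY, h6⟩ := map_cons_split h5
        refine ⟨Y :: (mer (un M) Y)⁻¹ * X :: S2, 1, [], fun i => ?_, fun i => ?_, fun i => ?_,
          DStep.pos _ _ _⟩
        · rw [h2, List.map_cons, List.map_cons, map_mul, map_inv, fm_mer_ev, hX, hY, h6]
        · rw [h3, map_one]
        · rw [h4, List.map_nil]
      | neg =>
        choose x y s0 h1 h2 h3 h4 using fun i => neg_inv (h i)
        obtain ⟨X, S1, rfl, hX, h5⟩ := map_cons_split h1
        obtain ⟨Y, S2, rfl, hY, h6⟩ := map_cons_split h5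
        refine ⟨mer (un M) X * Y :: X :: S2, 1, [], fun i => ?_, fun i => ?_, fun i => ?_,
          DStep.neg _ _ _⟩
        · rw [h2, List.map_cons, List.map_cons, map_mul, fm_mer_ev, hX, hY, h6]
        · rw [h3, map_one]
        · rw [h4, List.map_nil]
    | tw =>
      choose E x y s0 ε ω v u h1 h2 h3 h4 hc hE hw hv using fun i => tw_inv (h i)
      obtain ⟨X, S1, rfl, hX, h5⟩ := map_cons_split h1
      obtain ⟨Y, S2, rfl, hY, h6⟩ := map_cons_split h5
      refine ⟨gl E * X :: gl E * Y :: S2, 1, [(un ε, un ω)], fun i => ?_, fun i => ?_,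
        fun i => ?_, DStep.tw (gl E) X Y S2 (un ε) (un ω) (fun a => fun i => v i a)
          (fun a => fun i => u i a) ?_ ?_ ?_ ?_⟩
      · rw [h2, List.map_cons, List.map_cons, map_mul, map_mul, fm_gl, hX, hY, h6]
      · rw [h3, map_one]
      · rw [h4, List.map_cons, List.map_nil]
        unfold pm
        rw [um_un, um_un]
      · apply G_ext
        intro i
        rw [map_mul, map_mul, map_mul, map_mul, fm_gl, fm_mer_ev, fm_mer_ev, hX, hY]
        exact hc i
      · funext a i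
        have h7 := congrFun (hE i) a
        simp only [Matrix.mulVec, dotProduct, Fin.sum_univ_two, Pi.smul_apply,
          smul_eq_mul] at h7 ⊢
        exact h7
      · funext a i
        have h7 := congrFun (hw i) a
        rw [← hX i, ← hY i, ← fm_mer_ev, ← fm_mer_ev, ← map_mul] at h7
        simp only [Matrix.mulVec, dotProduct, Fin.sum_univ_two, Pi.smul_apply,
          smul_eq_mul] at h7 ⊢
        exact h7
      · funext i
        exact hv i
  | succ p ih =>
    intro S s' τ Θ h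
    choose x s0 s0' h1 h2 h3 using fun i => sh_inv (h i)
    obtain ⟨X, S1, rfl, hX, h4⟩ := map_cons_split h1
    have h5 : ∀ i, DStep (M i) (k, p) (S1.map (fm (ev F i))) (s0' i) (τ i) (Θ i) := by
      intro i
      rw [h4]
      exact h3 i
    obtain ⟨S', T, Th, h6, h7, h8, h9⟩ := ih S1 s0' τ Θ h5
    refine ⟨X :: S', T, Th, fun i => ?_, h7, h8, DStep.sh X h9⟩
    rw [h2, List.map_cons, hX, h6]

theorem path_prod (M : ℕ → Fˣ) (w : List DMv) : ∀ (S : List (G (ℕ → F)))
    (s' : ℕ → List (G F)) (τ : ℕ → Fˣ) (Θ : ℕ → List (Fˣ × Fˣ)),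
    (∀ i, DPath (M i) w (S.map (fm (ev F i))) (s' i) (τ i) (Θ i)) →
    ∃ (S' : List (G (ℕ → F))) (T : (ℕ → F)ˣ) (Th : List ((ℕ → F)ˣ × (ℕ → F)ˣ)),
      (∀ i, s' i = S'.map (fm (ev F i))) ∧ (∀ i, τ i = um (ev F i) T) ∧
      (∀ i, Θ i = Th.map (pm (ev F i))) ∧ DPath (un M) w S S' T Th := by
  induction w with
  | nil =>
    intro S s' τ Θ h
    refine ⟨S, 1, [], fun i => (nil_inv (h i)).1, fun i => ?_, fun i => ?_, DPath.nil _⟩
    · rw [(nil_inv (h i)).2.1, map_one]
    · rw [(nil_inv (h i)).2.2, List.map_nil]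
  | cons m w ih =>
    intro S s' τ Θ h
    obtain ⟨k, p⟩ := m
    choose s1 τ1 τ2 Θ1 Θ2 h1 h2 h3 h4 using fun i => cons_inv (h i)
    obtain ⟨S1, T1, Th1, h5, h6, h7, h8⟩ := step_prod M k p S s1 τ1 Θ1 h1
    have h9 : ∀ i, DPath (M i) w (S1.map (fm (ev F i))) (s' i) (τ2 i) (Θ2 i) := by
      intro i
      rw [← h5]
      exact h2 i
    obtain ⟨S2, T2, Th2, h10, h11, h12, h13⟩ := ih S1 s' τ2 Θ2 h9
    refine ⟨S2, T1 * T2, Th1 ++ Th2, h10, fun i => ?_, fun i => ?_, DPath.cons h8 h13⟩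
    · rw [h3, map_mul, h6, h11]
    · rw [h4, List.map_append, h7, h12]

end prod

end GermPathX

open GermPathX in
theorem prf_GermPath : GermPath := by
  intro F _ w M τ n Θ h
  have h0 : ∀ i, DPath (M i) w (([] : List (G (ℕ → F))).map (fm (ev F i))) ((fun _ => []) i)
      (τ i) ((fun i => List.ofFn fun j => Θ j i) i) := by
    intro i
    exact h i
  obtain ⟨S', T, Th, h1, h2, h3, h4⟩ := path_prod M w [] (fun _ => []) τ
    (fun i => List.ofFn fun j => Θ j i) h0
  have hS : S' = [] := by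
    have := h1 0
    cases S' with
    | nil => rfl
    | cons a l =>
      rw [List.map_cons] at this
      exact absurd this (by simp)
  have hT : T = un τ := by
    apply unit_ext
    intro i
    rw [← h2, um_un]
  have hlen : Th.length = n := by
    have h5 := congrArg List.length (h3 0)
    rw [List.length_map, List.length_ofFn] at h5
    exact h5.symm
  have hTh : Th = List.ofFn (fun j : Fin n => ((un fun i => (Θ j i).1 : (ℕ → F)ˣ),
      (un fun i => (Θ j i).2 : (ℕ → F)ˣ))) := by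
    apply List.ext_getElem
    · rw [List.length_ofFn, hlen]
    · intro j hj1 hj2
      rw [List.getElem_ofFn]
      have hjn : j < n := by rw [← hlen]; exact hj1
      have key : ∀ i, Θ ⟨j, hjn⟩ i = pm (ev F i) Th[j] := by
        intro i
        have h6 : (List.ofFn fun j => Θ j i)[j]'(by rw [List.length_ofFn]; exact hjn) =
            (Th.map (pm (ev F i)))[j]'(by rw [List.length_map]; exact hj1) := by
          have h7 : (List.ofFn fun j => Θ j i) = Th.map (pm (ev F i)) := h3 i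
          simp only [h7]
        rw [List.getElem_ofFn, List.getElem_map] at h6
        exact h6
      apply Prod.ext
      · apply unit_ext
        intro i
        rw [um_un, key i]
        rfl
      · apply unit_ext
        intro i
        rw [um_un, key i]
        rfl
  rw [hS, hT, hTh] at h4
  have h5 := path_map (gm F) h4
  rw [List.map_nil, List.map_ofFn] at h5
  exact h5

end AJM
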