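import Pool.Agent.Work.MP_d3fa71_gt.Mut.Main

/-!
# MP_d3fa71_gt, project Mut: item Iso (isotropy)
-/

namespace AJM

namespace IsoX

/-! ### Central extensions by 2-cocycles -/

/-- normalised 2-cocycles. -/
structure Coc (Γ A : Type) [Group Γ] [AddCommGroup A] where
  c : Γ → Γ → A
  coc : ∀ x y z, c x y + c (x * y) z = c y z + c x (y * z)
  l : ∀ x, c 1 x = 0
  r : ∀ x, c x 1 = 0

/-- the central extension. -/
@[ext]
structure Ext {Γ A : Type} [Group Γ] [AddCommGroup A] (C : Coc Γ A) where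
  g : Γ
  a : A

section ext
variable {Γ A : Type} [Group Γ] [AddCommGroup A] (C : Coc Γ A)

instance : Mul (Ext C) := ⟨fun x y => ⟨x.g * y.g, x.a + y.a + C.c x.g y.g⟩⟩
instance : One (Ext C) := ⟨⟨1, 0⟩⟩
instance : Inv (Ext C) := ⟨fun x => ⟨x.g⁻¹, -x.a - C.c x.g⁻¹ x.g⟩⟩

variable {C}

theorem mul_g (x y : Ext C) : (x * y).g = x.g * y.g := rfl
theorem mul_a (x y : Ext C) : (x * y).a = x.a + y.a + C.c x.g y.g := rfl
theorem one_g : (1 : Ext C).g = 1 := rfl
theorem one_a : (1 : Ext C).a = 0 := rfl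
theorem inv_g (x : Ext C) : (x⁻¹).g = x.g⁻¹ := rfl
theorem inv_a (x : Ext C) : (x⁻¹).a = -x.a - C.c x.g⁻¹ x.g := rfl

instance : Group (Ext C) := Group.ofLeftAxioms
  (fun x y z => by
    apply Ext.ext
    · rw [mul_g, mul_g, mul_g, mul_g, mul_assoc]
    · rw [mul_a, mul_a, mul_a, mul_a, mul_g, mul_g]
      have h := C.coc x.g y.g z.g
      calc x.a + y.a + C.c x.g y.g + z.a + C.c (x.g * y.g) z.g
          = x.a + y.a + z.a + (C.c x.g y.g + C.c (x.g * y.g) z.g) := by abel
        _ = x.a + y.a + z.a + (C.c y.g z.g + C.c x.g (y.g * z.g)) := by rw [h]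
        _ = x.a + (y.a + z.a + C.c y.g z.g) + C.c x.g (y.g * z.g) := by abel)
  (fun x => by
    apply Ext.ext
    · rw [mul_g, one_g, one_mul]
    · rw [mul_a, one_a, one_g, C.l, zero_add, add_zero])
  (fun x => by
    apply Ext.ext
    · rw [mul_g, inv_g, one_g, inv_mul_cancel]
    · rw [mul_a, inv_a, inv_g, one_a]
      abel)

variable (C) in
/-- the standard lift. -/
def li (x : Γ) : Ext C := ⟨x, 0⟩

variable (C) in
/-- central elements. -/
def ze (a : A) : Ext C := ⟨1, a⟩

theorem ze_comm (a : A) (x : Ext C) : ze C a * x = x * ze C a := by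
  apply Ext.ext
  · show 1 * x.g = x.g * 1
    rw [one_mul, mul_one]
  · show a + x.a + C.c 1 x.g = x.a + a + C.c x.g 1
    rw [C.l, C.r, add_comm a]

theorem ze_add (a b : A) : ze C (a + b) = ze C a * ze C b := by
  apply Ext.ext
  · show (1 : Γ) = 1 * 1
    rw [one_mul]
  · show a + b = a + b + C.c 1 1
    rw [C.l, add_zero]

theorem ze_zero : ze C 0 = 1 := rfl

theorem ze_inj {a : A} (h : ze C a = 1) : a = 0 := congrArg Ext.a h

/-- two lifts differ by a central element. -/
theorem lift_eq (x : Ext C) : x = li C x.g * ze C x.a := by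
  apply Ext.ext
  · show x.g = x.g * 1
    rw [mul_one]
  · show x.a = 0 + x.a + C.c x.g 1
    rw [C.r, zero_add, add_zero]

/-- conjugation. -/
def cj (h : Γ) (t : Ext C) : Ext C := li C h * t * (li C h)⁻¹

theorem cj_lift (x t : Ext C) : x * t * x⁻¹ = cj x.g t := by
  unfold cj
  conv_lhs => rw [lift_eq x]
  rw [mul_inv_rev, mul_assoc (li C x.g), ze_comm, ← mul_assoc (li C x.g), mul_assoc _ (ze C x.a),
    ← mul_assoc (ze C x.a), mul_inv_cancel, one_mul]

theorem cj_mul (h k : Γ) (t : Ext C) : cj (h * k) t = cj h (cj k t) := by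
  have h1 : (li C h * li C k).g = h * k := rfl
  rw [← h1, ← cj_lift]
  unfold cj
  rw [mul_inv_rev]
  simp only [mul_assoc]

theorem cj_mul' (h : Γ) (s t : Ext C) : cj h (s * t) = cj h s * cj h t := by
  unfold cj
  group

theorem cj_inv' (h : Γ) (t : Ext C) : cj h t⁻¹ = (cj h t)⁻¹ := by
  unfold cj
  group

theorem cj_ze (h : Γ) (a : A) : cj h (ze C a) = ze C a := by
  unfold cj
  rw [← ze_comm, mul_assoc, mul_inv_cancel, mul_one]

theorem cj_g (h : Γ) (t : Ext C) : (cj h t).g = h * t.g * h⁻¹ := rfl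

/-- the commutator of commuting elements. -/
theorem comm_lift (x y : Ext C) (h : x.g * y.g = y.g * x.g) :
    x * y = ze C (C.c x.g y.g - C.c y.g x.g) * (y * x) := by
  apply Ext.ext
  · show x.g * y.g = 1 * (y.g * x.g)
    rw [one_mul, h]
  · show x.a + y.a + C.c x.g y.g = C.c x.g y.g - C.c y.g x.g + (y.a + x.a + C.c y.g x.g) +
      C.c 1 (y.g * x.g)
    rw [C.l]
    abel

theorem cj_comm (e : Γ) (y : Ext C) (h : e * y.g = y.g * e) :
    cj e y = ze C (C.c e y.g - C.c y.g e) * y := by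
  have h1 := comm_lift (li C e) y h
  have h2 : cj e y = li C e * y * (li C e)⁻¹ := rfl
  rw [h2, h1, mul_assoc, mul_assoc, mul_inv_cancel, mul_one]
  rfl

/-- invariance of the commutator under conjugation. -/
theorem comm_conj (p e y : Γ) (h : e * y = y * e) :
    C.c (p * e * p⁻¹) (p * y * p⁻¹) - C.c (p * y * p⁻¹) (p * e * p⁻¹) =
      C.c e y - C.c y e := by
  have h1 := cj_comm (C := C) e (li C y) h
  have h2 : (cj p (li C y)).g = p * y * p⁻¹ := rfl
  have h3 : p * e * p⁻¹ * (cj p (li C y)).g = (cj p (li C y)).g * (p * e * p⁻¹) := by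
    rw [h2]
    calc p * e * p⁻¹ * (p * y * p⁻¹) = p * (e * y) * p⁻¹ := by group
      _ = p * (y * e) * p⁻¹ := by rw [h]
      _ = p * y * p⁻¹ * (p * e * p⁻¹) := by group
  have h4 := cj_comm (C := C) (p * e * p⁻¹) (cj p (li C y)) h3
  rw [h2] at h4
  have h5 : cj (p * e * p⁻¹) (cj p (li C y)) = cj p (cj e (li C y)) := by
    rw [← cj_mul, ← cj_mul]
    congr 1
    group
  rw [h5, h1, cj_mul', cj_ze] at h4
  have h6 := mul_right_cancel h4
  have h7 := congrArg Ext.a h6
  exact h7.symm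

end ext

/-! ### The cocycle -/

section cocycle
variable {k L : Type} [Field k] [Field L] [Algebra k L]

abbrev Mt2 (L : Type) : Type := Matrix (Fin 2) (Fin 2) L

/-- entrywise derivative. -/
def dm (D : Derivation k L L) (A : Mt2 L) : Mt2 L := Matrix.of fun i j => D (A i j)

theorem dm_apply (D : Derivation k L L) (A : Mt2 L) (i j : Fin 2) : dm D A i j = D (A i j) := rfl

theorem dm_mul (D : Derivation k L L) (A B : Mt2 L) : dm D (A * B) = dm D A * B + A * dm D B := by
  ext i j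
  simp only [dm_apply, Matrix.add_apply, Matrix.mul_apply, Fin.sum_univ_two, map_add,
    Derivation.leibniz, smul_eq_mul]
  ring

theorem dm_one (D : Derivation k L L) : dm D (1 : Mt2 L) = 0 := by
  ext i j
  rw [dm_apply, Matrix.one_apply]
  split_ifs
  · rw [Derivation.map_one_eq_zero]
    rfl
  · rw [map_zero]
    rfl

/-- the matrix. -/
def mx (X : G L) : Mt2 L := X.1

theorem mx_mul (X Y : G L) : mx (X * Y) = mx X * mx Y := rfl
theorem mx_one : mx (1 : G L) = 1 := rfl
theorem mx_inv_mul (X : G L) : mx X⁻¹ * mx X = 1 := by rw [← mx_mul, inv_mul_cancel, mx_one]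
theorem mx_mul_inv (X : G L) : mx X * mx X⁻¹ = 1 := by rw [← mx_mul, mul_inv_cancel, mx_one]

/-- left logarithmic derivative. -/
def lam (D : Derivation k L L) (X : G L) : Mt2 L := mx X⁻¹ * dm D (mx X)

/-- right logarithmic derivative. -/
def rho (D : Derivation k L L) (X : G L) : Mt2 L := dm D (mx X) * mx X⁻¹

theorem lam_mul (D : Derivation k L L) (X Y : G L) :
    lam D (X * Y) = mx Y⁻¹ * lam D X * mx Y + lam D Y := by
  unfold lam
  rw [mul_inv_rev, mx_mul, mx_mul, dm_mul, mul_add]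
  congr 1
  · simp only [mul_assoc]
  · rw [mul_assoc, ← mul_assoc (mx X⁻¹), mx_inv_mul, one_mul]

theorem rho_mul (D : Derivation k L L) (X Y : G L) :
    rho D (X * Y) = rho D X + mx X * rho D Y * mx X⁻¹ := by
  unfold rho
  rw [mul_inv_rev, mx_mul, mx_mul, dm_mul, add_mul]
  congr 1
  · rw [mul_assoc, ← mul_assoc (mx Y), mx_mul_inv, one_mul]
  · simp only [mul_assoc]

theorem lam_one (D : Derivation k L L) : lam D (1 : G L) = 0 := by
  unfold lam
  rw [mx_one, dm_one, mul_zero]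

theorem rho_one (D : Derivation k L L) : rho D (1 : G L) = 0 := by
  unfold rho
  rw [mx_one, dm_one, zero_mul]

/-- one half of the cocycle. -/
def hc (D D' : Derivation k L L) (X Y : G L) : L := Matrix.trace (lam D X * rho D' Y)

theorem hc_coc (D D' : Derivation k L L) (X Y Z : G L) :
    hc D D' X Y + hc D D' (X * Y) Z = hc D D' Y Z + hc D D' X (Y * Z) := by
  unfold hc
  rw [lam_mul, rho_mul, add_mul, mul_add, Matrix.trace_add, Matrix.trace_add]
  have h : Matrix.trace (mx Y⁻¹ * lam D X * mx Y * rho D' Z) =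
      Matrix.trace (lam D X * (mx Y * rho D' Z * mx Y⁻¹)) := by
    rw [mul_assoc, mul_assoc, Matrix.trace_mul_comm]
    simp only [mul_assoc]
  rw [h]
  ring

/-- the cocycle. -/
def C2 (D D' : Derivation k L L) : Coc (G L) L where
  c X Y := hc D D' X Y - hc D' D X Y
  coc X Y Z := by
    have h1 := hc_coc D D' X Y Z
    have h2 := hc_coc D' D X Y Z
    linear_combination h1 - h2
  l X := by
    unfold hc
    rw [lam_one, lam_one, zero_mul, zero_mul, sub_self]
  r X := by
    unfold hc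
    rw [rho_one, rho_one, mul_zero, mul_zero, sub_self]

theorem mx_inv (X : G L) : mx X⁻¹ = !![mx X 1 1, -mx X 0 1; -mx X 1 0, mx X 0 0] := by
  unfold mx
  rw [Matrix.SpecialLinearGroup.coe_inv, Matrix.adjugate_fin_two]

theorem mx_det (X : G L) : mx X 0 0 * mx X 1 1 - mx X 0 1 * mx X 1 0 = 1 := by
  have h := X.2
  rw [Matrix.det_fin_two] at h
  exact h

theorem tri_ne {X : G L} (hX : mx X 1 0 = 0) : mx X 0 0 ≠ 0 ∧ mx X 1 1 = (mx X 0 0)⁻¹ := by
  have dX := mx_det X
  rw [hX, mul_zero, sub_zero] at dX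
  exact ⟨fun h => by rw [h, zero_mul] at dX; exact zero_ne_one dX, eq_inv_of_mul_eq_one_right dX⟩

theorem tri_D (D : Derivation k L L) {X : G L} (hX : mx X 1 0 = 0) :
    mx X 0 0 * D (mx X 1 1) = -(mx X 1 1 * D (mx X 0 0)) := by
  have dX := mx_det X
  rw [hX, mul_zero, sub_zero] at dX
  have h := congrArg D dX
  rw [Derivation.leibniz, Derivation.map_one_eq_zero, smul_eq_mul, smul_eq_mul] at h
  linear_combination h

/-- the cocycle on upper triangular matrices. -/
theorem hc_tri (D D' : Derivation k L L) (X Y : G L) (hX : mx X 1 0 = 0) (hY : mx Y 1 0 = 0) :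
    hc D D' X Y = 2 * (D (mx X 0 0) / mx X 0 0 * (D' (mx Y 0 0) / mx Y 0 0)) := by
  have h1 : hc D D' X Y = mx X 1 1 * D (mx X 0 0) * (mx Y 1 1 * D' (mx Y 0 0)) +
      mx X 0 0 * D (mx X 1 1) * (mx Y 0 0 * D' (mx Y 1 1)) := by
    unfold hc lam rho
    rw [mx_inv, mx_inv, Matrix.trace_fin_two, hX, hY]
    simp only [Matrix.mul_apply, Fin.sum_univ_two, dm_apply, hX, hY, map_zero, Matrix.of_apply,
      Matrix.cons_val', Matrix.cons_val_zero, Matrix.cons_val_one, Matrix.cons_val_fin_one,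
      Matrix.empty_val']
    ring
  rw [h1, tri_D D hX, tri_D D' hY, (tri_ne hX).2, (tri_ne hY).2]
  ring

theorem c_tri (D D' : Derivation k L L) (X Y : G L) (hX : mx X 1 0 = 0) (hY : mx Y 1 0 = 0) :
    (C2 D D').c X Y = 2 * dl D D' (mx X 0 0) (mx Y 0 0) := by
  show hc D D' X Y - hc D' D X Y = _
  rw [hc_tri D D' X Y hX hY, hc_tri D' D X Y hX hY]
  unfold dl
  ring

theorem dl_swap (D D' : Derivation k L L) (a b : L) : dl D D' b a = -dl D D' a b := by
  unfold dl
  ring

theorem dl_one (D D' : Derivation k L L) (b : L) : dl D D' 1 b = 0 := by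
  unfold dl
  rw [Derivation.map_one_eq_zero, Derivation.map_one_eq_zero]
  ring

theorem dl_mul (D D' : Derivation k L L) {a a' : L} (ha : a ≠ 0) (ha' : a' ≠ 0) (b : L) :
    dl D D' (a * a') b = dl D D' a b + dl D D' a' b := by
  unfold dl
  rw [Derivation.leibniz, Derivation.leibniz, smul_eq_mul, smul_eq_mul, smul_eq_mul, smul_eq_mul]
  field_simp
  ring

/-- the commutator with a joint eigenvector. -/
theorem comm_eig (D D' : Derivation k L L) (E w : G L) (ε ω : L) (v u : Fin 2 → L)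
    (h : E * w = w * E) (hE : Matrix.mulVec E.1 v = ε • v) (hw : Matrix.mulVec w.1 v = ω • v)
    (hv : u 0 * v 0 + u 1 * v 1 = 1) :
    (C2 D D').c E w - (C2 D D').c w E = 4 * dl D D' ε ω := by
  have hdet : Matrix.det !![v 0, -u 1; v 1, u 0] = 1 := by
    rw [Matrix.det_fin_two_of]
    linear_combination hv
  set P : G L := ⟨!![v 0, -u 1; v 1, u 0], hdet⟩ with hP
  have hPm : mx P = !![v 0, -u 1; v 1, u 0] := rfl
  have key : ∀ (X : G L) (x : L), Matrix.mulVec X.1 v = x • v →
      mx (P⁻¹ * X * P) 1 0 = 0 ∧ mx (P⁻¹ * X * P) 0 0 = x := by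
    intro X x hX
    have e0 : mx X 0 0 * v 0 + mx X 0 1 * v 1 = x * v 0 := by
      have := congrFun hX 0
      simpa [Matrix.mulVec, dotProduct, Fin.sum_univ_two, mx] using this
    have e1 : mx X 1 0 * v 0 + mx X 1 1 * v 1 = x * v 1 := by
      have := congrFun hX 1
      simpa [Matrix.mulVec, dotProduct, Fin.sum_univ_two, mx] using this
    rw [mx_mul, mx_mul, mx_inv, hPm]
    simp only [Matrix.mul_apply, Fin.sum_univ_two, Matrix.of_apply,
      Matrix.cons_val', Matrix.cons_val_zero, Matrix.cons_val_one, Matrix.cons_val_fin_one,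
      Matrix.empty_val']
    constructor
    · linear_combination (-v 1) * e0 + v 0 * e1
    · linear_combination u 0 * e0 + u 1 * e1 + x * hv
  obtain ⟨k1, k2⟩ := key E ε hE
  obtain ⟨k3, k4⟩ := key w ω hw
  have h1 := comm_conj (C := C2 D D') P⁻¹ E w h
  rw [inv_inv, c_tri D D' _ _ k1 k3, c_tri D D' _ _ k3 k1, k2, k4] at h1
  rw [← h1, dl_swap D D' ε ω]
  ring

theorem mx_dg (u : Lˣ) : mx (dg u) = !![(u : L), 0; 0, ((u⁻¹ : Lˣ) : L)] := rfl
theorem mx_J : mx (J : G L) = !![0, -1; 1, 0] := rfl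

theorem dg_tri (u : Lˣ) : mx (dg u) 1 0 = 0 ∧ mx (dg u) 0 0 = (u : L) := ⟨rfl, rfl⟩

theorem dm_J (D : Derivation k L L) : dm D (mx (J : G L)) = 0 := by
  ext i j
  rw [dm_apply, mx_J]
  fin_cases i <;> fin_cases j <;> simp

theorem rho_J (D : Derivation k L L) : rho D (J : G L) = 0 := by
  unfold rho
  rw [dm_J, zero_mul]

theorem lam_J (D : Derivation k L L) : lam D (J : G L) = 0 := by
  unfold lam
  rw [dm_J, mul_zero]

theorem c_J_left (D D' : Derivation k L L) (X : G L) : (C2 D D').c J X = 0 := by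
  show hc D D' J X - hc D' D J X = 0
  unfold hc
  rw [lam_J, lam_J, zero_mul, zero_mul, sub_self]

theorem J_dg (u : Lˣ) : (J : G L) * dg u = (dg u)⁻¹ * J := by
  apply Subtype.ext
  show mx ((J : G L) * dg u) = mx ((dg u)⁻¹ * J)
  rw [mx_mul, mx_mul, mx_inv, mx_dg, mx_J]
  ext i j
  fin_cases i <;> fin_cases j <;> simp [Matrix.mul_apply, Fin.sum_univ_two]

/-- conjugation of the diagonal element by `J`. -/
theorem cj_J (D D' : Derivation k L L) (u : Lˣ) :
    cj (C := C2 D D') J (li _ (dg u)) = (li _ (dg u))⁻¹ := by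
  unfold cj
  rw [mul_inv_eq_iff_eq_mul]
  apply Ext.ext
  · exact J_dg u
  · show 0 + 0 + (C2 D D').c J (dg u) = -0 - (C2 D D').c (dg u)⁻¹ (dg u) + 0 +
      (C2 D D').c (dg u)⁻¹ J
    have h1 : (C2 D D').c (dg u)⁻¹ J = 0 := by
      show hc D D' _ J - hc D' D _ J = 0
      unfold hc
      rw [rho_J, rho_J, mul_zero, mul_zero, sub_self]
    have h2 : mx (dg u)⁻¹ 1 0 = 0 := by
      rw [mx_inv, mx_dg]
      simp
    have h3 : (C2 D D').c (dg u)⁻¹ (dg u) = 0 := by
      rw [c_tri D D' _ _ h2 (dg_tri u).1, (dg_tri u).2]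
      have h4 : mx (dg u)⁻¹ 0 0 = ((u : L))⁻¹ := by
        rw [mx_inv, mx_dg]
        simp
      rw [h4]
      have hu : (u : L) ≠ 0 := u.ne_zero
      have h5 := dl_mul D D' hu (inv_ne_zero hu) (u : L)
      rw [mul_inv_cancel₀ hu, dl_one] at h5
      have h6 : dl D D' (u : L) (u : L) = 0 := by unfold dl; ring
      rw [h6, zero_add] at h5
      rw [← h5, mul_zero]
    rw [c_J_left, h1, h3]
    ring

/-- the lift of the meridian. -/
def xh (D D' : Derivation k L L) (M : Lˣ) (h : G L) : Ext (C2 D D') := cj h (li _ (dg M))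

variable (D D' : Derivation k L L) (M : Lˣ)

theorem xh_g (h : G L) : (xh D D' M h).g = mer M h := rfl

theorem xh_mul (y h : G L) : xh D D' M (y * h) = cj y (xh D D' M h) := cj_mul y h _

theorem xh_lift (Y : Ext (C2 D D')) (h : G L) :
    xh D D' M (Y.g * h) = Y * xh D D' M h * Y⁻¹ := by
  rw [xh_mul, cj_lift]

theorem xh_J (h : G L) : xh D D' M (h * J) = (xh D D' M h)⁻¹ := by
  rw [xh_mul]
  show cj h (xh D D' M J) = _
  have : xh D D' M J = (li _ (dg M))⁻¹ := cj_J D D' M
  rw [this, cj_inv']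
  rfl

theorem xh_dg (t : Lˣ) : xh D D' M (dg t) = ze _ (4 * dl D D' (t : L) (M : L)) *
    li _ (dg M) := by
  have hc1 : dg t * dg M = dg M * dg t := by
    apply Subtype.ext
    show mx (dg t * dg M) = mx (dg M * dg t)
    rw [mx_mul, mx_mul, mx_dg, mx_dg]
    ext i j
    fin_cases i <;> fin_cases j <;> simp [Matrix.mul_apply, Fin.sum_univ_two, mul_comm]
  have h1 := cj_comm (C := C2 D D') (dg t) (li _ (dg M)) hc1
  have h2 : (C2 D D').c (dg t) (dg M) - (C2 D D').c (dg M) (dg t) =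
      4 * dl D D' (t : L) (M : L) := by
    rw [c_tri D D' _ _ (dg_tri t).1 (dg_tri M).1, c_tri D D' _ _ (dg_tri M).1 (dg_tri t).1,
      (dg_tri t).2, (dg_tri M).2, dl_swap D D' (t : L) (M : L)]
    ring
  have h3 : (li (C2 D D') (dg M)).g = dg M := rfl
  rw [h3, h2] at h1
  exact h1

theorem xh_cap (h : G L) (t : Lˣ) : xh D D' M h * xh D D' M (h * J * dg t) =
    ze _ (4 * dl D D' (t : L) (M : L)) := by
  have h1 : xh D D' M (h * J * dg t) =
      ze _ (4 * dl D D' (t : L) (M : L)) * (xh D D' M h)⁻¹ := by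
    rw [xh_mul, xh_dg, cj_mul', cj_ze]
    congr 1
    exact xh_J D D' M h
  rw [h1, ← mul_assoc, ← ze_comm, mul_assoc, mul_inv_cancel, mul_one]

/-- the product over a state. -/
def Q (s : List (G L)) : Ext (C2 D D') := (s.map (xh D D' M)).prod

theorem Q_cons (h : G L) (s : List (G L)) : Q D D' M (h :: s) = xh D D' M h * Q D D' M s := by
  unfold Q
  rw [List.map_cons, List.prod_cons]

/-- the total central value. -/
noncomputable def sm (Θ : List (Lˣ × Lˣ)) : L := (Θ.map (fun p => dl D D' (p.1 : L) (p.2 : L))).sum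

theorem sm_nil : sm D D' ([] : List (Lˣ × Lˣ)) = 0 := rfl

theorem step {m : DMv} {s s' : List (G L)} {τ : Lˣ} {Θ : List (Lˣ × Lˣ)}
    (h : DStep M m s s' τ Θ) : Q D D' M s' =
      ze _ (4 * sm D D' Θ - 4 * dl D D' (τ : L) (M : L)) * Q D D' M s := by
  have one : dl D D' ((1 : Lˣ) : L) (M : L) = 0 := by
    rw [Units.val_one, dl_one]
  induction h with
  | cup x s =>
    rw [one, sm_nil, mul_zero, sub_self, ze_zero, one_mul, Q_cons, Q_cons, xh_J,
      mul_inv_cancel_left]
  | cap x τ s =>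
    rw [sm_nil, mul_zero, zero_sub, Q_cons, Q_cons, ← mul_assoc (xh D D' M x), xh_cap,
      ← mul_assoc, ← ze_add, neg_add_cancel, ze_zero, one_mul]
  | pos x y s =>
    rw [one, sm_nil, mul_zero, sub_self, ze_zero, one_mul, Q_cons, Q_cons, Q_cons, Q_cons]
    have h1 : xh D D' M ((mer M y)⁻¹ * x) =
        (xh D D' M y)⁻¹ * xh D D' M x * xh D D' M y := by
      have := xh_lift D D' M (xh D D' M y)⁻¹ x
      rw [inv_inv] at this
      exact this
    rw [h1]
    group
  | neg x y s =>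
    rw [one, sm_nil, mul_zero, sub_self, ze_zero, one_mul, Q_cons, Q_cons, Q_cons, Q_cons]
    have h1 : xh D D' M (mer M x * y) =
        xh D D' M x * xh D D' M y * (xh D D' M x)⁻¹ := xh_lift D D' M (xh D D' M x) y
    rw [h1]
    group
  | tw E x y s ε ω v u hc hE hw hv =>
    have hs : sm D D' [(ε, ω)] = dl D D' (ε : L) (ω : L) := by
      unfold sm
      simp
    rw [one, mul_zero, sub_zero, hs, Q_cons, Q_cons, Q_cons, Q_cons, xh_mul, xh_mul,
      ← mul_assoc (cj E _), ← cj_mul', ← mul_assoc (xh D D' M x)]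
    have hg : (xh D D' M x * xh D D' M y).g = mer M x * mer M y := rfl
    have h1 := cj_comm (C := C2 D D') E (xh D D' M x * xh D D' M y) (by rw [hg]; exact hc)
    rw [hg, comm_eig D D' E (mer M x * mer M y) (ε : L) (ω : L) v u hc hE hw hv] at h1
    rw [h1, mul_assoc]
  | sh x h ih =>
    rw [Q_cons, Q_cons, ih, ← mul_assoc, ← ze_comm, mul_assoc]

theorem path {w : List DMv} {s s' : List (G L)} {τ : Lˣ} {Θ : List (Lˣ × Lˣ)}
    (h : DPath M w s s' τ Θ) : Q D D' M s' =
      ze _ (4 * sm D D' Θ - 4 * dl D D' (τ : L) (M : L)) * Q D D' M s := by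
  induction h with
  | nil s =>
    rw [sm_nil, Units.val_one, dl_one, mul_zero, sub_self, ze_zero, one_mul]
  | @cons m w s s' s'' τ τ' Θ Θ' h1 h2 ih =>
    rw [ih, step D D' M h1, ← mul_assoc, ← ze_add]
    congr 2
    have h3 : sm D D' (Θ ++ Θ') = sm D D' Θ + sm D D' Θ' := by
      unfold sm
      rw [List.map_append, List.sum_append]
    rw [h3, Units.val_mul, dl_mul D D' τ.ne_zero τ'.ne_zero]
    ring

end cocycle

end IsoX

open IsoX in
theorem prf_Iso : Iso := by
  intro k L _ _ _ _ D D' M w τ Θ h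
  have h1 := path D D' M h
  have h2 : Q D D' M [] = 1 := rfl
  rw [h2, mul_one] at h1
  have h3 := ze_inj h1.symm
  have h4 : (4 : L) * (sm D D' Θ - dl D D' (τ : L) (M : L)) = 0 := by linear_combination h3
  rcases mul_eq_zero.1 h4 with h5 | h5
  · exact absurd h5 (by norm_num)
  · exact sub_eq_zero.1 h5

end AJM
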