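import Mathlib

/-!
# MP_d3fa71_gt, project Mut: words, frames, paths (see Mut/PROOF.md)
-/

namespace AJM

/-- The kinds of moves. -/
inductive Kd | cup | cap | pos | neg
  deriving DecidableEq

/-- A move: its kind and its position (`0` is the top strand). -/
abbrev Mv : Type := Kd × ℕ

/-- The kinds of moves of drilled words: ordinary moves and conjugations `tw` of two strands. -/
inductive DKd | mv (k : Kd) | tw
  deriving DecidableEq

abbrev DMv : Type := DKd × ℕ

abbrev G (R : Type) [CommRing R] : Type := Matrix.SpecialLinearGroup (Fin 2) R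

section
variable {R : Type} [CommRing R]

/-- `diag (u, u⁻¹)`. -/
def dg (u : Rˣ) : G R := ⟨!![(u : R), 0; 0, ((u⁻¹ : Rˣ) : R)], by simp [Matrix.det_fin_two_of]⟩

/-- The matrix `(0 -1; 1 0)`. -/
def J : G R := ⟨!![0, -1; 1, 0], by simp [Matrix.det_fin_two_of]⟩

/-- The trace. -/
def tr (x : G R) : R := x.1 0 0 + x.1 1 1

/-- The meridian with frame `h`. -/
def mer (M : Rˣ) (h : G R) : G R := h * dg M * h⁻¹

/-- One move. -/
inductive Step (M : Rˣ) : Mv → List (G R) → List (G R) → Rˣ → Prop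
  | cup (h : G R) (s : List (G R)) : Step M (.cup, 0) s (h :: h * J :: s) 1
  | cap (h : G R) (τ : Rˣ) (s : List (G R)) : Step M (.cap, 0) (h :: h * J * dg τ :: s) s τ
  | pos (h k : G R) (s : List (G R)) :
      Step M (.pos, 0) (h :: k :: s) (k :: (mer M k)⁻¹ * h :: s) 1
  | neg (h k : G R) (s : List (G R)) :
      Step M (.neg, 0) (h :: k :: s) (mer M h * k :: h :: s) 1
  | sh (x : G R) {k : Kd} {i : ℕ} {s s' : List (G R)} {τ : Rˣ} :
      Step M (k, i) s s' τ → Step M (k, i + 1) (x :: s) (x :: s') τ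

/-- A path; the last argument is the total defect. -/
inductive Path (M : Rˣ) : List Mv → List (G R) → List (G R) → Rˣ → Prop
  | nil (s : List (G R)) : Path M [] s s 1
  | cons {m : Mv} {w : List Mv} {s s' s'' : List (G R)} {τ τ' : Rˣ} :
      Step M m s s' τ → Path M w s' s'' τ' → Path M (m :: w) s s'' (τ * τ')

/-- One move of a drilled word; the last argument records the pair of eigenvalues
`(ε, ω)` of `E` and of the product `mer h * mer k` on a joint (unimodular) eigenvector `v`. -/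
inductive DStep (M : Rˣ) : DMv → List (G R) → List (G R) → Rˣ → List (Rˣ × Rˣ) → Prop
  | cup (h : G R) (s : List (G R)) : DStep M (.mv .cup, 0) s (h :: h * J :: s) 1 []
  | cap (h : G R) (τ : Rˣ) (s : List (G R)) :
      DStep M (.mv .cap, 0) (h :: h * J * dg τ :: s) s τ []
  | pos (h k : G R) (s : List (G R)) :
      DStep M (.mv .pos, 0) (h :: k :: s) (k :: (mer M k)⁻¹ * h :: s) 1 []
  | neg (h k : G R) (s : List (G R)) :
      DStep M (.mv .neg, 0) (h :: k :: s) (mer M h * k :: h :: s) 1 []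
  | tw (E h k : G R) (s : List (G R)) (ε ω : Rˣ) (v u : Fin 2 → R)
      (hc : E * (mer M h * mer M k) = mer M h * mer M k * E)
      (hE : Matrix.mulVec E.1 v = (ε : R) • v)
      (hw : Matrix.mulVec (mer M h * mer M k).1 v = (ω : R) • v)
      (hv : u 0 * v 0 + u 1 * v 1 = 1) :
      DStep M (.tw, 0) (h :: k :: s) (E * h :: E * k :: s) 1 [(ε, ω)]
  | sh (x : G R) {k : DKd} {i : ℕ} {s s' : List (G R)} {τ : Rˣ} {Θ : List (Rˣ × Rˣ)} :
      DStep M (k, i) s s' τ Θ → DStep M (k, i + 1) (x :: s) (x :: s') τ Θ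

/-- A path of a drilled word. -/
inductive DPath (M : Rˣ) : List DMv → List (G R) → List (G R) → Rˣ → List (Rˣ × Rˣ) → Prop
  | nil (s : List (G R)) : DPath M [] s s 1 []
  | cons {m : DMv} {w : List DMv} {s s' s'' : List (G R)} {τ τ' : Rˣ} {Θ Θ' : List (Rˣ × Rˣ)} :
      DStep M m s s' τ Θ → DPath M w s' s'' τ' Θ' → DPath M (m :: w) s s'' (τ * τ') (Θ ++ Θ')

end

/-! ## Words -/

/-- Shift of a word by `k` positions. -/
def sh (k : ℕ) (w : List Mv) : List Mv := w.map (fun m => (m.1, m.2 + k))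

/-- Rotation of a word acting on two strands. -/
def rot (w : List Mv) : List Mv := (.cup, 2) :: sh 1 w ++ [(.cap, 0)]

/-- `σ ^ n` on the two top strands, `n : ℤ`. -/
def tws (n : ℤ) : List Mv :=
  if 0 ≤ n then List.replicate n.toNat (.pos, 0) else List.replicate (-n).toNat (.neg, 0)

/-- The column with `2 r` half twists. -/
def Col (r : ℤ) : List Mv := rot (tws (2 * r))

/-- The gadget `V`. -/
def Vg (j' j n : ℕ) : List Mv :=
  rot (rot (tws (2 * j' + 1)) ++ tws (2 * n) ++ rot (tws (2 * j + 1)))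

/-- Reversal of the kind of a move. -/
def Kd.rev : Kd → Kd
  | .cup => .cap
  | .cap => .cup
  | .pos => .neg
  | .neg => .pos

/-- The reversed word. -/
def Rev (w : List Mv) : List Mv := (w.map (fun m => (m.1.rev, m.2))).reverse

/-- Closure of a word acting on two strands. -/
def Ncl (w : List Mv) : List Mv := [(.cup, 0), (.cup, 1)] ++ w ++ [(.cap, 1), (.cap, 0)]

/-- One winding of the top strand around the next two. -/
def Wind : List Mv := [(.neg, 0), (.neg, 1), (.neg, 1), (.neg, 0)]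

/-- `n` copies of a word. -/
def rep (n : ℕ) (w : List Mv) : List Mv := (List.replicate n w).flatten

/-- The block `B₀` (with gadgets `v₁ v₂ v₃`, empty for the link). -/
def Bw (v₁ v₂ v₃ : List Mv) : List Mv :=
  rot (rot (v₁ ++ tws 6) ++ rot (v₂ ++ tws 4) ++ rot (v₃ ++ tws (-8)) ++ Col (-4)) ++ tws (-6)

/-- The columns `P`, `P†`, `G`, `G†` with gadgets. -/
def Pw (v : List Mv) : List Mv := rot (v ++ tws 4)
def Pr (v : List Mv) : List Mv := (.cup, 0) :: sh 1 (tws (-4) ++ v) ++ [(.cap, 2)]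
def Gw (v : List Mv) : List Mv := rot (v ++ tws 2)
def Gr : List Mv := (.cup, 0) :: sh 1 (tws (-2)) ++ [(.cap, 2)]

/-- The coil with gadget `v`. -/
def Fw (k : ℕ) (v : List Mv) : List Mv :=
  (.cup, 0) :: sh 1 (v ++ rep (2 * k) Wind) ++ [(.cap, 0)] ++ tws (-2 * k)

/-- The two words. -/
def Kw (k : ℕ) (v : Fin 7 → List Mv) : List Mv :=
  Ncl (Bw (v 0) (v 1) (v 2) ++ Pw (v 3) ++ Pr (v 4) ++ Gw (v 5) ++ Gr ++ Fw k (v 6))

def Kw' (k : ℕ) (v : Fin 7 → List Mv) : List Mv :=
  Ncl (Bw (v 0) (v 1) (v 2) ++ Pw (v 3) ++ Gw (v 5) ++ Pr (v 4) ++ Gr ++ Fw k (v 6))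

/-- Embedding of words into drilled words. -/
def emb (w : List Mv) : List DMv := w.map (fun m => (.mv m.1, m.2))

/-! ## Solutions over a field containing `ℂ` -/

/-- The word `w` has a closed path with defect `± M ^ N` for some transcendental `M`. -/
def SS (F : Type) [Field F] [Algebra ℂ F] (w : List Mv) (N : ℤ) : Prop :=
  ∃ M : Fˣ, Transcendental ℂ (M : F) ∧ ∃ τ : Fˣ, (τ = M ^ N ∨ τ = -M ^ N) ∧ Path M w [] [] τ

end AJM
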