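import Pool.Agent.Work.MP_d3fa71_gt.StmtsA

/-!
# MP_d3fa71_gt, project Mut, block H: q-holonomicity of state sums (definitions)

Existence of a nonzero annihilator of the coloured Jones function of a word
(Garoufalidis-Le). Captain: helper60.

Functions `f : ℤ ^ d → ℚ(t)`. `Tame f`: all shifts of `f` by vectors of a box of size `B` are
multiples of one function by Laurent polynomials in `t ^ {x_i}` of degree `O(B)`.
`HS`: iterated sums (with finite fibres) of tame functions.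
-/

open Polynomial

namespace AJH

/-- The field `ℚ(t)`, `q = t ^ 4`. -/
abbrev K : Type := RatFunc ℚ

/-- The variable `t`. -/
noncomputable abbrev t : K := AJG.t

/-- The function `x ↦ t ^ (u · x)`. -/
noncomputable def mono {d : ℕ} (u : Fin d → ℤ) (x : Fin d → ℤ) : K := t ^ (∑ i, u i * x i)

/-- Laurent polynomial functions of degree at most `N` in each variable `t ^ {x_i}`. -/
noncomputable def LP (d N : ℕ) : Submodule K ((Fin d → ℤ) → K) :=
  Submodule.span K {f | ∃ u : Fin d → ℤ, (∀ i, |u i| ≤ N) ∧ f = mono u}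

/-- Tame functions. -/
def Tame {d : ℕ} (f : (Fin d → ℤ) → K) : Prop :=
  ∃ C : ℕ, ∀ B : ℕ, ∃ Φ : (Fin d → ℤ) → K, ∀ s : Fin d → ℤ, (∀ i, 0 ≤ s i ∧ s i ≤ B) →
    ∃ p ∈ LP d (C * (B + 1)), ∀ x, f (x + s) = p x * Φ x

/-- Iterated sums with finite fibres of tame functions. -/
inductive HS : (d : ℕ) → ((Fin d → ℤ) → K) → Prop
  | tame {d : ℕ} {f : (Fin d → ℤ) → K} : Tame f → HS d f
  | sum {d : ℕ} {g : (Fin (d + 1) → ℤ) → K} : HS (d + 1) g →
      (∀ x : Fin d → ℤ, {k : ℤ | g (Fin.cons k x) ≠ 0}.Finite) →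
      HS d (fun x => ∑ᶠ k : ℤ, g (Fin.cons k x))

/-- Affine maps `ℤ ^ d' → ℤ ^ d`. -/
def aff {d d' : ℕ} (A : Fin d → Fin d' → ℤ) (b : Fin d → ℤ) (x : Fin d' → ℤ) : Fin d → ℤ :=
  fun i => ∑ j, A i j * x j + b i

/-- `1 / (q; q)_x`, zero for `x < 0`. -/
noncomputable def pq (x : ℤ) : K :=
  if 0 ≤ x then (∏ i ∈ Finset.range x.toNat, (1 - t ^ (4 * ((i : ℤ) + 1))))⁻¹ else 0

/-- The product of `1 - q ^ (x - l)` over `0 ≤ l < k`, zero for `k < 0`. -/
noncomputable def pr (x k : ℤ) : K :=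
  if 0 ≤ k then ∏ l ∈ Finset.range k.toNat, (1 - t ^ (4 * (x - (l : ℤ)))) else 0

/-- Evaluation of coefficients at an integer `n`: `q ↦ t ^ 4`, `Q ↦ t ^ (4 n)`. -/
noncomputable def evz (n : ℤ) : AJG.R2 →+* K :=
  LaurentPolynomial.eval₂ AJG.evq
    (Units.mk0 (t ^ (4 * n)) (zpow_ne_zero (4 * n) RatFunc.X_ne_zero))

/-- The action of an operator free of the multiplications by `q ^ {y_i}`: polynomial in the
shifts `K_i` of `y_i` with coefficients in the operators `∑ α_j(q, Q) E ^ j` in `n`. -/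
noncomputable def act {r : ℕ} (P : MvPolynomial (Fin r) (Polynomial AJG.R2))
    (f : ℤ → (Fin r → ℤ) → K) (n : ℤ) (y : Fin r → ℤ) : K :=
  ∑ m ∈ P.support, ∑ j ∈ (MvPolynomial.coeff m P).support,
    evz n ((MvPolynomial.coeff m P).coeff j) * f (n + j) (fun i => y i + (m i : ℤ))

end AJH
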