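import Pool.Agent.Work.MP_d3fa71_gt.Mut.Bd.B16

/-!
# MP_d3fa71_gt, project Mut: item BevEv
-/

set_option autoImplicit false

open Polynomial

namespace AJM

theorem L_BevEv_X {R : Type} [CommRing R] (m l : R) : bev m l (X : ℤ[X][X]) = l := by
  unfold bev
  rw [coe_eval₂RingHom, eval₂_X]

theorem L_BevEv_CX {R : Type} [CommRing R] (m l : R) : bev m l (C X : ℤ[X][X]) = m := by
  unfold bev
  rw [coe_eval₂RingHom, eval₂_C, coe_eval₂RingHom, eval₂_X]

theorem L_BevEv_ext {R : Type} [CommRing R] (f g : ℤ[X][X] →+* R) (h1 : f X = g X)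
    (h2 : f (C X) = g (C X)) : f = g := by
  refine Polynomial.ringHom_ext' ?_ h1
  refine Polynomial.ringHom_ext' (Subsingleton.elim _ _) ?_
  exact h2

theorem L_BevEv_one (P : ℤ[X][X]) (m l : ℂ) :
    (P.map (Polynomial.mapRingHom (Int.castRingHom ℂ))).evalEval m l = bev m l P := by
  have h : (Polynomial.evalEvalRingHom m l).comp
      (Polynomial.mapRingHom (Polynomial.mapRingHom (Int.castRingHom ℂ))) = bev m l := by
    refine L_BevEv_ext _ _ ?_ ?_
    · rw [L_BevEv_X]
      simp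
    · rw [L_BevEv_CX]
      simp
  exact DFunLike.congr_fun h P

theorem prf_BevEv : BevEv := by
  refine ⟨L_BevEv_one, fun A p => ?_, fun R S _ _ f P m l => ?_⟩
  · unfold AJG.ZeroSet
    rw [Set.mem_ofPred_eq, L_BevEv_one]
  · have h : f.comp (bev m l) = bev (f m) (f l) := by
      refine L_BevEv_ext _ _ ?_ ?_
      · rw [RingHom.comp_apply, L_BevEv_X, L_BevEv_X]
      · rw [RingHom.comp_apply, L_BevEv_CX, L_BevEv_CX]
    exact DFunLike.congr_fun h P

end AJM
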