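import Pool.Agent.Work.MP_d3fa71_gt.Mut.Bd.B16

/-!
# MP_d3fa71_gt, project Mut, block X: two plane curves without a common component
-/

open Polynomial

namespace AJM

theorem L_Bez_bev (m l : ℂ) (P : ℤ[X][X]) :
    bev m l (Polynomial.Bivariate.swap (R := ℤ) P) = bev l m P := by
  have h : (bev m l).comp (Polynomial.Bivariate.swap (R := ℤ) : ℤ[X][X] ≃ₐ[ℤ] ℤ[X][X]).toRingHom
      = bev l m := by
    refine Polynomial.ringHom_ext' (Polynomial.ringHom_ext' (RingHom.ext_int _ _) ?_) ?_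
    · simp [bev, Polynomial.Bivariate.swap_X]
    · simp [bev, Polynomial.Bivariate.swap_Y]
  exact congrArg (fun f : ℤ[X][X] →+* ℂ => f P) h

theorem L_Bez_C (m l : ℂ) (a : ℤ[X]) : bev m l (C a) = (a.map (Int.castRingHom ℂ)).eval m := by
  simp [bev, Polynomial.eval_map]

theorem L_Bez_fin (a : ℤ[X]) (ha : a ≠ 0) :
    {m : ℂ | (a.map (Int.castRingHom ℂ)).eval m = 0}.Finite := by
  have h : a.map (Int.castRingHom ℂ) ≠ 0 :=
    (Polynomial.map_ne_zero_iff (RingHom.injective_int _)).2 ha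
  exact Polynomial.finite_setOfPred_isRoot h

theorem prf_Bez (hElim : Elim) : Bez := by
  intro F P hF hP
  obtain ⟨a, U, V, ha, h1⟩ := hElim ℤ F P hF hP
  set σ : ℤ[X][X] ≃ₐ[ℤ] ℤ[X][X] := Polynomial.Bivariate.swap (R := ℤ)
  obtain ⟨b, U', V', hb, h2⟩ := hElim ℤ (σ F) (σ P)
    ((MulEquiv.irreducible_iff (σ : ℤ[X][X] ≃* ℤ[X][X])).2 hF)
    (fun h => hP ((map_dvd_iff σ).1 h))
  refine ((L_Bez_fin a ha).prod (L_Bez_fin b hb)).subset ?_
  rintro ⟨m, l⟩ ⟨hm, hl⟩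
  simp only at hm hl
  refine ⟨?_, ?_⟩
  · show (a.map (Int.castRingHom ℂ)).eval m = 0
    rw [← L_Bez_C m l a, h1, map_add, map_mul, map_mul, hm, hl]
    simp
  · show (b.map (Int.castRingHom ℂ)).eval l = 0
    rw [← L_Bez_C l m b, h2, map_add, map_mul, map_mul, L_Bez_bev, L_Bez_bev, hm, hl]
    simp

end AJM
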