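import Pool.Agent.Work.MP_d3fa71_gt.Mut.Bd.B05

/-!
# MP_d3fa71_gt, project Mut, block B, item ColInv: columns
-/

set_option autoImplicit false

namespace AJM

theorem prf_ColInv (hRotInv : RotInv) (hTwsEven : TwsEven) (hWidTwo : WidTwo) : ColInv := by
  intro R _ M r ha hb ha' hb' τ
  have h1 := hRotInv R M (tws (2 * r)) ha hb ha' hb' τ (hWidTwo.1 (2 * r))
  unfold Col
  rw [h1]
  constructor
  · rintro ⟨k, τ', τ'', hp, hk, hτ⟩
    rw [hTwsEven] at hp
    obtain ⟨ht, hl⟩ := hp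
    rw [List.cons.injEq, List.cons.injEq] at hl
    obtain ⟨e1, e2, _⟩ := hl
    have hm : (mer M hb')⁻¹ = mer M k := by
      rw [hk, mer_J, inv_inv]
    have hk' : hb' * J⁻¹ = k := by
      rw [hk, mul_inv_cancel_right]
    rw [hm, hk', hτ, ht, one_mul]
    exact ⟨e1.symm, e2⟩
  · rintro ⟨e1, e2⟩
    have hm : mer M (hb' * J⁻¹) = (mer M hb')⁻¹ := by
      have := mer_J M (hb' * J⁻¹)
      rw [inv_mul_cancel_right] at this
      rw [this, inv_inv]
    refine ⟨hb' * J⁻¹, 1, τ, ?_, by rw [inv_mul_cancel_right], by rw [one_mul]⟩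
    rw [hTwsEven, hm]
    refine ⟨rfl, ?_⟩
    rw [e1, ← e2]

end AJM
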