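import Pool.Agent.Work.MP_d3fa71_gt.Mut.Bd.B05

/-!
# MP_d3fa71_gt, project Mut: columns on meridians
-/

namespace AJM

theorem L_ColMer_Jinv {R : Type} [CommRing R] (M : Rˣ) (h : G R) :
    mer M (h * (J : G R)⁻¹) = (mer M h)⁻¹ := by
  have h1 := mer_J M (h * (J : G R)⁻¹)
  rw [inv_mul_cancel_right] at h1
  rw [h1, inv_inv]

theorem L_ColMer_grp {A : Type} [Group A] (r : ℤ) (a a' b b' : A)
    (h1 : (b * b'⁻¹) ^ (-r) * b * ((b * b'⁻¹) ^ (-r))⁻¹ = a⁻¹)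
    (h2 : (b * b'⁻¹) ^ (-r) * b'⁻¹ * ((b * b'⁻¹) ^ (-r))⁻¹ = a') :
    b = (a⁻¹ * a') ^ r * a⁻¹ * (a⁻¹ * a') ^ (-r) ∧
      b' = (a⁻¹ * a') ^ r * a'⁻¹ * (a⁻¹ * a') ^ (-r) := by
  have hg : a⁻¹ * a' = b * b'⁻¹ := by
    rw [← h1, ← h2]
    generalize hgg : b * b'⁻¹ = g
    have hb : b = g * b' := by rw [← hgg]; group
    rw [hb]
    group
  constructor
  · rw [hg, ← h1]
    generalize b * b'⁻¹ = g
    group
  · rw [hg, ← h2]
    generalize b * b'⁻¹ = g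
    group

theorem prf_ColMer (hColInv : ColInv) : ColMer := by
  intro R _ M r ha hb ha' hb' τ hP
  obtain ⟨e1, e2⟩ := (hColInv R M r ha hb ha' hb' τ).1 hP
  apply L_ColMer_grp
  · have := congrArg (mer M) e1
    rw [mer_Jdg, ← dg_zpow, mer_dg, mer_mul] at this
    exact this
  · have := congrArg (mer M) e2
    rw [← dg_zpow, mer_dg, mer_mul, L_ColMer_Jinv] at this
    exact this.symm

end AJM
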