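import Pool.Agent.Work.MP_d3fa71_gt.Mut.Bd.B16

/-!
# MP_d3fa71_gt, project Mut, block X: generic points are dense
-/

set_option autoImplicit false

open Polynomial

namespace AJM

lemma L_DensGen_factor {A : Type} [CommRing A] [IsDomain A] [UniqueFactorizationMonoid A]
    (φ : A →+* ℂ) (a : A) (ha : a ≠ 0) (h : φ a = 0) : ∃ P : A, Irreducible P ∧ P ∣ a ∧ φ P = 0 := by
  have h1 := UniqueFactorizationMonoid.factors_prod ha
  have h2 : φ (UniqueFactorizationMonoid.factors a).prod = 0 := by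
    have h3 := h1.symm.dvd
    have h4 : φ a ∣ φ (UniqueFactorizationMonoid.factors a).prod := map_dvd φ h3
    rw [h] at h4
    exact zero_dvd_iff.mp h4
  rw [map_multiset_prod, Multiset.prod_eq_zero_iff, Multiset.mem_map] at h2
  obtain ⟨P, hP, hP0⟩ := h2
  exact ⟨P, UniqueFactorizationMonoid.irreducible_of_factor P hP,
    UniqueFactorizationMonoid.dvd_of_mem_factors hP, hP0⟩

lemma L_DensGen_countable (R : Type) [CommRing R] [Countable R] : Countable R[X] := by
  rw [← Cardinal.mk_le_aleph0_iff]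
  refine le_trans Polynomial.cardinalMk_le_max ?_
  exact max_le (Cardinal.mk_le_aleph0_iff.mpr inferInstance) le_rfl

theorem prf_DensGen (hBez : Bez) (hBezC : BezC) (hUncount : Uncount) (hBevEv : BevEv) :
    DensGen := by
  intro F H hF hH p hp1 hp2 hpF
  obtain ⟨hev, _, _⟩ := hBevEv
  obtain ⟨FC, hFC⟩ : ∃ FC, FC = F.map (Polynomial.mapRingHom (Int.castRingHom ℂ)) := ⟨_, rfl⟩
  have hFCev : ∀ m l : ℂ, FC.evalEval m l = bev m l F := by
    intro m l
    rw [hFC]
    exact hev F m l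
  have hFC0 : FC ≠ 0 := by
    rw [hFC]
    intro h
    apply hF.ne_zero
    have hinj : Function.Injective (Polynomial.mapRingHom (Int.castRingHom ℂ)) := by
      rw [Polynomial.coe_mapRingHom]
      exact Polynomial.map_injective _ Int.cast_injective
    exact (Polynomial.map_eq_zero_iff hinj).mp h
  obtain ⟨P, hP, hPF, hP0⟩ := L_DensGen_factor (Polynomial.evalEvalRingHom p.1 p.2) FC hFC0
    (by rw [Polynomial.coe_evalEvalRingHom, hFCev]; exact hpF)
  rw [Polynomial.coe_evalEvalRingHom] at hP0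
  have hdvd : ∀ (Q G : ℂ[X][X]) (m l : ℂ), Q ∣ G → Q.evalEval m l = 0 → G.evalEval m l = 0 := by
    intro Q G m l hQG hQ
    have h1 : (Polynomial.evalEvalRingHom m l) Q ∣ (Polynomial.evalEvalRingHom m l) G :=
      map_dvd _ hQG
    rw [Polynomial.coe_evalEvalRingHom, hQ] at h1
    exact zero_dvd_iff.mp h1
  by_cases hPH : P ∣ H
  · exact hdvd P H _ _ hPH hP0
  exfalso
  have c1 := hBezC P H hP hPH
  have hPm : ¬ P ∣ C X := by
    intro h
    have h1 := hdvd P (C X) _ _ h hP0
    rw [Polynomial.evalEval_C, Polynomial.eval_X] at h1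
    exact hp1 h1
  have hPl : ¬ P ∣ X := by
    intro h
    have h1 := hdvd P X _ _ h hP0
    rw [Polynomial.evalEval_X] at h1
    exact hp2 h1
  have c2 := hBezC P (C X) hP hPm
  have c3 := hBezC P X hP hPl
  have c4 : (⋃ Q ∈ {Q : ℤ[X][X] | ¬ F ∣ Q},
      {q : ℂ × ℂ | bev q.1 q.2 F = 0 ∧ bev q.1 q.2 Q = 0}).Countable := by
    have i1 : Countable ℤ[X] := L_DensGen_countable ℤ
    have i2 : Countable ℤ[X][X] := L_DensGen_countable ℤ[X]
    apply Set.Countable.biUnion (Set.to_countable _)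
    intro Q hQ
    exact (hBez F Q hF hQ).countable
  apply hUncount P hP
  apply ((c1.countable.union c2.countable).union (c3.countable.union c4)).mono
  intro q hq
  have hq0 : P.evalEval q.1 q.2 = 0 := hq
  by_cases h1 : q.1 = 0
  · left; right
    exact ⟨hq0, by rw [Polynomial.evalEval_C, Polynomial.eval_X]; exact h1⟩
  by_cases h2 : q.2 = 0
  · right; left
    exact ⟨hq0, by rw [Polynomial.evalEval_X]; exact h2⟩
  have hqF : bev q.1 q.2 F = 0 := by
    rw [← hFCev]
    exact hdvd P FC _ _ hPF hq0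
  by_cases h3 : ∀ P' : ℤ[X][X], bev q.1 q.2 P' = 0 ↔ F ∣ P'
  · left; left
    refine ⟨hq0, ?_⟩
    exact hH (Units.mk0 q.1 h1) (Units.mk0 q.2 h2) h3
  · right; right
    rw [not_forall] at h3
    obtain ⟨Q, hQ⟩ := h3
    have h4 : F ∣ Q → bev q.1 q.2 Q = 0 := by
      intro h
      have h5 : bev q.1 q.2 F ∣ bev q.1 q.2 Q := map_dvd _ h
      rw [hqF] at h5
      exact zero_dvd_iff.mp h5
    have h6 : ¬ F ∣ Q := fun h => hQ ⟨fun _ => h, h4⟩
    have h7 : bev q.1 q.2 Q = 0 := by
      by_contra h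
      exact hQ ⟨fun h' => absurd h' h, h4⟩
    simp only [Set.mem_iUnion]
    exact ⟨Q, h6, hqF, h7⟩

end AJM
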