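import Pool.Agent.Work.MP_d3fa71_gt.Mut.Bd.B16

/-!
# ESDim: the pairs of a knot word lie on a curve
-/

open Polynomial Filter

namespace AJM

theorem L_ESDim_cnt (R : Type) [CommRing R] [Countable R] : Countable R[X] := by
  rw [← Cardinal.mk_le_aleph0_iff]
  exact (Polynomial.cardinalMk_le_max).trans (max_le (Cardinal.mk_le_aleph0_iff.2 inferInstance) le_rfl)

theorem L_ESDim_alg : Algebra.IsAlgebraic ℤ ℚ := by
  exact IsLocalization.isAlgebraic (S := ℚ) (nonZeroDivisors ℤ)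

/-- the two kinds of polynomials in two variables -/
noncomputable def L_ESDim_e : MvPolynomial (Fin 2) ℤ ≃ₐ[ℤ] ℤ[X][X] :=
  (MvPolynomial.finSuccEquiv ℤ 1).trans
    (Polynomial.mapAlgEquiv (MvPolynomial.uniqueAlgEquiv ℤ (Fin 1)))

theorem L_ESDim_e0 : L_ESDim_e (MvPolynomial.X 0) = X := by
  unfold L_ESDim_e
  rw [AlgEquiv.trans_apply, MvPolynomial.finSuccEquiv_X_zero]
  simp

theorem L_ESDim_e1 : L_ESDim_e (MvPolynomial.X 1) = C X := by
  unfold L_ESDim_e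
  rw [AlgEquiv.trans_apply, show (1 : Fin 2) = Fin.succ 0 from rfl,
    MvPolynomial.finSuccEquiv_X_succ]
  simp

theorem L_ESDim_bev {R : Type} [CommRing R] (m l : R) (p : MvPolynomial (Fin 2) ℤ) :
    bev m l (L_ESDim_e p) = MvPolynomial.aeval ![l, m] p := by
  have h : (bev m l).comp (L_ESDim_e : MvPolynomial (Fin 2) ℤ →+* ℤ[X][X]) =
      ((MvPolynomial.aeval ![l, m] : MvPolynomial (Fin 2) ℤ →ₐ[ℤ] R) :
        MvPolynomial (Fin 2) ℤ →+* R) := by
    apply MvPolynomial.ringHom_ext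
    · intro r
      simp
    · intro i
      fin_cases i
      · have : bev m l (L_ESDim_e (MvPolynomial.X 0)) = l := by
          rw [L_ESDim_e0]
          simp [bev]
        simpa using this
      · have : bev m l (L_ESDim_e (MvPolynomial.X 1)) = m := by
          rw [L_ESDim_e1]
          simp [bev]
        simpa using this
  exact congrArg (fun f => f p) h

/-- algebraic independence from the nonvanishing of all polynomials -/
theorem L_ESDim_ind {K : Type} [Field K] [CharZero K] [Algebra ℚ K] (m l : K)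
    (h : ∀ P : ℤ[X][X], P ≠ 0 → bev m l P ≠ 0) : AlgebraicIndependent ℚ ![l, m] := by
  have h1 : AlgebraicIndependent ℤ ![l, m] := by
    rw [algebraicIndependent_iff]
    intro p hp
    by_contra hne
    have h2 : L_ESDim_e p ≠ 0 := by
      intro h0
      exact hne (L_ESDim_e.injective (by rw [h0, map_zero]))
    exact h _ h2 (by rw [L_ESDim_bev]; exact hp)
  have := L_ESDim_alg
  exact h1.extendScalars ℚ

/-- evaluation in the germs -/
theorem L_ESDim_germ (hB : BevEv) (m l : ℕ → ℂˣ) (P : ℤ[X][X]) :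
    bev ((gu m : (Gm ℂ)ˣ) : Gm ℂ) ((gu l : (Gm ℂ)ˣ) : Gm ℂ) P =
      gm ℂ (fun i => bev (m i : ℂ) (l i : ℂ) P) := by
  have h1 := hB.2.2 _ _ (gm ℂ) P (fun i => (m i : ℂ)) (fun i => (l i : ℂ))
  have h2 : bev (fun i => (m i : ℂ)) (fun i => (l i : ℂ)) P =
      fun i => bev (m i : ℂ) (l i : ℂ) P := by
    funext i
    exact hB.2.2 _ _ (Pi.evalRingHom (fun _ : ℕ => ℂ) i) P (fun i => (m i : ℂ))
      (fun i => (l i : ℂ))
  rw [h2] at h1
  exact h1.symm

theorem L_ESDim_ne {f : ℕ → ℂ} {N : ℕ} (h : ∀ i, N ≤ i → f i ≠ 0) : gm ℂ f ≠ 0 := by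
  intro h0
  have h1 : ((f : ℕ → ℂ) : Gm ℂ) = ((fun _ => (0 : ℂ) : ℕ → ℂ) : Gm ℂ) := h0
  rw [Germ.coe_eq] at h1
  have h2 : ∀ᶠ i in (hyperfilter ℕ : Filter ℕ), N ≤ i := by
    refine Filter.hyperfilter_le_cofinite ?_
    rw [Filter.mem_cofinite]
    refine (Set.finite_lt_nat N).subset ?_
    intro i hi
    simpa using hi
  obtain ⟨i, hi1, hi2⟩ := (h1.and h2).exists
  exact h i hi2 hi1

theorem L_ESDim_char : CharZero (Gm ℂ) :=
  charZero_of_injective_ringHom ((gm ℂ).comp (Pi.constRingHom ℕ ℂ)).injective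

theorem prf_ESDim (hESGerm : ESGerm) (hESDl : ESDl) (hDepJac : DepJac) (hBevEv : BevEv) :
    ESDim := by
  intro w e hk
  by_contra hcon
  push Not at hcon
  have hcnt : Countable ℤ[X][X] := by
    have := L_ESDim_cnt ℤ
    exact L_ESDim_cnt ℤ[X]
  have hne : Nonempty {P : ℤ[X][X] // P ≠ 0} := ⟨⟨1, one_ne_zero⟩⟩
  obtain ⟨P, hP⟩ := exists_surjective_nat {P : ℤ[X][X] // P ≠ 0}
  have hQ : ∀ i, (∏ j ∈ Finset.range (i + 1), (P j : ℤ[X][X])) ≠ 0 :=
    fun i => Finset.prod_ne_zero_iff.2 fun j _ => (P j).2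
  choose m l hE hm using fun i => hcon _ (hQ i)
  have hPne : ∀ j i, j ≤ i → bev (m i : ℂ) (l i : ℂ) (P j : ℤ[X][X]) ≠ 0 := by
    intro j i hji h0
    apply hm i
    rw [map_prod]
    exact Finset.prod_eq_zero (Finset.mem_range.2 (by omega)) h0
  have hG := hESGerm ℂ w e m l hE
  have hall : ∀ Q : ℤ[X][X], Q ≠ 0 →
      bev ((gu m : (Gm ℂ)ˣ) : Gm ℂ) ((gu l : (Gm ℂ)ˣ) : Gm ℂ) Q ≠ 0 := by
    intro Q hQ0
    obtain ⟨j, hj⟩ := hP ⟨Q, hQ0⟩
    rw [L_ESDim_germ hBevEv]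
    refine L_ESDim_ne (N := j) fun i hi => ?_
    have := hPne j i hi
    rw [hj] at this
    exact this
  have hc := L_ESDim_char
  have hm2 : ((gu m : (Gm ℂ)ˣ) : Gm ℂ) ^ 2 ≠ 1 := by
    have hq : (C X ^ 2 - 1 : ℤ[X][X]) ≠ 0 := by
      intro h0
      have h1 : (C (X ^ 2 - 1 : ℤ[X]) : ℤ[X][X]) = 0 := by
        rw [C_sub, C_pow, C_1]
        exact h0
      rw [C_eq_zero] at h1
      have h2 := congrArg (fun p => p.coeff 2) h1
      simp [coeff_one] at h2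
    intro h0
    apply hall _ hq
    have h3 : bev ((gu m : (Gm ℂ)ˣ) : Gm ℂ) ((gu l : (Gm ℂ)ˣ) : Gm ℂ) (C X ^ 2 - 1) =
        ((gu m : (Gm ℂ)ˣ) : Gm ℂ) ^ 2 - 1 := by
      rw [map_sub, map_pow, map_one]
      simp [bev]
    rw [h3, h0, sub_self]
  have hd := hESDl ℚ (Gm ℂ) w e (gu m) (gu l) hk hm2 hG
  exact hDepJac ℚ (Gm ℂ) _ _ hd (L_ESDim_ind _ _ hall)

end AJM
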