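import Pool.Agent.Work.MP_d3fa71_gt.Mut.Bd.B16

/-!
# MP_d3fa71_gt, project Mut, block X, item ESFg
-/

open Polynomial

namespace AJM

theorem L_ESFg_map_eq {R K : Type} [CommRing R] [CommRing K] (f : R →+* K)
    (hf : Function.Injective f) {x y : G R}
    (h : Matrix.SpecialLinearGroup.map f x = Matrix.SpecialLinearGroup.map f y) : x = y := by
  apply Subtype.ext
  apply Matrix.ext
  intro i j
  apply hf
  have h1 := congrArg (fun z : G K => z.1 i j) h
  exact h1

/-- the case of a subring -/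
theorem L_ESFg_sub (hWFg : WFg) (K : Type) [Field K] (w : List Mv) (e : ℤ) (m l : Kˣ)
    (h : ESp w e m l) : ∃ B : Finset K, ∀ (R : Subring K), (B : Set K) ⊆ R →
      ∀ (m' l' : Rˣ), ((m' : R) : K) = m → ((l' : R) : K) = l → ESp w e m' l' := by
  obtain ⟨μ, ν, h1, h2, h3, h4, hW⟩ := h
  obtain ⟨B, hB⟩ := hWFg K w _ _ hW
  refine ⟨B, fun R hR m' l' hm hl => ?_⟩
  obtain ⟨t, t', ht, ht', hT⟩ := hB R hR
  have e' : t' = [] := by
    simpa using ht'
  subst e'
  have hinj : Function.Injective R.subtype := Subtype.val_injective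
  match t, ht, hT with
  | [], ht, _ => simp at ht
  | [_], ht, _ => simp at ht
  | _ :: _ :: _ :: _, ht, _ => simp at ht
  | [(a, b), (c, d)], ht, hT =>
    simp only [List.map_cons, List.map_nil, Prod.map_apply, List.cons.injEq, Prod.mk.injEq,
      and_true] at ht
    obtain ⟨⟨ha, hb⟩, hc, hd⟩ := ht
    have hb' : b = 1 := L_ESFg_map_eq R.subtype hinj (by rw [hb, map_one])
    have hc' : c = a⁻¹ := L_ESFg_map_eq R.subtype hinj (by rw [hc, map_inv, ha])
    subst hb' hc'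
    have hmap : ∀ (x : G R) (i j : Fin 2),
        (Matrix.SpecialLinearGroup.map R.subtype x).1 i j = ((x.1 i j : R) : K) := by
      intro x i j
      rfl
    refine ⟨a, d, ?_, ?_, ?_, ?_, hT⟩
    · apply hinj
      rw [map_zero, ← h1, ← ha]
      rfl
    · apply hinj
      rw [map_zero, ← h2, ← hd]
      rfl
    · apply hinj
      have : R.subtype (a.1 0 0) = μ.1 0 0 := by
        rw [← ha]
        rfl
      rw [this, h3]
      exact hm.symm
    · apply hinj
      have : R.subtype (d.1 0 0) = ν.1 0 0 := by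
        rw [← hd]
        rfl
      rw [this, h4, map_mul]
      have hm2 : Units.map (R.subtype : R →* K) m' = m := Units.ext hm
      have hm3 : R.subtype (((m' ^ e : Rˣ) : R)) = ((m ^ e : Kˣ) : K) := by
        rw [← hm2, ← map_zpow]
        rfl
      rw [hm3]
      congr 1
      exact hl.symm

theorem prf_ESFg (hWFg : WFg) : ESFg := by
  intro k K _ _ _ w e m l h
  obtain ⟨B, hB⟩ := L_ESFg_sub hWFg K w e m l h
  classical
  set X : Finset K := B ∪ {(m : K), ((m⁻¹ : Kˣ) : K), (l : K), ((l⁻¹ : Kˣ) : K)} with hX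
  set R : Subalgebra k K := Algebra.adjoin k (X : Set K) with hR
  have hXR : ∀ x ∈ X, x ∈ R := fun x hx => Algebra.subset_adjoin hx
  have hm1 : (m : K) ∈ R := hXR _ (by simp [hX])
  have hm2 : ((m⁻¹ : Kˣ) : K) ∈ R := hXR _ (by simp [hX])
  have hl1 : (l : K) ∈ R := hXR _ (by simp [hX])
  have hl2 : ((l⁻¹ : Kˣ) : K) ∈ R := hXR _ (by simp [hX])
  refine ⟨R, ⟨X, rfl⟩, ⟨⟨m, hm1⟩, ⟨((m⁻¹ : Kˣ) : K), hm2⟩, ?_, ?_⟩,
    ⟨⟨l, hl1⟩, ⟨((l⁻¹ : Kˣ) : K), hl2⟩, ?_, ?_⟩, rfl, rfl, ?_⟩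
  · apply Subtype.ext
    exact m.mul_inv
  · apply Subtype.ext
    exact m.inv_mul
  · apply Subtype.ext
    exact l.mul_inv
  · apply Subtype.ext
    exact l.inv_mul
  · exact hB R.toSubring (fun x hx => hXR x (Finset.mem_union_left _ hx)) _ _ rfl rfl

end AJM
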