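import Pool.Agent.Work.MP_d3fa71_gt.Mut.Bd.B16

/-!
# MP_d3fa71_gt, project Mut, block X: germs of labelled diagrams
-/

namespace AJM

section

variable (F : Type) [Field F]

/-- Germs of sequences of matrices. -/
noncomputable def L_ESGerm_Phi : (ℕ → G F) →* G (Gm F) where
  toFun x := ⟨Matrix.of fun a b => gm F (fun i => (x i).1 a b), by
    rw [Matrix.det_fin_two]
    simp only [Matrix.of_apply]
    rw [← map_mul, ← map_mul, ← map_sub]
    have h : ((fun i => (x i).1 0 0) * (fun i => (x i).1 1 1) -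
        (fun i => (x i).1 0 1) * fun i => (x i).1 1 0) = (1 : ℕ → F) := by
      funext i
      have := (x i).2
      rw [Matrix.det_fin_two] at this
      exact this
    rw [h, map_one]⟩
  map_one' := by
    refine Subtype.ext (Matrix.ext fun a b => ?_)
    show gm F (fun _ => (1 : Matrix (Fin 2) (Fin 2) F) a b) = (1 : Matrix (Fin 2) (Fin 2) (Gm F)) a b
    by_cases hab : a = b
    · subst hab
      rw [Matrix.one_apply_eq, Matrix.one_apply_eq]
      exact map_one (gm F)
    · rw [Matrix.one_apply_ne hab, Matrix.one_apply_ne hab]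
      exact map_zero (gm F)
  map_mul' x y := by
    refine Subtype.ext (Matrix.ext fun a b => ?_)
    show gm F (fun i => ((x i).1 * (y i).1) a b) =
      ((Matrix.of fun a b => gm F (fun i => (x i).1 a b)) *
        (Matrix.of fun a b => gm F (fun i => (y i).1 a b)) : Matrix (Fin 2) (Fin 2) (Gm F)) a b
    rw [Matrix.mul_apply, Fin.sum_univ_two]
    simp only [Matrix.of_apply]
    rw [← map_mul, ← map_mul, ← map_add]
    congr 1
    funext i
    rw [Matrix.mul_apply, Fin.sum_univ_two]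
    rfl

theorem L_ESGerm_apply (x : ℕ → G F) (a b : Fin 2) :
    (L_ESGerm_Phi F x).1 a b = gm F (fun i => (x i).1 a b) := rfl

/-- The unit of the ring of sequences. -/
def L_ESGerm_u {F : Type} [Field F] (x : ℕ → Fˣ) : (ℕ → F)ˣ :=
  ⟨fun i => (x i : F), fun i => ((x i)⁻¹ : Fˣ), by ext i; simp, by ext i; simp⟩

theorem L_ESGerm_gu {F : Type} [Field F] (x : ℕ → Fˣ) :
    gu x = Units.map (gm F).toMonoidHom (L_ESGerm_u x) := rfl

theorem L_ESGerm_zpow {F : Type} [Field F] (x : ℕ → Fˣ) (e : ℤ) :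
    L_ESGerm_u x ^ e = L_ESGerm_u (fun i => x i ^ e) := by
  ext i
  have h : Units.map (Pi.evalMonoidHom (fun _ : ℕ => F) i) (L_ESGerm_u x ^ e) = x i ^ e := by
    rw [map_zpow]
    congr 1
  have h2 := congrArg Units.val h
  exact h2

end

theorem prf_ESGerm (hWFam : WFam) (hWMap : WMap) : ESGerm := by
  intro F _ w e m l h
  choose μ ν h1 h2 h3 h4 h5 using h
  have h6 := hWFam ℕ (G F) w [fun i => (μ i, 1), fun i => ((μ i)⁻¹, ν i)] [] h5
  have h7 := hWMap _ _ (L_ESGerm_Phi F) w _ _ h6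
  refine ⟨L_ESGerm_Phi F μ, L_ESGerm_Phi F ν, ?_, ?_, ?_, ?_, ?_⟩
  · rw [L_ESGerm_apply]
    have : (fun i => (μ i).1 1 0) = (0 : ℕ → F) := funext h1
    rw [this, map_zero]
  · rw [L_ESGerm_apply]
    have : (fun i => (ν i).1 1 0) = (0 : ℕ → F) := funext h2
    rw [this, map_zero]
  · rw [L_ESGerm_apply]
    have : (fun i => (μ i).1 0 0) = fun i => ((m i : Fˣ) : F) := funext h3
    rw [this]
    rfl
  · rw [L_ESGerm_apply, L_ESGerm_gu, L_ESGerm_gu, ← map_zpow, L_ESGerm_zpow]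
    have : (fun i => (ν i).1 0 0) = (fun i => ((l i : Fˣ) : F)) * fun i => ((m i ^ e : Fˣ) : F) :=
      funext h4
    rw [this, map_mul]
    rfl
  · have e1 : L_ESGerm_Phi F (fun i => (μ i)⁻¹) = (L_ESGerm_Phi F μ)⁻¹ :=
      map_inv (L_ESGerm_Phi F) μ
    have e2 : L_ESGerm_Phi F (fun _ => 1) = 1 := map_one (L_ESGerm_Phi F)
    have h8 : WPath w [(L_ESGerm_Phi F μ, L_ESGerm_Phi F (fun _ => 1)),
      (L_ESGerm_Phi F (fun i => (μ i)⁻¹), L_ESGerm_Phi F ν)] [] := h7
    rw [e1, e2] at h8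
    exact h8

end AJM
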