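import Pool.Agent.Work.MP_d3fa71_gt.Mut.Bd.B16

/-!
# MP_d3fa71_gt, project Mut, item ESTransfer
-/

open Polynomial

namespace AJM

theorem L_ESTransfer_unit {k K Ω : Type} [Field k] [Field K] [Field Ω] [Algebra k K]
    [Algebra k Ω] (R : Subalgebra k K) (ψ : R →ₐ[k] Ω) (m : kˣ) (m' : Rˣ)
    (hm : ((m' : R) : K) = (Units.map (algebraMap k K).toMonoidHom m : Kˣ)) :
    Units.map (ψ : R →+* Ω).toMonoidHom m' = Units.map (algebraMap k Ω).toMonoidHom m := by
  have h1 : (m' : R) = algebraMap k R (m : k) := by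
    apply Subtype.ext
    rw [hm]
    rfl
  apply Units.ext
  change ψ (m' : R) = algebraMap k Ω (m : k)
  rw [h1, AlgHom.commutes]

theorem prf_ESTransfer (hESFg : ESFg) (hZarHom : ZarHom) (hESMap : ESMap) : ESTransfer := by
  intro k K Ω _ _ _ _ _ _ w e m l h
  obtain ⟨R, hR, m', l', hm, hl, hE⟩ := hESFg k K w e _ _ h
  have hft : Algebra.FiniteType k R := R.fg_iff_finiteType.1 hR
  obtain ⟨ψ⟩ := hZarHom k R Ω hft
  have key := hESMap R Ω (ψ : R →+* Ω) w e m' l' hE
  rw [L_ESTransfer_unit R ψ m m' hm, L_ESTransfer_unit R ψ l l' hl] at key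
  exact key

end AJM
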