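import Pool.Agent.Work.MP_d3fa71_gt.Mut.Bd.B05

/-!
# MP_d3fa71_gt, project Mut, item EigES
-/

set_option autoImplicit false

namespace AJM

theorem L_EigES_mul {R : Type} [CommRing R] {A B : G R} {a b : R} (hA : A.1 1 0 = 0)
    (hA' : A.1 0 0 = a) (hB : B.1 1 0 = 0) (hB' : B.1 0 0 = b) :
    (A * B).1 1 0 = 0 ∧ (A * B).1 0 0 = a * b := by
  have h : (A * B).1 = A.1 * B.1 := rfl
  rw [h, Matrix.mul_apply, Matrix.mul_apply, Fin.sum_univ_two, Fin.sum_univ_two, hA, hB, hA', hB']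
  exact ⟨by ring, by ring⟩

theorem L_EigES_det {R : Type} [CommRing R] {A : G R} (hA : A.1 1 0 = 0) :
    A.1 0 0 * A.1 1 1 = 1 := by
  have h := A.2
  rw [Matrix.det_fin_two, hA, mul_zero, sub_zero] at h
  exact h

theorem L_EigES_inv {R : Type} [CommRing R] {A : G R} {a : Rˣ} (hA : A.1 1 0 = 0)
    (hA' : A.1 0 0 = a) : (A⁻¹).1 1 0 = 0 ∧ (A⁻¹).1 0 0 = ((a⁻¹ : Rˣ) : R) := by
  have h1 := L_EigES_det hA
  rw [hA'] at h1
  have h2 : (A⁻¹).1 = !![A.1 1 1, -A.1 0 1; -A.1 1 0, A.1 0 0] := by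
    rw [Matrix.SpecialLinearGroup.coe_inv, Matrix.adjugate_fin_two]
  rw [h2]
  constructor
  · simp [hA]
  · have h3 : A.1 1 1 = ((a⁻¹ : Rˣ) : R) := by
      calc A.1 1 1 = ((a⁻¹ : Rˣ) : R) * ((a : R) * A.1 1 1) := by
            rw [← mul_assoc, Units.inv_mul, one_mul]
        _ = ((a⁻¹ : Rˣ) : R) := by rw [h1, mul_one]
    simp [h3]

theorem L_EigES_zpow {R : Type} [CommRing R] {A : G R} {a : Rˣ} (hA : A.1 1 0 = 0)
    (hA' : A.1 0 0 = a) (e : ℤ) :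
    (A ^ e).1 1 0 = 0 ∧ (A ^ e).1 0 0 = ((a ^ e : Rˣ) : R) := by
  induction e using Int.induction_on with
  | zero => simp
  | succ n ih =>
    rw [zpow_add_one, zpow_add_one, Units.val_mul]
    exact L_EigES_mul ih.1 ih.2 hA hA'
  | pred n ih =>
    rw [zpow_sub_one, zpow_sub_one, Units.val_mul]
    have h := L_EigES_inv hA hA'
    exact L_EigES_mul ih.1 ih.2 h.1 h.2

/-- A matrix of determinant one with a given first column. -/
theorem L_EigES_col (v : Fin 2 → ℂ) (hv : v ≠ 0) :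
    ∃ P : G ℂ, Matrix.mulVec P.1 ![1, 0] = v := by
  by_cases h0 : v 0 = 0
  · have h1 : v 1 ≠ 0 := by
      intro h1
      apply hv
      funext i
      fin_cases i
      · exact h0
      · exact h1
    refine ⟨⟨!![0, -(v 1)⁻¹; v 1, 0], ?_⟩, ?_⟩
    · rw [Matrix.det_fin_two_of]
      field_simp
      ring
    · funext i
      fin_cases i
      · simp [Matrix.mulVec, dotProduct, Fin.sum_univ_two, h0]
      · simp [Matrix.mulVec, dotProduct, Fin.sum_univ_two]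
  · refine ⟨⟨!![v 0, 0; v 1, (v 0)⁻¹], ?_⟩, ?_⟩
    · rw [Matrix.det_fin_two_of]
      field_simp
      ring
    · funext i
      fin_cases i
      · simp [Matrix.mulVec, dotProduct, Fin.sum_univ_two]
      · simp [Matrix.mulVec, dotProduct, Fin.sum_univ_two]

theorem L_EigES_conj (P A : G ℂ) (v : Fin 2 → ℂ) (m : ℂ)
    (hP : Matrix.mulVec P.1 ![1, 0] = v) (hA : Matrix.mulVec A.1 v = m • v) :
    (MulAut.conj P⁻¹ A).1 1 0 = 0 ∧ (MulAut.conj P⁻¹ A).1 0 0 = m := by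
  have h1 : Matrix.mulVec (MulAut.conj P⁻¹ A).1 ![1, 0] = m • ![1, 0] := by
    have h2 : (MulAut.conj P⁻¹ A).1 = (P⁻¹).1 * A.1 * P.1 := by
      rw [MulAut.conj_apply, inv_inv]
      rfl
    have h3 : Matrix.mulVec (P⁻¹).1 v = ![1, 0] := by
      rw [← hP, Matrix.mulVec_mulVec]
      have h4 : (P⁻¹).1 * P.1 = 1 := by
        have h5 : P⁻¹ * P = 1 := inv_mul_cancel P
        have h6 := congrArg Subtype.val h5
        exact h6
      rw [h4, Matrix.one_mulVec]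
    rw [h2, ← Matrix.mulVec_mulVec, hP, ← Matrix.mulVec_mulVec, hA, Matrix.mulVec_smul, h3]
  generalize MulAut.conj P⁻¹ A = B at h1 ⊢
  have h7 := congrFun h1 0
  have h8 := congrFun h1 1
  simp [Matrix.mulVec, dotProduct, Fin.sum_univ_two] at h7 h8
  exact ⟨h8, h7⟩

theorem L_EigES_eig {A : G ℂ} {m : ℂ} (h : A.1 1 0 = 0) (h' : A.1 0 0 = m) :
    AJG.IsEig A ![1, 0] m := by
  unfold AJG.IsEig
  funext i
  fin_cases i
  · simp [Matrix.mulVec, dotProduct, Fin.sum_univ_two, h']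
  · simp [Matrix.mulVec, dotProduct, Fin.sum_univ_two, h]

theorem prf_EigES (hKGHom : KGHom) : EigES := by
  intro w e hK
  ext p
  constructor
  · rintro ⟨ρ, v, hv, hm, hl⟩
    obtain ⟨P, hP⟩ := L_EigES_col v hv
    obtain ⟨a1, a2⟩ := L_EigES_conj P _ v _ hP hm
    obtain ⟨b1, b2⟩ := L_EigES_conj P _ v _ hP hl
    set μ : G ℂ := MulAut.conj P⁻¹ (ρ (KG ((.cup, 0) :: w) e).mer) with hμ
    set lam : G ℂ := MulAut.conj P⁻¹ (ρ (KG ((.cup, 0) :: w) e).lon) with hlam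
    have hm0 : p.1 ≠ 0 := by
      intro h
      have h1 := L_EigES_det a1
      rw [a2, h, zero_mul] at h1
      exact zero_ne_one h1
    have hl0 : p.2 ≠ 0 := by
      intro h
      have h1 := L_EigES_det b1
      rw [b2, h, zero_mul] at h1
      exact zero_ne_one h1
    obtain ⟨c1, c2⟩ := L_EigES_zpow (a := Units.mk0 p.1 hm0) a1 a2 e
    obtain ⟨d1, d2⟩ := L_EigES_mul b1 b2 c1 c2
    refine ⟨Units.mk0 p.1 hm0, Units.mk0 p.2 hl0, rfl, μ, lam * μ ^ e, a1, d1, a2, d2, ?_⟩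
    refine (hKGHom (G ℂ) w e μ (lam * μ ^ e) hK).1
      ⟨((MulAut.conj P⁻¹).toMonoidHom).comp ρ, rfl, ?_⟩
    rw [mul_assoc, ← zpow_add, add_neg_cancel, zpow_zero, mul_one]
    rfl
  · rintro ⟨m, l, rfl, μ, ν, h1, h2, h3, h4, hW⟩
    obtain ⟨ρ, hρ1, hρ2⟩ := (hKGHom (G ℂ) w e μ ν hK).2 hW
    refine ⟨ρ, ![1, 0], ?_, ?_, ?_⟩
    · intro h
      have := congrFun h 0
      simp at this
    · rw [hρ1]
      exact L_EigES_eig h1 h3
    · rw [hρ2]
      obtain ⟨c1, c2⟩ := L_EigES_zpow h1 h3 (-e)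
      obtain ⟨d1, d2⟩ := L_EigES_mul h2 h4 c1 c2
      refine L_EigES_eig d1 ?_
      rw [d2, mul_assoc, ← Units.val_mul, ← zpow_add, add_neg_cancel, zpow_zero, Units.val_one,
        mul_one]

end AJM
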