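import Pool.Agent.Work.MP_d3fa71_gt.Mut.Bd.B16

/-!
# MP_d3fa71_gt, project Mut, block X: item ExA (existence of the A-polynomial)
-/

open Polynomial

namespace AJM

/-- The zeros of a polynomial which are eigenvalue pairs. -/
def L_ExA_Z (w : List Mv) (e : ℤ) (F : ℤ[X][X]) : Set (ℂ × ℂ) :=
  {p : ℂ × ℂ | p ∈ ES w e ∧ bev p.1 p.2 F = 0}

theorem L_ExA_unit {m l : ℂ} {u : ℤ[X][X]} (hu : IsUnit u) : bev m l u ≠ 0 :=
  (hu.map (bev m l)).ne_zero

theorem L_ExA_ne {w : List Mv} {e : ℤ} {p : ℂ × ℂ} (hp : p ∈ ES w e) : p.1 ≠ 0 ∧ p.2 ≠ 0 := by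
  obtain ⟨m, l, rfl, _⟩ := hp
  exact ⟨m.ne_zero, l.ne_zero⟩

theorem L_ExA_fac {w : List Mv} {e : ℤ} {P0 : ℤ[X][X]} (hP0 : P0 ≠ 0)
    (hvan : ∀ m l : ℂˣ, ESp w e m l → bev (m : ℂ) (l : ℂ) P0 = 0) {p : ℂ × ℂ}
    (hp : p ∈ ES w e) :
    ∃ F ∈ UniqueFactorizationMonoid.factors P0, bev p.1 p.2 F = 0 := by
  obtain ⟨m, l, rfl, hml⟩ := hp
  have h := hvan m l hml
  obtain ⟨u, hu⟩ := UniqueFactorizationMonoid.factors_prod hP0
  rw [← hu, map_mul] at h
  have h2 : bev (m : ℂ) (l : ℂ) (UniqueFactorizationMonoid.factors P0).prod = 0 := by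
    rcases mul_eq_zero.1 h with h | h
    · exact h
    · exact absurd h (L_ExA_unit u.isUnit)
  rw [map_multiset_prod, Multiset.prod_eq_zero_iff, Multiset.mem_map] at h2
  obtain ⟨F, hF, hF0⟩ := h2
  exact ⟨F, hF, hF0⟩

/-- The separating polynomials. -/
noncomputable def L_ExA_h (p t : ℂ × ℂ) : ℂ[X][X] :=
  open Classical in if t.1 = p.1 then X - C (C t.2) else C (X - C t.1)

theorem L_ExA_h_self (p t : ℂ × ℂ) : (L_ExA_h p t).evalEval t.1 t.2 = 0 := by
  unfold L_ExA_h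
  split_ifs with h
  · simp [Polynomial.evalEval]
  · simp [Polynomial.evalEval]

theorem L_ExA_h_ne {p t : ℂ × ℂ} (h : t ≠ p) : (L_ExA_h p t).evalEval p.1 p.2 ≠ 0 := by
  unfold L_ExA_h
  split_ifs with h1
  · have h2 : t.2 ≠ p.2 := fun h2 => h (Prod.ext h1 h2)
    simp only [Polynomial.evalEval, eval_sub, eval_X, eval_C]
    exact sub_ne_zero.2 (fun h3 => h2 h3.symm)
  · simp only [Polynomial.evalEval, eval_sub, eval_X, eval_C]
    exact sub_ne_zero.2 (fun h3 => h1 h3.symm)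

theorem prf_ExA (hESDim : ESDim) (hGenAll : GenAll) (hDensGen : DensGen) (hBevEv : BevEv) :
    ExA := by
  classical
  obtain ⟨hB1, hB2, -⟩ := hBevEv
  intro w e hk
  obtain ⟨P0, hP0, hvan⟩ := hESDim w e hk
  set f := UniqueFactorizationMonoid.factors P0 with hf
  set g := f.filter (fun F => (L_ExA_Z w e F).Infinite) with hg
  have hirr : ∀ F ∈ f, Irreducible F := fun F hF =>
    UniqueFactorizationMonoid.irreducible_of_factor F hF
  have hgf : ∀ F ∈ g, F ∈ f ∧ (L_ExA_Z w e F).Infinite := fun F hF => Multiset.mem_filter.1 hF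
  have hfac : ∀ p ∈ ES w e, ∃ F ∈ f, bev p.1 p.2 F = 0 := fun p hp =>
    L_ExA_fac hP0 hvan hp
  -- the finite set
  set T : Set (ℂ × ℂ) := {p | p ∈ ES w e ∧ ∃ F ∈ f, ¬ (L_ExA_Z w e F).Infinite ∧
    bev p.1 p.2 F = 0} with hT
  have hTfin : T.Finite := by
    have hfin : ({F | F ∈ f ∧ ¬ (L_ExA_Z w e F).Infinite} : Set ℤ[X][X]).Finite :=
      (f.finite_toSet).subset fun F hF => hF.1
    refine (hfin.biUnion (t := fun F => L_ExA_Z w e F) fun F hF => ?_).subset ?_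
    · exact Set.not_infinite.1 hF.2
    · rintro p ⟨hp, F, hF, hFi, hF0⟩
      exact Set.mem_biUnion (show F ∈ {F | F ∈ f ∧ ¬ (L_ExA_Z w e F).Infinite} from ⟨hF, hFi⟩)
        ⟨hp, hF0⟩
  have hA0 : g.prod ≠ 0 := by
    refine Multiset.prod_ne_zero fun h0 => ?_
    exact (hirr 0 (hgf 0 h0).1).ne_zero rfl
  refine ⟨g.prod, hA0, ?_, T, hTfin, ?_⟩
  · intro hX
    obtain ⟨F, hF, hXF⟩ := (Polynomial.prime_X (R := ℤ[X])).exists_mem_multiset_dvd hX
    obtain ⟨hFf, hFi⟩ := hgf F hF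
    obtain ⟨u, hu⟩ := (Polynomial.prime_X (R := ℤ[X])).irreducible.associated_of_dvd
      (hirr F hFf) hXF
    obtain ⟨p, hp, hp0⟩ := hFi.nonempty
    rw [← hu, map_mul] at hp0
    rcases mul_eq_zero.1 hp0 with h | h
    · have h2 : bev p.1 p.2 (X : ℤ[X][X]) = p.2 := by
        simp [bev]
      rw [h2] at h
      exact (L_ExA_ne hp).2 h
    · exact L_ExA_unit u.isUnit h
  · apply Set.Subset.antisymm
    · rintro p ⟨hp1, hp2, hp⟩
      by_contra hcon
      rw [Set.mem_union, not_or] at hcon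
      obtain ⟨hcA, hcT⟩ := hcon
      have hbA : bev p.1 p.2 g.prod ≠ 0 := fun h0 => hcA ((hB2 _ _).2 ⟨hp1, hp2, h0⟩)
      have hH := hp ((g.prod.map (Polynomial.mapRingHom (Int.castRingHom ℂ))) *
        ∏ t ∈ hTfin.toFinset, L_ExA_h p t) (by
          intro q hq
          rw [← coe_evalEvalRingHom, map_mul, map_prod]
          obtain ⟨F, hF, hF0⟩ := hfac q hq
          by_cases hi : (L_ExA_Z w e F).Infinite
          · have hFg : F ∈ g := Multiset.mem_filter.2 ⟨hF, hi⟩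
            obtain ⟨V, hV⟩ := Multiset.dvd_prod hFg
            have : evalEvalRingHom q.1 q.2
                (g.prod.map (Polynomial.mapRingHom (Int.castRingHom ℂ))) = 0 := by
              rw [coe_evalEvalRingHom, hB1, hV, map_mul, hF0, zero_mul]
            rw [this, zero_mul]
          · have hqT : q ∈ hTfin.toFinset := by
              rw [Set.Finite.mem_toFinset]
              exact ⟨hq, F, hF, hi, hF0⟩
            rw [Finset.prod_eq_zero hqT, mul_zero]
            rw [coe_evalEvalRingHom]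
            exact L_ExA_h_self p q)
      rw [← coe_evalEvalRingHom, map_mul, map_prod] at hH
      rcases mul_eq_zero.1 hH with h | h
      · rw [coe_evalEvalRingHom, hB1] at h
        exact hbA h
      · obtain ⟨t, ht, ht0⟩ := Finset.prod_eq_zero_iff.1 h
        rw [coe_evalEvalRingHom] at ht0
        rw [Set.Finite.mem_toFinset] at ht
        exact L_ExA_h_ne (fun (h3 : t = p) => hcT (by rw [← h3]; exact ht)) ht0
    · rintro p (hp | hp)
      · obtain ⟨hp1, hp2, hp0⟩ := (hB2 _ _).1 hp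
        rw [map_multiset_prod, Multiset.prod_eq_zero_iff, Multiset.mem_map] at hp0
        obtain ⟨F, hF, hF0⟩ := hp0
        obtain ⟨hFf, hFi⟩ := hgf F hF
        refine ⟨hp1, hp2, fun H hH => ?_⟩
        refine hDensGen F H (hirr F hFf) (fun m l hgen => ?_) p hp1 hp2 hF0
        exact hH ((m : ℂ), (l : ℂ)) ⟨m, l, rfl, hGenAll w e F (hirr F hFf) hFi m l hgen⟩
      · obtain ⟨h1, h2⟩ := L_ExA_ne hp.1
        exact ⟨h1, h2, fun H hH => hH p hp.1⟩

end AJM
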