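import Pool.Agent.Work.MP_d3fa71_gt.Mut.Bd.B16

/-!
# MP_d3fa71_gt, project Mut, block X: FCurve
-/

open Polynomial

namespace AJM

theorem prf_FCurve (hBevEv : BevEv) : FCurve := by
  intro z
  have h0 : AJG.AEx_F z = C (X ^ (-z.2).toNat) * X + C (-(C (z.1 : ℤ) * X ^ z.2.toNat)) := by
    rw [AJG.AEx_F, C_neg, sub_eq_add_neg]
  have hX : (X ^ (-z.2).toNat : ℤ[X]) ≠ 0 := pow_ne_zero _ X_ne_zero
  refine ⟨?_, ?_, ?_⟩
  · rw [h0]
    refine irreducible_C_mul_X_add_C hX ?_
    rcases le_total 0 z.2 with h | h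
    · have h1 : (-z.2).toNat = 0 := by omega
      rw [h1, pow_zero]
      exact isRelPrime_one_left
    · have h1 : z.2.toNat = 0 := by omega
      rw [h1, pow_zero, mul_one]
      have hu : IsUnit (-(C (z.1 : ℤ)) : ℤ[X]) := by
        rw [IsUnit.neg_iff, isUnit_C]
        exact z.1.isUnit
      intro d _ hd
      exact isUnit_of_dvd_unit hd hu
  · rw [h0]
    exact natDegree_linear hX
  · intro m l hm
    rw [← hBevEv.1, AJG.AEx_eval, AJG.AEx_zero z m l hm]

end AJM
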