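import Pool.Agent.Work.MP_d3fa71_gt.Mut.StmtsXB

/-!
# MP_d3fa71_gt, project Mut: item FNeg
-/

open Polynomial

namespace AJM

theorem L_FNeg_eig {A : Matrix.SpecialLinearGroup (Fin 2) ℂ} {w : Fin 2 → ℂ} {m : ℂ}
    (hw : w ≠ 0) (h : AJG.IsEig A w m) : m ≠ 0 := by
  rintro rfl
  apply hw
  have h1 : Matrix.mulVec A.1 w = 0 := by
    rw [h, zero_smul]
  have h2 : Matrix.mulVec (A⁻¹).1 (Matrix.mulVec A.1 w) = w := by
    rw [Matrix.mulVec_mulVec]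
    have h3 : (A⁻¹).1 * A.1 = (1 : Matrix (Fin 2) (Fin 2) ℂ) := by
      rw [← Matrix.SpecialLinearGroup.coe_mul, inv_mul_cancel, Matrix.SpecialLinearGroup.coe_one]
    rw [h3, Matrix.one_mulVec]
  rw [← h2, h1, Matrix.mulVec_zero]

theorem L_FNeg_sub (P : AJG.PGroup) : AJG.EigSet P ⊆ AJG.Zcl (AJG.EigSet P) := by
  intro p hp
  refine ⟨?_, ?_, fun G hG => hG p hp⟩
  · obtain ⟨ρ, w, hw, h1, _⟩ := hp
    exact L_FNeg_eig hw h1
  · obtain ⟨ρ, w, hw, _, h2⟩ := hp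
    exact L_FNeg_eig hw h2

/-- the product of the factors `M - t.1` -/
noncomputable def L_FNeg_pr (s : Finset (ℂ × ℂ)) : ℂ[X][X] := ∏ t ∈ s, C (X - C t.1)

theorem L_FNeg_pr_eval (s : Finset (ℂ × ℂ)) (m l : ℂ) :
    (L_FNeg_pr s).evalEval m l = ∏ t ∈ s, (m - t.1) := by
  have h : (L_FNeg_pr s).evalEval m l = evalEvalRingHom m l (L_FNeg_pr s) := rfl
  rw [h]
  unfold L_FNeg_pr
  rw [map_prod]
  refine Finset.prod_congr rfl fun t _ => ?_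
  have h2 : evalEvalRingHom m l (C (X - C t.1)) = (C (X - C t.1)).evalEval m l := rfl
  rw [h2, evalEval_C]
  simp

theorem prf_FNeg (hBez : Bez) (hBevEv : BevEv) : FNeg := by
  intro P A F hA hF hinf hfin hdvd
  obtain ⟨hA0, _, T, hT, hZ⟩ := hA
  obtain ⟨hB1, hB2, _⟩ := hBevEv
  obtain ⟨n, A', hA', hAe⟩ := WfDvdMonoid.max_power_factor hA0 hF
  have hS : (T ∪ {p : ℂ × ℂ | p ∈ AJG.EigSet P ∧ bev p.1 p.2 F = 0}).Finite := hT.union hfin
  -- the polynomial H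
  have hHE : ∀ p ∈ AJG.EigSet P,
      (A'.map (mapRingHom (Int.castRingHom ℂ)) * L_FNeg_pr hS.toFinset).evalEval p.1 p.2 = 0 := by
    intro p hp
    rw [evalEval_mul, hB1, L_FNeg_pr_eval, mul_eq_zero]
    by_cases hpS : p ∈ T ∪ {p : ℂ × ℂ | p ∈ AJG.EigSet P ∧ bev p.1 p.2 F = 0}
    · right
      exact Finset.prod_eq_zero (hS.mem_toFinset.2 hpS) (sub_self _)
    · left
      have h1 : p ∈ AJG.ZeroSet A ∪ T := by
        rw [← hZ]
        exact L_FNeg_sub P hp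
      have h2 : p ∈ AJG.ZeroSet A := h1.resolve_right fun h => hpS (Or.inl h)
      have h3 := ((hB2 A p).1 h2).2.2
      rw [hAe, map_mul, map_pow, mul_eq_zero] at h3
      refine h3.resolve_left fun h => hpS (Or.inr ⟨hp, ?_⟩)
      exact eq_zero_of_pow_eq_zero h
  have hfin1 := hBez F A' hF hA'
  apply hinf
  refine ((hfin1.image Prod.fst).union (hS.image Prod.fst)).subset ?_
  rintro m ⟨l, hm, hl, hml⟩
  have h1 : bev m l A = 0 := by
    obtain ⟨Q, rfl⟩ := hdvd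
    rw [map_mul, hml, zero_mul]
  have h2 : ((m, l) : ℂ × ℂ) ∈ AJG.Zcl (AJG.EigSet P) := by
    rw [hZ]
    exact Or.inl ((hB2 A (m, l)).2 ⟨hm, hl, h1⟩)
  have h3 := h2.2.2 _ hHE
  rw [evalEval_mul, hB1, L_FNeg_pr_eval, mul_eq_zero, Finset.prod_eq_zero_iff] at h3
  rcases h3 with h3 | ⟨t, ht, h3⟩
  · left
    exact ⟨(m, l), ⟨hml, h3⟩, rfl⟩
  · right
    exact ⟨t, hS.mem_toFinset.1 ht, (sub_eq_zero.1 h3).symm⟩

end AJM
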