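import Pool.Agent.Work.MP_d3fa71_gt.Mut.Bd.B16

/-!
# MP_d3fa71_gt, project Mut: curves with infinitely many eigenvalue pairs divide `A`
-/

open Polynomial

namespace AJM

theorem L_FPos_ne {A : Matrix.SpecialLinearGroup (Fin 2) ℂ} {w : Fin 2 → ℂ} {m : ℂ}
    (hw : w ≠ 0) (h : AJG.IsEig A w m) : m ≠ 0 := by
  intro hm
  apply hw
  rw [AJG.IsEig, hm, zero_smul] at h
  have h1 : Matrix.mulVec (A⁻¹).1 (Matrix.mulVec A.1 w) = w := by
    rw [Matrix.mulVec_mulVec, ← Matrix.SpecialLinearGroup.coe_mul, inv_mul_cancel,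
      Matrix.SpecialLinearGroup.coe_one, Matrix.one_mulVec]
  rw [h, Matrix.mulVec_zero] at h1
  exact h1.symm

theorem prf_FPos (hBez : Bez) (hBevEv : BevEv) : FPos := by
  intro P A F hA hF hinf
  obtain ⟨-, -, T, hT, hZ⟩ := hA
  by_contra hnd
  refine hinf (((hBez F A hF hnd).union hT).subset ?_)
  rintro p ⟨hp, hpF⟩
  have hne : p.1 ≠ 0 ∧ p.2 ≠ 0 := by
    obtain ⟨ρ, w, hw, h1, h2⟩ := hp
    exact ⟨L_FPos_ne hw h1, L_FPos_ne hw h2⟩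
  have h1 : p ∈ AJG.Zcl (AJG.EigSet P) := ⟨hne.1, hne.2, fun G hG => hG p hp⟩
  rw [hZ] at h1
  rcases h1 with h1 | h1
  · exact Or.inl ⟨hpF, ((hBevEv.2.1 A p).1 h1).2.2⟩
  · exact Or.inr h1

end AJM
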