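import Pool.Agent.Work.MP_d3fa71_gt.Mut.Bd.B05

/-!
# MP_d3fa71_gt, project Mut, block D: the first move is a cup at position 0
-/

namespace AJM

theorem L_FirstCup_step {m : Mv} {s' : List Bool} {e : ℤ} (h : OStep m [] s' e) :
    m = (.cup, 0) := by
  cases h
  rfl

theorem L_FirstCup_path {w : List Mv} {s' : List Bool} {e : ℤ} (hw : w ≠ [])
    (h : OPath w [] s' e) : ∃ w₁, w = (.cup, 0) :: w₁ := by
  cases h with
  | nil => exact absurd rfl hw
  | cons h1 _ =>
    rw [L_FirstCup_step h1]
    exact ⟨_, rfl⟩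

theorem prf_FirstCup : FirstCup := by
  intro w e h
  exact L_FirstCup_path h.1.1 h.2

end AJM
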