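import Pool.Agent.Work.MP_d3fa71_gt.Mut.Bd.B16

/-!
# MP_d3fa71_gt, project Mut, block X: GenAll
-/

open Polynomial

namespace AJM

lemma L_GenAll_ex {F : ℤ[X][X]} {K : Type} [Field K] (m l : K)
    (h : ∀ P : ℤ[X][X], bev m l P = 0 ↔ F ∣ P) :
    ∃ (D : Type) (_ : CommRing D) (_ : IsDomain D) (q : ℤ[X][X] →+* D),
      Function.Surjective q ∧ ∀ P : ℤ[X][X], q P = 0 ↔ F ∣ P := by
  refine ⟨(bev m l).range, inferInstance, inferInstance, (bev m l).rangeRestrict,
    (bev m l).rangeRestrict_surjective, fun P => ?_⟩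
  rw [← h P]
  constructor
  · intro h1
    exact congrArg Subtype.val h1
  · intro h1
    exact Subtype.ext h1

lemma L_GenAll_hom {F : ℤ[X][X]} {D : Type} [CommRing D] [IsDomain D] (q : ℤ[X][X] →+* D)
    (hq : Function.Surjective q) (hk : ∀ P : ℤ[X][X], q P = 0 ↔ F ∣ P) {K : Type}
    [Field K] (m l : K) (h : ∀ P : ℤ[X][X], bev m l P = 0 ↔ F ∣ P) :
    ∃ ψ : FractionRing D →+* K, ∀ P : ℤ[X][X],
      ψ (algebraMap D (FractionRing D) (q P)) = bev m l P := by
  let φ : D →+* K := RingHom.liftOfSurjective q hq ⟨bev m l, by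
    intro P hP
    exact (h P).2 ((hk P).1 hP)⟩
  have hφ : ∀ P : ℤ[X][X], φ (q P) = bev m l P := fun P =>
    RingHom.liftOfRightInverse_comp_apply _ _ _ _ _
  have hinj : Function.Injective φ := by
    rw [injective_iff_map_eq_zero]
    intro a ha
    obtain ⟨P, rfl⟩ := hq a
    rw [hφ] at ha
    exact (hk P).2 ((h P).1 ha)
  refine ⟨IsFractionRing.lift hinj, fun P => ?_⟩
  rw [IsFractionRing.lift_algebraMap, hφ]

theorem prf_GenAll (hGenPt : GenPt) (hESTransfer : ESTransfer) (_hBevEv : BevEv) : GenAll := by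
  intro w e F hF hinf m l hml
  obtain ⟨m', l', hES, hml'⟩ := hGenPt w e F hF hinf
  obtain ⟨D, _, _, q, hq, hk⟩ := L_GenAll_ex (m : ℂ) (l : ℂ) hml
  obtain ⟨ψ, hψ⟩ := L_GenAll_hom q hq hk (m : ℂ) (l : ℂ) hml
  obtain ⟨ψ', hψ'⟩ := L_GenAll_hom q hq hk (m' : Gm ℂ) (l' : Gm ℂ) hml'
  have hC : ∀ (K : Type) [Field K] (a b : K), bev a b (C X) = a := by
    intro K _ a b
    simp [bev]
  have hX : ∀ (K : Type) [Field K] (a b : K), bev a b X = b := by
    intro K _ a b
    simp [bev]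
  let x : FractionRing D := algebraMap D (FractionRing D) (q (C X))
  let y : FractionRing D := algebraMap D (FractionRing D) (q X)
  have hx : ψ x = m := by rw [hψ, hC]
  have hy : ψ y = l := by rw [hψ, hX]
  have hx' : ψ' x = m' := by rw [hψ', hC]
  have hy' : ψ' y = l' := by rw [hψ', hX]
  have hx0 : x ≠ 0 := by
    intro h
    rw [h, map_zero] at hx
    exact m.ne_zero hx.symm
  have hy0 : y ≠ 0 := by
    intro h
    rw [h, map_zero] at hy
    exact l.ne_zero hy.symm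
  have h1 := @hESTransfer (FractionRing D) (Gm ℂ) ℂ _ _ _ ψ'.toAlgebra
    ψ.toAlgebra _ w e (Units.mk0 x hx0) (Units.mk0 y hy0)
  have e1 : Units.map ψ.toMonoidHom (Units.mk0 x hx0) = m := Units.ext hx
  have e2 : Units.map ψ.toMonoidHom (Units.mk0 y hy0) = l := Units.ext hy
  have e3 : Units.map ψ'.toMonoidHom (Units.mk0 x hx0) = m' := Units.ext hx'
  have e4 : Units.map ψ'.toMonoidHom (Units.mk0 y hy0) = l' := Units.ext hy'
  have h2 : ESp w e (Units.map ψ'.toMonoidHom (Units.mk0 x hx0))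
      (Units.map ψ'.toMonoidHom (Units.mk0 y hy0)) := by
    rw [e3, e4]
    exact hES
  have h3 : ESp w e (Units.map ψ.toMonoidHom (Units.mk0 x hx0))
      (Units.map ψ.toMonoidHom (Units.mk0 y hy0)) := h1 h2
  rw [e1, e2] at h3
  exact h3

end AJM
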