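import Pool.Agent.Work.MP_d3fa71_gt.Mut.Bd.B16

/-!
# MP_d3fa71_gt, project Mut, block X: GenPt
-/

open Polynomial Filter

namespace AJM

theorem prf_GenPt (hESGerm : ESGerm) (hBez : Bez) (hBevEv : BevEv) : GenPt := by
  intro w e F hF hinf
  let p : ℕ ↪ {p : ℂ × ℂ | p ∈ ES w e ∧ bev p.1 p.2 F = 0} := hinf.natEmbedding _
  have hp : ∀ i, ∃ m l : ℂˣ, (p i : ℂ × ℂ) = ((m : ℂ), (l : ℂ)) ∧ ESp w e m l := fun i =>
    (p i).2.1
  choose m l hml hES using hp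
  have key : ∀ P : ℤ[X][X], bev (gu m : Gm ℂ) (gu l : Gm ℂ) P =
      gm ℂ (fun i => bev (m i : ℂ) (l i : ℂ) P) := by
    intro P
    have h1 := hBevEv.2.2 (ℕ → ℂ) (Gm ℂ) (gm ℂ) P (fun i => (m i : ℂ)) (fun i => (l i : ℂ))
    have h2 : bev (fun i => (m i : ℂ)) (fun i => (l i : ℂ)) P =
        fun i => bev (m i : ℂ) (l i : ℂ) P := by
      funext i
      exact hBevEv.2.2 (ℕ → ℂ) ℂ (Pi.evalRingHom (fun _ => ℂ) i) P (fun i => (m i : ℂ))
        (fun i => (l i : ℂ))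
    rw [← h2]
    exact h1.symm
  refine ⟨gu m, gu l, hESGerm ℂ w e m l hES, fun P => ?_⟩
  rw [key]
  constructor
  · intro h
    by_contra hFP
    have hfin := hBez F P hF hFP
    have h1 : {i : ℕ | bev (m i : ℂ) (l i : ℂ) P = 0}.Finite := by
      have h2 : {i : ℕ | bev (m i : ℂ) (l i : ℂ) P = 0} ⊆
          (fun i => (p i : ℂ × ℂ)) ⁻¹' {q : ℂ × ℂ | bev q.1 q.2 F = 0 ∧ bev q.1 q.2 P = 0} := by
        intro i hi
        refine ⟨(p i).2.2, ?_⟩
        show bev (p i : ℂ × ℂ).1 (p i : ℂ × ℂ).2 P = 0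
        rw [hml i]
        exact hi
      refine (hfin.preimage ?_).subset h2
      intro i _ j _ hij
      exact p.injective (Subtype.ext hij)
    have h3 : ∀ᶠ i in (hyperfilter ℕ : Filter ℕ), bev (m i : ℂ) (l i : ℂ) P = 0 := by
      have h4 : ((fun i => bev (m i : ℂ) (l i : ℂ) P : ℕ → ℂ) : Gm ℂ) = ((fun _ => (0 : ℂ) : ℕ → ℂ) : Gm ℂ) := h
      exact Germ.coe_eq.1 h4
    have h5 : ∀ᶠ i in (hyperfilter ℕ : Filter ℕ), ¬ bev (m i : ℂ) (l i : ℂ) P = 0 := by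
      refine hyperfilter_le_cofinite ?_
      rw [mem_cofinite]
      refine h1.subset fun i hi => ?_
      simpa using hi
    obtain ⟨i, hi1, hi2⟩ := (h3.and h5).exists
    exact hi2 hi1
  · rintro ⟨Q, rfl⟩
    have h1 : (fun i => bev (m i : ℂ) (l i : ℂ) (F * Q)) = 0 := by
      funext i
      have h2 := (p i).2.2
      rw [hml i] at h2
      show bev (m i : ℂ) (l i : ℂ) (F * Q) = 0
      rw [map_mul]
      rw [h2, zero_mul]
    rw [h1, map_zero]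

end AJM
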