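import Pool.Agent.Work.MP_d3fa71_gt.Mut.Bd.B05

/-!
# The image of a path under a ring homomorphism
-/

namespace AJM

section
variable {R S : Type} [CommRing R] [CommRing S] (f : R →+* S)

theorem L_PathMap_J : Matrix.SpecialLinearGroup.map f (J : G R) = (J : G S) := by
  ext <;> simp [Matrix.SpecialLinearGroup.map]

theorem L_PathMap_dg (u : Rˣ) :
    Matrix.SpecialLinearGroup.map f (dg u) = dg (Units.map f.toMonoidHom u) := by
  ext
  · simp [Matrix.SpecialLinearGroup.map]
  · simp [Matrix.SpecialLinearGroup.map]
  · simp [Matrix.SpecialLinearGroup.map]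
  · rw [dg11, ← map_inv]
    rfl

theorem L_PathMap_mer (M : Rˣ) (h : G R) :
    Matrix.SpecialLinearGroup.map f (mer M h) =
      mer (Units.map f.toMonoidHom M) (Matrix.SpecialLinearGroup.map f h) := by
  unfold mer
  rw [map_mul, map_mul, map_inv, L_PathMap_dg]

theorem L_PathMap_step {M : Rˣ} {m : Mv} {s s' : List (G R)} {τ : Rˣ} (h : Step M m s s' τ) :
    Step (Units.map f.toMonoidHom M) m (s.map (Matrix.SpecialLinearGroup.map f))
      (s'.map (Matrix.SpecialLinearGroup.map f)) (Units.map f.toMonoidHom τ) := by
  induction h with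
  | cup h s =>
    rw [map_one, List.map_cons, List.map_cons, map_mul, L_PathMap_J]
    exact Step.cup _ _
  | cap h τ s =>
    rw [List.map_cons, List.map_cons, map_mul, map_mul, L_PathMap_J, L_PathMap_dg]
    exact Step.cap _ _ _
  | pos h k s =>
    rw [map_one, List.map_cons, List.map_cons, List.map_cons, List.map_cons, map_mul, map_inv,
      L_PathMap_mer]
    exact Step.pos _ _ _
  | neg h k s =>
    rw [map_one, List.map_cons, List.map_cons, List.map_cons, List.map_cons, map_mul,
      L_PathMap_mer]
    exact Step.neg _ _ _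
  | sh x _ ih =>
    rw [List.map_cons, List.map_cons]
    exact Step.sh _ ih

end

theorem prf_PathMap : PathMap := by
  intro R S _ _ f M w s s' τ h
  induction h with
  | nil s =>
    rw [map_one]
    exact Path.nil _
  | cons h1 _ ih =>
    rw [map_mul]
    exact Path.cons (L_PathMap_step f h1) ih

end AJM
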