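import Pool.Agent.Work.MP_d3fa71_gt.Mut.Bd.B05

/-!
# MP_d3fa71_gt, project Mut: reversal of paths
-/

set_option autoImplicit false

namespace AJM

section
variable {R : Type} [CommRing R]

theorem L_PathRev_scl_cons (h : G R) (s : List (G R)) (u : Rˣ) (d : List Rˣ) :
    scl (h :: s) (u :: d) = h * dg u :: scl s d := rfl

theorem L_PathRev_scl_length (s : List (G R)) (d : List Rˣ) (h : d.length = s.length) :
    (scl s d).length = s.length := by
  unfold scl
  rw [List.length_zipWith, h, min_self]

theorem L_PathRev_ones (s : List (G R)) : scl s (List.replicate s.length 1) = s := by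
  induction s with
  | nil => rfl
  | cons h s ih =>
    rw [List.length_cons, List.replicate_succ, L_PathRev_scl_cons, ih, dg_one, mul_one]

theorem L_PathRev_prod_ones (n : ℕ) : (List.replicate n (1 : Rˣ)).prod = 1 := by
  rw [List.prod_replicate, one_pow]

theorem L_PathRev_scl_scl (s : List (G R)) (d d' : List Rˣ) :
    scl (scl s d) d' = scl s (List.zipWith (· * ·) d d') := by
  induction s generalizing d d' with
  | nil => simp [scl]
  | cons h s ih =>
    cases d with
    | nil => simp [scl]
    | cons u d =>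
      cases d' with
      | nil => simp [scl]
      | cons u' d' =>
        rw [L_PathRev_scl_cons, L_PathRev_scl_cons, List.zipWith_cons_cons, L_PathRev_scl_cons,
          ih, dg_mul, mul_assoc]

theorem L_PathRev_prod (d d' : List Rˣ) (h : d.length = d'.length) :
    (List.zipWith (· * ·) d d').prod = d.prod * d'.prod := by
  induction d generalizing d' with
  | nil =>
    cases d' with
    | nil => simp
    | cons u' d' => simp at h
  | cons u d ih =>
    cases d' with
    | nil => simp at h
    | cons u' d' =>
      rw [List.length_cons, List.length_cons] at h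
      rw [List.zipWith_cons_cons, List.prod_cons, List.prod_cons, List.prod_cons,
        ih d' (by omega)]
      exact mul_mul_mul_comm _ _ _ _

theorem L_PathRev_step {M : Rˣ} {m : Mv} {s s' : List (G R)} {τ : Rˣ} (h : Step M m s s' τ) :
    ∃ (d : List Rˣ) (τ' : Rˣ), d.length = s.length ∧
      Step M (m.1.rev, m.2) s' (scl s d) τ' ∧ τ' * d.prod = τ⁻¹ := by
  induction h with
  | cup h s =>
    refine ⟨List.replicate s.length 1, 1, List.length_replicate, ?_, ?_⟩
    · rw [L_PathRev_ones]
      have h1 := Step.cap (M := M) h 1 s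
      rw [dg_one, mul_one] at h1
      exact h1
    · rw [L_PathRev_prod_ones, mul_one, inv_one]
  | cap h τ s =>
    refine ⟨1 :: τ⁻¹ :: List.replicate s.length 1, 1, ?_, ?_, ?_⟩
    · rw [List.length_cons, List.length_cons, List.length_replicate, List.length_cons,
        List.length_cons]
    · rw [L_PathRev_scl_cons, L_PathRev_scl_cons, L_PathRev_ones, dg_one, mul_one, mul_assoc,
        ← dg_mul, mul_inv_cancel, dg_one, mul_one]
      exact Step.cup (M := M) h s
    · rw [List.prod_cons, List.prod_cons, L_PathRev_prod_ones, mul_one, one_mul, one_mul]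
  | pos h k s =>
    refine ⟨List.replicate (h :: k :: s).length 1, 1, List.length_replicate, ?_, ?_⟩
    · rw [L_PathRev_ones]
      have h1 := Step.neg (M := M) k ((mer M k)⁻¹ * h) s
      rw [mul_inv_cancel_left] at h1
      exact h1
    · rw [L_PathRev_prod_ones, mul_one, inv_one]
  | neg h k s =>
    refine ⟨List.replicate (h :: k :: s).length 1, 1, List.length_replicate, ?_, ?_⟩
    · rw [L_PathRev_ones]
      have h1 := Step.pos (M := M) (mer M h * k) h s
      rw [inv_mul_cancel_left] at h1
      exact h1
    · rw [L_PathRev_prod_ones, mul_one, inv_one]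
  | sh x _ ih =>
    obtain ⟨d, τ', h1, h2, h3⟩ := ih
    refine ⟨1 :: d, τ', ?_, ?_, ?_⟩
    · rw [List.length_cons, List.length_cons, h1]
    · rw [L_PathRev_scl_cons, dg_one, mul_one]
      exact Step.sh x h2
    · rw [List.prod_cons, one_mul, h3]

end

theorem L_PathRev_Rev_cons (m : Mv) (w : List Mv) :
    Rev (m :: w) = Rev w ++ [(m.1.rev, m.2)] := by
  unfold Rev
  rw [List.map_cons, List.reverse_cons]

theorem prf_PathRev (hPathScale : PathScale) (hPathAppend : PathAppend) : PathRev := by
  intro R _ M w s s' τ h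
  induction h with
  | nil s =>
    refine ⟨List.replicate s.length 1, 1, List.length_replicate, ?_, ?_⟩
    · rw [L_PathRev_ones]
      exact Path.nil s
    · rw [L_PathRev_prod_ones, mul_one, inv_one]
  | @cons m w s s₁ s₂ τ₁ τ₂ hs _ ih =>
    obtain ⟨d₂, t₂, hl₂, hp₂, he₂⟩ := ih
    obtain ⟨d₁, t₁, hl₁, hp₁, he₁⟩ := L_PathRev_step hs
    have hpath : Path M [(m.1.rev, m.2)] s₁ (scl s d₁) (t₁ * 1) :=
      Path.cons hp₁ (Path.nil _)
    obtain ⟨d', t', hl', hp', he'⟩ := hPathScale R M _ _ _ _ d₂ hpath hl₂
    have hl'' : d'.length = s.length := by rw [hl', L_PathRev_scl_length s d₁ hl₁]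
    refine ⟨List.zipWith (· * ·) d₁ d', t₂ * t', ?_, ?_, ?_⟩
    · rw [List.length_zipWith, hl₁, hl'', min_self]
    · rw [L_PathRev_Rev_cons, hPathAppend]
      refine ⟨scl s₁ d₂, t₂, t', hp₂, ?_, rfl⟩
      rw [← L_PathRev_scl_scl]
      exact hp'
    · rw [L_PathRev_prod d₁ d' (by rw [hl₁, hl''])]
      calc t₂ * t' * (d₁.prod * d'.prod) = t₂ * (t' * d'.prod) * d₁.prod := by
            simp only [mul_assoc, mul_left_comm, mul_comm]
        _ = t₂ * (t₁ * 1 * d₂.prod) * d₁.prod := by rw [he']
        _ = (t₁ * d₁.prod) * (t₂ * d₂.prod) := by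
            rw [mul_one]
            simp only [mul_assoc, mul_left_comm, mul_comm]
        _ = (τ₁ * τ₂)⁻¹ := by rw [he₁, he₂, mul_inv]

end AJM
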