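import Pool.Agent.Work.MP_d3fa71_gt.Mut.Bd.B05

/-!
# MP_d3fa71_gt, project Mut, block B: reversed columns on meridians
-/

namespace AJM

theorem L_RColMer_mer {R : Type} [CommRing R] (M : Rˣ) (g h : G R) (r : ℤ) :
    mer M (g ^ r * h * dg M ^ (-r)) = g ^ r * mer M h * g ^ (-r) := by
  rw [← dg_zpow, mer_dg, mer_mul, ← zpow_neg]

theorem prf_RColMer (hRrtInv : RrtInv) (hTwsEven : TwsEven) (hWidTwo : WidTwo) : RColMer := by
  intro R _ M r ha hb ha' hb' τ h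
  obtain ⟨y, τ', τ'', h1, h2, -⟩ :=
    (hRrtInv R M (tws (-2 * r)) ha hb ha' hb' τ (hWidTwo.1 _)).1 h
  rw [show (-2 * r : ℤ) = 2 * (-r) by ring] at h1
  obtain ⟨-, h3⟩ := (hTwsEven R M (-r) (ha' * J) ha [] [hb', y] τ').1 h1
  rw [neg_neg, mer_J] at h3
  have h4 : hb' = ((mer M ha')⁻¹ * mer M ha) ^ r * (ha' * J) * dg M ^ (-r) := by
    have := congrArg List.head? h3
    simpa using this
  have h5 : y = ((mer M ha')⁻¹ * mer M ha) ^ r * ha * dg M ^ (-r) := by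
    have := congrArg (fun l => (List.tail l).head?) h3
    simpa using this
  refine ⟨?_, ?_⟩
  · rw [h4, L_RColMer_mer, mer_J]
  · rw [h2, mer_Jdg, h5, L_RColMer_mer, mul_inv_rev, mul_inv_rev, zpow_neg, inv_inv, mul_assoc]

end AJM
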