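import Pool.Agent.Work.MP_d3fa71_gt.Mut.Bd.B05

/-!
# MP_d3fa71_gt, project Mut, item RrtInv: reversed rotation of a two-strand word
-/

namespace AJM

theorem L_RrtInv_cap {R : Type} [CommRing R] {M : Rˣ} {a b c d : G R} {s : List (G R)} {τ : Rˣ} :
    Step M (.cap, 2) [a, b, c, d] s τ ↔ d = c * J * dg τ ∧ s = [a, b] := by
  constructor
  · intro h
    cases h with
    | sh x h1 =>
      cases h1 with
      | sh x h2 =>
        cases h2 with
        | cap h τ s => exact ⟨rfl, rfl⟩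
  · rintro ⟨rfl, rfl⟩
    exact Step.sh a (Step.sh b (Step.cap c τ []))

theorem L_RrtInv_cup {R : Type} [CommRing R] {M : Rˣ} {s s' : List (G R)} {τ : Rˣ} :
    Step M (.cup, 0) s s' τ ↔ ∃ h : G R, s' = h :: h * J :: s ∧ τ = 1 := by
  constructor
  · intro h
    cases h with
    | cup h s => exact ⟨h, rfl, rfl⟩
  · rintro ⟨h, rfl, rfl⟩
    exact Step.cup h s

theorem L_RrtInv_cons {R : Type} [CommRing R] {M : Rˣ} {m : Mv} {w : List Mv}
    {s s'' : List (G R)} {τ : Rˣ} :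
    Path M (m :: w) s s'' τ ↔ ∃ (s' : List (G R)) (τ₁ τ₂ : Rˣ), Step M m s s' τ₁ ∧
      Path M w s' s'' τ₂ ∧ τ = τ₁ * τ₂ := by
  constructor
  · intro h
    cases h with
    | cons h1 h2 => exact ⟨_, _, _, h1, h2, rfl⟩
  · rintro ⟨s', τ₁, τ₂, h1, h2, rfl⟩
    exact Path.cons h1 h2

theorem L_RrtInv_one {R : Type} [CommRing R] {M : Rˣ} {m : Mv}
    {s s'' : List (G R)} {τ : Rˣ} :
    Path M [m] s s'' τ ↔ Step M m s s'' τ := by
  rw [L_RrtInv_cons]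
  constructor
  · rintro ⟨s', τ₁, τ₂, h1, h2, rfl⟩
    cases h2
    rwa [mul_one]
  · intro h
    exact ⟨s'', τ, 1, h, Path.nil _, (mul_one _).symm⟩

theorem prf_RrtInv (hPathAppend : PathAppend) (hPathShift : PathShift)
    (hPathRight : PathRight) : RrtInv := by
  intro R _ M w ha hb ha' hb' τ hw
  unfold rrt
  rw [hPathAppend]
  constructor
  · rintro ⟨s', τ₁, τ₂, h1, h2, rfl⟩
    rw [L_RrtInv_cons] at h1
    obtain ⟨s1, τ₃, τ₄, h3, h4, rfl⟩ := h1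
    rw [L_RrtInv_cup] at h3
    obtain ⟨k, rfl, rfl⟩ := h3
    have h5 := (hPathShift R M w [k] [k * J, ha, hb] s' τ₄).1 h4
    obtain ⟨s2, rfl, h6⟩ := h5
    have h7 := (hPathRight R M w 2 2 [k * J, ha] [hb] s2 τ₄ hw rfl).1 h6
    obtain ⟨s3, hl, rfl, h8⟩ := h7
    obtain ⟨x1, x2, rfl⟩ : ∃ x1 x2, s3 = [x1, x2] := List.length_eq_two.1 hl
    rw [L_RrtInv_one] at h2
    have h9 := L_RrtInv_cap.1 h2
    obtain ⟨h10, h11⟩ := h9
    simp only [List.cons.injEq, and_true] at h11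
    obtain ⟨rfl, rfl⟩ := h11
    exact ⟨x2, τ₄, τ₂, h8, h10, by rw [one_mul]⟩
  · rintro ⟨y, τ', τ'', h1, rfl, rfl⟩
    refine ⟨[ha', hb', y, y * J * dg τ''], τ', τ'', ?_, ?_, rfl⟩
    · rw [L_RrtInv_cons]
      refine ⟨[ha', ha' * J, ha, y * J * dg τ''], 1, τ', ?_, ?_, (one_mul _).symm⟩
      · exact L_RrtInv_cup.2 ⟨ha', rfl, rfl⟩
      · refine (hPathShift R M w [ha'] [ha' * J, ha, y * J * dg τ''] _ τ').2
          ⟨[hb', y, y * J * dg τ''], rfl, ?_⟩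
        exact (hPathRight R M w 2 2 [ha' * J, ha] [y * J * dg τ''] _ τ' hw rfl).2
          ⟨[hb', y], rfl, rfl, h1⟩
    · rw [L_RrtInv_one]
      exact L_RrtInv_cap.2 ⟨rfl, rfl⟩

end AJM
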