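import Pool.Agent.Work.MP_d3fa71_gt.Mut.Bd.B16

/-!
# MP_d3fa71_gt, project Mut, block X: `Uncount`
-/

open Polynomial

namespace AJM

theorem prf_Uncount : Uncount := by
  intro P hP hcount
  have hP0 : P ≠ 0 := hP.ne_zero
  by_cases hd : P.natDegree = 0
  · -- `P = C f`
    have hPf : P = C (P.coeff 0) := Polynomial.eq_C_of_natDegree_eq_zero hd
    set f := P.coeff 0 with hf
    have hf0 : f ≠ 0 := by
      intro h
      rw [h, C_0] at hPf
      exact hP0 hPf
    have hfd : f.degree ≠ 0 := by
      intro h
      have h1 : f = C (f.coeff 0) := Polynomial.eq_C_of_degree_le_zero h.le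
      have h2 : f.coeff 0 ≠ 0 := by
        intro h3
        rw [h3, C_0] at h1
        exact hf0 h1
      apply hP.not_isUnit
      rw [hPf, h1]
      exact (Polynomial.isUnit_C.2 (Polynomial.isUnit_C.2 (isUnit_iff_ne_zero.2 h2)))
    obtain ⟨m, hm⟩ := IsAlgClosed.exists_root f hfd
    have h1 : (Prod.snd '' {p : ℂ × ℂ | P.evalEval p.1 p.2 = 0}).Countable := hcount.image _
    have h2 : (Set.univ : Set ℂ) ⊆ Prod.snd '' {p : ℂ × ℂ | P.evalEval p.1 p.2 = 0} := by
      intro l _
      refine ⟨(m, l), ?_, rfl⟩
      show P.evalEval m l = 0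
      rw [hPf]
      simpa [Polynomial.evalEval] using hm
    exact not_countable_complex (h1.mono h2)
  · have hlc : P.leadingCoeff ≠ 0 := Polynomial.leadingCoeff_ne_zero.2 hP0
    have h1 : (Prod.fst '' {p : ℂ × ℂ | P.evalEval p.1 p.2 = 0}).Countable := hcount.image _
    have h2 : {m : ℂ | P.leadingCoeff.IsRoot m}.Finite :=
      Polynomial.finite_setOfPred_isRoot hlc
    have h3 : (Set.univ : Set ℂ) ⊆ Prod.fst '' {p : ℂ × ℂ | P.evalEval p.1 p.2 = 0} ∪
        {m : ℂ | P.leadingCoeff.IsRoot m} := by
      intro m _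
      by_cases hm : P.leadingCoeff.IsRoot m
      · exact Or.inr hm
      · left
        have hm' : (evalRingHom m) P.leadingCoeff ≠ 0 := by
          simpa [Polynomial.IsRoot] using hm
        have hdeg : (P.map (evalRingHom m)).natDegree = P.natDegree :=
          Polynomial.natDegree_map_of_leadingCoeff_ne_zero _ hm'
        have hdeg' : (P.map (evalRingHom m)).degree ≠ 0 := by
          intro h
          have : (P.map (evalRingHom m)).natDegree = 0 :=
            Polynomial.natDegree_eq_of_degree_eq_some h
          omega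
        obtain ⟨l, hl⟩ := IsAlgClosed.exists_root _ hdeg'
        refine ⟨(m, l), ?_, rfl⟩
        show P.evalEval m l = 0
        rw [← Polynomial.map_evalRingHom_eval]
        exact hl
    exact not_countable_complex ((h1.union h2.countable).mono h3)

end AJM
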