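import Pool.Agent.Work.MP_d3fa71_gt.Mut.Bd.B05

/-!
# MP_d3fa71_gt, project Mut: item WFam
-/

namespace AJM

section

variable {H : Type} [Group H]

theorem L_WFam_inv_cup {s s' : List (H × H)} (h : WStep (.cup, 0) s s') :
    ∃ p : H × H, s' = p :: (p.1⁻¹, p.2) :: s := by
  cases h with
  | cup x g s => exact ⟨(x, g), rfl⟩

theorem L_WFam_inv_cap {s s' : List (H × H)} (h : WStep (.cap, 0) s s') :
    ∃ p : H × H, s = p :: (p.1⁻¹, p.2) :: s' := by
  cases h with
  | cap x g s => exact ⟨(x, g), rfl⟩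

theorem L_WFam_inv_pos {s s' : List (H × H)} (h : WStep (.pos, 0) s s') :
    ∃ (p q : H × H) (t : List (H × H)), s = p :: q :: t ∧
      s' = q :: (q.1⁻¹ * p.1 * q.1, q.1⁻¹ * p.2) :: t := by
  cases h with
  | pos x g y h s => exact ⟨(x, g), (y, h), s, rfl, rfl⟩

theorem L_WFam_inv_neg {s s' : List (H × H)} (h : WStep (.neg, 0) s s') :
    ∃ (p q : H × H) (t : List (H × H)), s = p :: q :: t ∧
      s' = (p.1 * q.1 * p.1⁻¹, p.1 * q.2) :: p :: t := by
  cases h with
  | neg x g y h s => exact ⟨(x, g), (y, h), s, rfl, rfl⟩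

theorem L_WFam_inv_sh {k : Kd} {n : ℕ} {s s' : List (H × H)} (h : WStep (k, n + 1) s s') :
    ∃ (p : H × H) (t t' : List (H × H)), s = p :: t ∧ s' = p :: t' ∧ WStep (k, n) t t' := by
  cases h with
  | sh a h => exact ⟨a, _, _, rfl, rfl, h⟩

end

section

variable {I H : Type}

/-- evaluation at an index -/
def L_WFam_ev (i : I) (σ : List ((I → H) × (I → H))) : List (H × H) :=
  σ.map fun p => (p.1 i, p.2 i)

theorem L_WFam_cons (i : I) (p : (I → H) × (I → H)) (σ : List ((I → H) × (I → H))) :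
    L_WFam_ev i (p :: σ) = (p.1 i, p.2 i) :: L_WFam_ev i σ := rfl

theorem L_WFam_inj [Nonempty I] : ∀ (σ σ' : List ((I → H) × (I → H))),
    (∀ i, L_WFam_ev i σ = L_WFam_ev i σ') → σ = σ'
  | [], [], _ => rfl
  | [], p :: σ', h => by
      have := h (Classical.arbitrary I)
      simp [L_WFam_ev] at this
  | p :: σ, [], h => by
      have := h (Classical.arbitrary I)
      simp [L_WFam_ev] at this
  | p :: σ, q :: σ', h => by
      have h1 : ∀ i, (p.1 i, p.2 i) = (q.1 i, q.2 i) ∧ L_WFam_ev i σ = L_WFam_ev i σ' := by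
        intro i
        have := h i
        rw [L_WFam_cons, L_WFam_cons, List.cons.injEq] at this
        exact this
      have h2 : p = q := by
        ext i
        · exact congrArg Prod.fst (h1 i).1
        · exact congrArg Prod.snd (h1 i).1
      rw [h2, L_WFam_inj σ σ' fun i => (h1 i).2]

theorem L_WFam_step [Nonempty I] [Group H] (k : Kd) : ∀ (n : ℕ) (σ : List ((I → H) × (I → H)))
    (u : I → List (H × H)), (∀ i, WStep (k, n) (L_WFam_ev i σ) (u i)) →
    ∃ σ₁, WStep (k, n) σ σ₁ ∧ ∀ i, L_WFam_ev i σ₁ = u i := by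
  intro n
  induction n with
  | zero =>
    intro σ u h
    cases k with
    | cup =>
      choose p hp using fun i => L_WFam_inv_cup (h i)
      refine ⟨(fun i => (p i).1, fun i => (p i).2) ::
        ((fun i => (p i).1)⁻¹, fun i => (p i).2) :: σ, WStep.cup _ _ _, fun i => ?_⟩
      rw [hp i]
      rfl
    | cap =>
      have h1 := fun i => L_WFam_inv_cap (h i)
      obtain ⟨p₀, hp₀⟩ := h1 (Classical.arbitrary I)
      match σ, hp₀, h1 with
      | [], hp₀, _ => simp [L_WFam_ev] at hp₀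
      | [a], hp₀, _ => simp [L_WFam_ev] at hp₀
      | a :: b :: τ, _, h1 =>
        have h2 : ∀ i, (b.1 i, b.2 i) = ((a.1 i)⁻¹, a.2 i) ∧ L_WFam_ev i τ = u i := by
          intro i
          obtain ⟨p, hp⟩ := h1 i
          rw [L_WFam_cons, L_WFam_cons, List.cons.injEq, List.cons.injEq] at hp
          obtain ⟨hp1, hp2, hp3⟩ := hp
          rw [← hp1] at hp2
          exact ⟨hp2, hp3⟩
        have hb : b = (a.1⁻¹, a.2) := by
          ext i
          · exact congrArg Prod.fst (h2 i).1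
          · exact congrArg Prod.snd (h2 i).1
        refine ⟨τ, ?_, fun i => (h2 i).2⟩
        rw [hb]
        exact WStep.cap a.1 a.2 τ
    | pos =>
      have h1 := fun i => L_WFam_inv_pos (h i)
      obtain ⟨p₀, q₀, t₀, hp₀, -⟩ := h1 (Classical.arbitrary I)
      match σ, hp₀, h1 with
      | [], hp₀, _ => simp [L_WFam_ev] at hp₀
      | [a], hp₀, _ => simp [L_WFam_ev] at hp₀
      | a :: b :: τ, _, h1 =>
        refine ⟨b :: (b.1⁻¹ * a.1 * b.1, b.1⁻¹ * a.2) :: τ, WStep.pos a.1 a.2 b.1 b.2 τ,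
          fun i => ?_⟩
        obtain ⟨p, q, t, hp, hu⟩ := h1 i
        rw [L_WFam_cons, L_WFam_cons, List.cons.injEq, List.cons.injEq] at hp
        obtain ⟨hp1, hp2, hp3⟩ := hp
        rw [hu, ← hp1, ← hp2, ← hp3]
        rfl
    | neg =>
      have h1 := fun i => L_WFam_inv_neg (h i)
      obtain ⟨p₀, q₀, t₀, hp₀, -⟩ := h1 (Classical.arbitrary I)
      match σ, hp₀, h1 with
      | [], hp₀, _ => simp [L_WFam_ev] at hp₀
      | [a], hp₀, _ => simp [L_WFam_ev] at hp₀
      | a :: b :: τ, _, h1 =>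
        refine ⟨(a.1 * b.1 * a.1⁻¹, a.1 * b.2) :: a :: τ, WStep.neg a.1 a.2 b.1 b.2 τ,
          fun i => ?_⟩
        obtain ⟨p, q, t, hp, hu⟩ := h1 i
        rw [L_WFam_cons, L_WFam_cons, List.cons.injEq, List.cons.injEq] at hp
        obtain ⟨hp1, hp2, hp3⟩ := hp
        rw [hu, ← hp1, ← hp2, ← hp3]
        rfl
  | succ n ih =>
    intro σ u h
    have h1 := fun i => L_WFam_inv_sh (h i)
    obtain ⟨p₀, t₀, t₀', hp₀, -⟩ := h1 (Classical.arbitrary I)
    match σ, hp₀, h1 with
    | [], hp₀, _ => simp [L_WFam_ev] at hp₀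
    | a :: τ, _, h1 =>
      have h2 : ∀ i, ∃ t', u i = (a.1 i, a.2 i) :: t' ∧ WStep (k, n) (L_WFam_ev i τ) t' := by
        intro i
        obtain ⟨p, t, t', hp, hu, hs⟩ := h1 i
        rw [L_WFam_cons, List.cons.injEq] at hp
        obtain ⟨hp1, hp2⟩ := hp
        rw [← hp1] at hu
        rw [← hp2] at hs
        exact ⟨t', hu, hs⟩
      choose t' hu hs using h2
      obtain ⟨σ₁, h3, h4⟩ := ih τ t' hs
      refine ⟨a :: σ₁, WStep.sh a h3, fun i => ?_⟩
      rw [hu i, L_WFam_cons, h4 i]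

theorem L_WFam_path [Nonempty I] [Group H] (w : List Mv) :
    ∀ (σ σ' : List ((I → H) × (I → H))),
    (∀ i, WPath w (L_WFam_ev i σ) (L_WFam_ev i σ')) → WPath w σ σ' := by
  induction w with
  | nil =>
    intro σ σ' h
    have : σ = σ' := by
      refine L_WFam_inj σ σ' fun i => ?_
      have h1 := h i
      generalize L_WFam_ev i σ = a at h1
      generalize L_WFam_ev i σ' = b at h1
      cases h1
      rfl
    rw [this]
    exact WPath.nil _
  | cons m w ih =>
    intro σ σ' h
    have h1 : ∀ i, ∃ u, WStep m (L_WFam_ev i σ) u ∧ WPath w u (L_WFam_ev i σ') := by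
      intro i
      have h1 := h i
      cases h1 with
      | cons h2 h3 => exact ⟨_, h2, h3⟩
    choose u hu hw using h1
    obtain ⟨k, n⟩ := m
    obtain ⟨σ₁, h2, h3⟩ := L_WFam_step k n σ u hu
    refine WPath.cons h2 (ih σ₁ σ' fun i => ?_)
    rw [h3 i]
    exact hw i

end

/-- The item WFam for nonempty index sets. -/
theorem L_WFam_ne : ∀ (I H : Type) [Nonempty I] [Group H] (w : List Mv)
    (s s' : List (I → H × H)),
    (∀ i, WPath w (s.map fun f => f i) (s'.map fun f => f i)) →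
    WPath (H := I → H) w (s.map fun f => (fun i => (f i).1, fun i => (f i).2))
      (s'.map fun f => (fun i => (f i).1, fun i => (f i).2)) := by
  intro I H _ _ w s s' h
  refine L_WFam_path w _ _ fun i => ?_
  have e : ∀ t : List (I → H × H),
      L_WFam_ev i (t.map fun f => (fun i => (f i).1, fun i => (f i).2)) = t.map fun f => f i := by
    intro t
    rw [L_WFam_ev, List.map_map]
    rfl
  rw [e, e]
  exact h i

end AJM
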