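import Pool.Agent.Work.MP_d3fa71_gt.Mut.StmtsXB

/-!
# MP_d3fa71_gt, project Mut, block X: item WFg
-/

namespace AJM

/-- the map of matrices from a subring -/
noncomputable abbrev L_WFg_io {K : Type} [Field K] (R : Subring K) : G R →* G K :=
  Matrix.SpecialLinearGroup.map R.subtype

/-- the map of pairs -/
noncomputable abbrev L_WFg_pr {K : Type} [Field K] (R : Subring K) : G R × G R → G K × G K :=
  Prod.map (L_WFg_io R) (L_WFg_io R)

lemma L_WFg_inj {K : Type} [Field K] (R : Subring K) : Function.Injective (L_WFg_io R) := by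
  intro a b h
  apply Subtype.ext
  ext i j
  have h1 := congrArg (fun z : G K => z.1 i j) h
  exact h1

open Classical in
/-- the entries of a matrix -/
noncomputable def L_WFg_ent {K : Type} [Field K] (x : G K) : Finset K :=
  Finset.univ.image fun p : Fin 2 × Fin 2 => x.1 p.1 p.2

lemma L_WFg_lift {K : Type} [Field K] (R : Subring K) (x : G K)
    (h : (L_WFg_ent x : Set K) ⊆ R) : ∃ x' : G R, L_WFg_io R x' = x := by
  classical
  have hx : ∀ i j, x.1 i j ∈ R := fun i j => h (by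
    simp only [L_WFg_ent, Finset.coe_image, Set.mem_image]
    exact ⟨(i, j), by simp, rfl⟩)
  have hdet : (Matrix.of fun i j => (⟨x.1 i j, hx i j⟩ : R)).det = 1 := by
    apply Subtype.ext
    have h1 : R.subtype (Matrix.of fun i j => (⟨x.1 i j, hx i j⟩ : R)).det = 1 := by
      rw [RingHom.map_det]
      exact x.2
    exact h1
  refine ⟨⟨Matrix.of fun i j => ⟨x.1 i j, hx i j⟩, hdet⟩, ?_⟩
  apply Subtype.ext
  ext i j
  rfl

lemma L_WFg_step {K : Type} [Field K] {m : Mv} {s s1 : List (G K × G K)} (h : WStep m s s1) :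
    ∃ B : Finset K, ∀ R : Subring K, (B : Set K) ⊆ R → ∀ t : List (G R × G R),
      t.map (L_WFg_pr R) = s → ∃ t1 : List (G R × G R), t1.map (L_WFg_pr R) = s1 ∧
        WStep m t t1 := by
  classical
  induction h with
  | cup x g s =>
    refine ⟨L_WFg_ent x ∪ L_WFg_ent g, fun R hR t ht => ?_⟩
    rw [Finset.coe_union, Set.union_subset_iff] at hR
    obtain ⟨x', hx'⟩ := L_WFg_lift R x hR.1
    obtain ⟨g', hg'⟩ := L_WFg_lift R g hR.2
    refine ⟨(x', g') :: (x'⁻¹, g') :: t, ?_, WStep.cup x' g' t⟩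
    rw [List.map_cons, List.map_cons, ht, L_WFg_pr, Prod.map_apply, Prod.map_apply, map_inv, hx',
      hg']
  | cap x g s =>
    refine ⟨∅, fun R _ t ht => ?_⟩
    match t, ht with
    | a :: b :: t1, ht =>
      simp only [List.map_cons, List.cons.injEq] at ht
      obtain ⟨h1, h2, h3⟩ := ht
      have e1 : L_WFg_io R a.1 = x := congrArg Prod.fst h1
      have e2 : L_WFg_io R a.2 = g := congrArg Prod.snd h1
      have e3 : L_WFg_io R b.1 = x⁻¹ := congrArg Prod.fst h2
      have e4 : L_WFg_io R b.2 = g := congrArg Prod.snd h2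
      have f1 : b.1 = a.1⁻¹ := L_WFg_inj R (by rw [e3, map_inv, e1])
      have f2 : b.2 = a.2 := L_WFg_inj R (by rw [e4, e2])
      refine ⟨t1, h3, ?_⟩
      have hb : b = (a.1⁻¹, a.2) := Prod.ext f1 f2
      rw [hb]
      exact WStep.cap a.1 a.2 t1
  | pos x g y h s =>
    refine ⟨∅, fun R _ t ht => ?_⟩
    match t, ht with
    | a :: b :: t1, ht =>
      simp only [List.map_cons, List.cons.injEq] at ht
      obtain ⟨h1, h2, h3⟩ := ht
      have e1 : L_WFg_io R a.1 = x := congrArg Prod.fst h1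
      have e2 : L_WFg_io R a.2 = g := congrArg Prod.snd h1
      have e3 : L_WFg_io R b.1 = y := congrArg Prod.fst h2
      have e4 : L_WFg_io R b.2 = h := congrArg Prod.snd h2
      refine ⟨(b.1, b.2) :: (b.1⁻¹ * a.1 * b.1, b.1⁻¹ * a.2) :: t1, ?_,
        WStep.pos a.1 a.2 b.1 b.2 t1⟩
      rw [List.map_cons, List.map_cons, h3, L_WFg_pr, Prod.map_apply, Prod.map_apply, map_mul,
        map_mul, map_mul, map_inv, e1, e2, e3, e4]
  | neg x g y h s =>
    refine ⟨∅, fun R _ t ht => ?_⟩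
    match t, ht with
    | a :: b :: t1, ht =>
      simp only [List.map_cons, List.cons.injEq] at ht
      obtain ⟨h1, h2, h3⟩ := ht
      have e1 : L_WFg_io R a.1 = x := congrArg Prod.fst h1
      have e2 : L_WFg_io R a.2 = g := congrArg Prod.snd h1
      have e3 : L_WFg_io R b.1 = y := congrArg Prod.fst h2
      have e4 : L_WFg_io R b.2 = h := congrArg Prod.snd h2
      refine ⟨(a.1 * b.1 * a.1⁻¹, a.1 * b.2) :: (a.1, a.2) :: t1, ?_,
        WStep.neg a.1 a.2 b.1 b.2 t1⟩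
      rw [List.map_cons, List.map_cons, h3, L_WFg_pr, Prod.map_apply, Prod.map_apply, map_mul,
        map_mul, map_mul, map_inv, e1, e2, e3, e4]
  | sh a _ ih =>
    obtain ⟨B, hB⟩ := ih
    refine ⟨B, fun R hR t ht => ?_⟩
    match t, ht with
    | a' :: t0, ht =>
      simp only [List.map_cons, List.cons.injEq] at ht
      obtain ⟨t1, h1, h2⟩ := hB R hR t0 ht.2
      refine ⟨a' :: t1, ?_, WStep.sh a' h2⟩
      rw [List.map_cons, ht.1, h1]

lemma L_WFg_path {K : Type} [Field K] {w : List Mv} {s s' : List (G K × G K)}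
    (h : WPath w s s') :
    ∃ B : Finset K, ∀ R : Subring K, (B : Set K) ⊆ R → ∀ t : List (G R × G R),
      t.map (L_WFg_pr R) = s → ∃ t1 : List (G R × G R), t1.map (L_WFg_pr R) = s' ∧
        WPath w t t1 := by
  classical
  induction h with
  | nil s => exact ⟨∅, fun R _ t ht => ⟨t, ht, WPath.nil t⟩⟩
  | cons h1 _ ih =>
    obtain ⟨B1, hB1⟩ := L_WFg_step h1
    obtain ⟨B2, hB2⟩ := ih
    refine ⟨B1 ∪ B2, fun R hR t ht => ?_⟩
    rw [Finset.coe_union, Set.union_subset_iff] at hR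
    obtain ⟨t1, e1, p1⟩ := hB1 R hR.1 t ht
    obtain ⟨t2, e2, p2⟩ := hB2 R hR.2 t1 e1
    exact ⟨t2, e2, WPath.cons p1 p2⟩

lemma L_WFg_start {K : Type} [Field K] (s : List (G K × G K)) :
    ∃ B : Finset K, ∀ R : Subring K, (B : Set K) ⊆ R → ∃ t : List (G R × G R),
      t.map (L_WFg_pr R) = s := by
  classical
  induction s with
  | nil => exact ⟨∅, fun R _ => ⟨[], rfl⟩⟩
  | cons a s ih =>
    obtain ⟨B, hB⟩ := ih
    refine ⟨(L_WFg_ent a.1 ∪ L_WFg_ent a.2) ∪ B, fun R hR => ?_⟩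
    rw [Finset.coe_union, Finset.coe_union, Set.union_subset_iff, Set.union_subset_iff] at hR
    obtain ⟨t, ht⟩ := hB R hR.2
    obtain ⟨x', hx'⟩ := L_WFg_lift R a.1 hR.1.1
    obtain ⟨g', hg'⟩ := L_WFg_lift R a.2 hR.1.2
    refine ⟨(x', g') :: t, ?_⟩
    rw [List.map_cons, ht, L_WFg_pr, Prod.map_apply, hx', hg']

theorem prf_WFg : WFg := by
  classical
  intro K _ w s s' h
  obtain ⟨B1, hB1⟩ := L_WFg_start s
  obtain ⟨B2, hB2⟩ := L_WFg_path h
  refine ⟨B1 ∪ B2, fun R hR => ?_⟩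
  rw [Finset.coe_union, Set.union_subset_iff] at hR
  obtain ⟨t, ht⟩ := hB1 R hR.1
  obtain ⟨t', e, p⟩ := hB2 R hR.2 t ht
  exact ⟨t, t', ht, e, p⟩

end AJM
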