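import Pool.Agent.Work.MP_d3fa71_gt.Mut.Bd.B16

/-! # MP_d3fa71_gt, project Mut, block X: Zariski's lemma -/

namespace AJM

theorem prf_ZarHom : ZarHom := by
  intro k R Ω _ _ _ _ _ _ _ hft
  obtain ⟨I, hI⟩ := Ideal.exists_maximal R
  let _ : Field (R ⧸ I) := Ideal.Quotient.field I
  have h1 : Algebra.FiniteType k (R ⧸ I) :=
    hft.of_surjective (Ideal.Quotient.mkₐ k I) (Ideal.Quotient.mkₐ_surjective k I)
  have h2 : Module.Finite k (R ⧸ I) := finite_of_finite_type_of_isJacobsonRing k (R ⧸ I)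
  have h3 : Algebra.IsAlgebraic k (R ⧸ I) := inferInstance
  exact ⟨(IsAlgClosed.lift : (R ⧸ I) →ₐ[k] Ω).comp (Ideal.Quotient.mkₐ k I)⟩

end AJM
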