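import Pool.Agent.Work.MP_d3fa71_gt.Mut.Bd.B05
import Pool.Agent.Work.MP_d3fa71_gt.Mut.Bd.B07
import Pool.Agent.Work.MP_d3fa71_gt.Mut.Bd.B20
import Pool.Agent.Work.MP_d3fa71_gt.Bd.B01

/-!
# MP_d3fa71_gt, project Mut, block X: A-polynomials of knot words, final assembly
-/

open Polynomial

namespace AJM

/-- The value of `P ∈ ℤ[M][L]` at `M = m`, `L = l`. -/
noncomputable def bev {R : Type} [CommRing R] (m l : R) : ℤ[X][X] →+* R :=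
  Polynomial.eval₂RingHom (Polynomial.eval₂RingHom (Int.castRingHom R) m) l

/-- Comparison with the evaluation of `AJG`, and with ring homomorphisms. -/
def BevEv : Prop :=
  (∀ (P : ℤ[X][X]) (m l : ℂ),
    (P.map (Polynomial.mapRingHom (Int.castRingHom ℂ))).evalEval m l = bev m l P) ∧
  (∀ (A : ℤ[X][X]) (p : ℂ × ℂ), p ∈ AJG.ZeroSet A ↔ p.1 ≠ 0 ∧ p.2 ≠ 0 ∧ bev p.1 p.2 A = 0) ∧
  (∀ (R S : Type) [CommRing R] [CommRing S] (f : R →+* S) (P : ℤ[X][X]) (m l : R),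
    f (bev m l P) = bev (f m) (f l) P)

/-! ## Change of the ring -/

def ESMap : Prop :=
  ∀ (R S : Type) [CommRing R] [CommRing S] (f : R →+* S) (w : List Mv) (e : ℤ) (m l : Rˣ),
    ESp w e m l → ESp w e (Units.map f.toMonoidHom m) (Units.map f.toMonoidHom l)

/-- A path of labels involves finitely many elements. -/
def WFg : Prop :=
  ∀ (K : Type) [Field K] (w : List Mv) (s s' : List (G K × G K)), WPath w s s' →
    ∃ B : Finset K, ∀ (R : Subring K), (B : Set K) ⊆ R →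
      ∃ t t' : List (G R × G R),
        t.map (Prod.map (Matrix.SpecialLinearGroup.map R.subtype)
          (Matrix.SpecialLinearGroup.map R.subtype)) = s ∧
        t'.map (Prod.map (Matrix.SpecialLinearGroup.map R.subtype)
          (Matrix.SpecialLinearGroup.map R.subtype)) = s' ∧ WPath w t t'

def ESFg : Prop :=
  ∀ (k K : Type) [Field k] [Field K] [Algebra k K] (w : List Mv) (e : ℤ) (m l : Kˣ),
    ESp w e m l → ∃ (R : Subalgebra k K), R.FG ∧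
      ∃ m' l' : Rˣ, ((m' : R) : K) = m ∧ ((l' : R) : K) = l ∧ ESp w e m' l'

/-- Zariski's lemma. -/
def ZarHom : Prop :=
  ∀ (k R Ω : Type) [Field k] [CommRing R] [Nontrivial R] [Algebra k R] [Field Ω] [Algebra k Ω]
    [IsAlgClosed Ω], Algebra.FiniteType k R → Nonempty (R →ₐ[k] Ω)

def ESTransfer : Prop :=
  ∀ (k K Ω : Type) [Field k] [Field K] [Field Ω] [Algebra k K] [Algebra k Ω] [IsAlgClosed Ω]
    (w : List Mv) (e : ℤ) (m l : kˣ),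
    ESp w e (Units.map (algebraMap k K).toMonoidHom m)
      (Units.map (algebraMap k K).toMonoidHom l) →
    ESp w e (Units.map (algebraMap k Ω).toMonoidHom m)
      (Units.map (algebraMap k Ω).toMonoidHom l)

/-- Families of paths. -/
def WFam : Prop :=
  ∀ (I H : Type) [Group H] (w : List Mv) (s s' : List (I → H × H)),
    (∀ i, WPath w (s.map fun f => f i) (s'.map fun f => f i)) →
    WPath (H := I → H) w (s.map fun f => (fun i => (f i).1, fun i => (f i).2))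
      (s'.map fun f => (fun i => (f i).1, fun i => (f i).2))

def ESGerm : Prop :=
  ∀ (F : Type) [Field F] (w : List Mv) (e : ℤ) (m l : ℕ → Fˣ), (∀ i, ESp w e (m i) (l i)) →
    ESp w e (gu m) (gu l)

/-! ## The dimension -/

def ESDl : Prop :=
  ∀ (k K : Type) [Field k] [Field K] [Algebra k K] [CharZero K] (w : List Mv) (e : ℤ)
    (m l : Kˣ), IsKnot ((.cup, 0) :: w) e → (m : K) ^ 2 ≠ 1 → ESp w e m l →
    ∀ D D' : Derivation k K K, D (l : K) * D' (m : K) = D' (l : K) * D (m : K)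

def ESDim : Prop :=
  ∀ (w : List Mv) (e : ℤ), IsKnot ((.cup, 0) :: w) e →
    ∃ P : ℤ[X][X], P ≠ 0 ∧ ∀ m l : ℂˣ, ESp w e m l → bev (m : ℂ) (l : ℂ) P = 0

/-! ## Plane curves -/

def Elim : Prop :=
  ∀ (k : Type) [CommRing k] [IsDomain k] [UniqueFactorizationMonoid k] (F P : k[X][X]),
    Irreducible F → ¬ F ∣ P → ∃ (a : k[X]) (U V : k[X][X]), a ≠ 0 ∧ C a = U * F + V * P

def Bez : Prop :=
  ∀ F P : ℤ[X][X], Irreducible F → ¬ F ∣ P →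
    {p : ℂ × ℂ | bev p.1 p.2 F = 0 ∧ bev p.1 p.2 P = 0}.Finite

def BezC : Prop :=
  ∀ F P : ℂ[X][X], Irreducible F → ¬ F ∣ P →
    {p : ℂ × ℂ | F.evalEval p.1 p.2 = 0 ∧ P.evalEval p.1 p.2 = 0}.Finite

def Uncount : Prop :=
  ∀ P : ℂ[X][X], Irreducible P → ¬ {p : ℂ × ℂ | P.evalEval p.1 p.2 = 0}.Countable

/-- The generic points over `ℚ` are dense in the complex curve. -/
def DensGen : Prop :=
  ∀ (F : ℤ[X][X]) (H : ℂ[X][X]), Irreducible F →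
    (∀ m l : ℂˣ, (∀ P : ℤ[X][X], bev (m : ℂ) (l : ℂ) P = 0 ↔ F ∣ P) →
      H.evalEval (m : ℂ) (l : ℂ) = 0) →
    ∀ p : ℂ × ℂ, p.1 ≠ 0 → p.2 ≠ 0 → bev p.1 p.2 F = 0 → H.evalEval p.1 p.2 = 0

def GenPt : Prop :=
  ∀ (w : List Mv) (e : ℤ) (F : ℤ[X][X]), Irreducible F →
    {p : ℂ × ℂ | p ∈ ES w e ∧ bev p.1 p.2 F = 0}.Infinite →
    ∃ m l : (Gm ℂ)ˣ, ESp w e m l ∧ ∀ P : ℤ[X][X], bev (m : Gm ℂ) (l : Gm ℂ) P = 0 ↔ F ∣ P

def GenAll : Prop :=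
  ∀ (w : List Mv) (e : ℤ) (F : ℤ[X][X]), Irreducible F →
    {p : ℂ × ℂ | p ∈ ES w e ∧ bev p.1 p.2 F = 0}.Infinite →
    ∀ m l : ℂˣ, (∀ P : ℤ[X][X], bev (m : ℂ) (l : ℂ) P = 0 ↔ F ∣ P) → ESp w e m l

/-- Existence of the A-polynomial. -/
def ExA : Prop :=
  ∀ (w : List Mv) (e : ℤ), IsKnot ((.cup, 0) :: w) e →
    ∃ A : ℤ[X][X], A ≠ 0 ∧ ¬ X ∣ A ∧ ∃ T : Set (ℂ × ℂ), T.Finite ∧
      AJG.Zcl (ES w e) = AJG.ZeroSet A ∪ T

def APolyEx : Prop :=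
  ∀ (w : List Mv) (e : ℤ), IsKnot w e → ∃ A, AJG.IsAPoly (KG w e) A

/-! ## Factors of A-polynomials -/

def FPos : Prop :=
  ∀ (P : AJG.PGroup) (A F : ℤ[X][X]), AJG.IsAPoly P A → Irreducible F →
    {p : ℂ × ℂ | p ∈ AJG.EigSet P ∧ bev p.1 p.2 F = 0}.Infinite → F ∣ A

def FNeg : Prop :=
  ∀ (P : AJG.PGroup) (A F : ℤ[X][X]), AJG.IsAPoly P A → Irreducible F →
    {m : ℂ | ∃ l : ℂ, m ≠ 0 ∧ l ≠ 0 ∧ bev m l F = 0}.Infinite →
    {p : ℂ × ℂ | p ∈ AJG.EigSet P ∧ bev p.1 p.2 F = 0}.Finite → ¬ F ∣ A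

/-- The curves `L = u M ^ N`. -/
def FCurve : Prop :=
  ∀ z : ℤˣ × ℤ, Irreducible (AJG.AEx_F z) ∧ (AJG.AEx_F z).natDegree = 1 ∧
    ∀ m l : ℂ, m ≠ 0 → (bev m l (AJG.AEx_F z) = 0 ↔ l = ((z.1 : ℤ) : ℂ) * m ^ z.2)

/-- The negative half: finitely many points. -/
def KFin : Prop :=
  ∀ (Ω : Type) [Field Ω] [IsAlgClosed Ω] [Algebra ℂ Ω] (ι : Gm ℂ →+* Ω),
    (∀ c : ℂ, ι (gm ℂ fun _ => c) = algebraMap ℂ Ω c) →
    ∀ (w : List Mv) (e N : ℤ) (u : ℤˣ), IsKnot ((.cup, 0) :: w) e →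
      ¬ SS Ω ((.cup, 0) :: w) N →
      {p : ℂ × ℂ | p ∈ ES w e ∧ p.2 = ((u : ℤ) : ℂ) * p.1 ^ (N - e)}.Finite

/-- The positive half: infinitely many points. -/
def KInf : Prop :=
  ∀ (w : List Mv) (e N : ℤ) (B : Finset ℂ), IsKnot ((.cup, 0) :: w) e →
    (∀ M : ℂˣ, (M : ℂ) ∉ B → Path M ((.cup, 0) :: w) [] [] (M ^ N)) →
    ∃ u : ℤˣ, {p : ℂ × ℂ | p ∈ ES w e ∧ p.2 = ((u : ℤ) : ℂ) * p.1 ^ (N - e)}.Infinite

/-- Existence of the non-commutative A-polynomial. -/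
def JNCA : Prop := ∀ (w : List Mv) (e : ℤ), ∃ α, AJG.IsNCA (Jc w e) α

end AJM
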